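import Pool.Agent.Lib.MP_acf5a6_lc.Forward

/-!
The polynomial-time reduction from TSV to ETR.
-/

set_option autoImplicit false
set_option linter.unusedSectionVars false

namespace Pool.Agent.Lib.MP_acf5a6_lc

open N487b59b3 Finset

/-- A sparse cubic form. -/
abbrev CF : Type := List (ℤ × ℕ × ℕ × ℕ)

/-- Evaluation of a sparse cubic form. -/
def ev3 (q : CF) (v : ℕ → ℝ) : ℝ :=
  (q.map fun t => (t.1 : ℝ) * v t.2.1 * v t.2.2.1 * v t.2.2.2).sum

/-- The term of a monomial. -/
def monT (t : ℤ × ℕ × ℕ × ℕ) : Term :=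
  .mul (.mul (.mul (.const t.1) (.var t.2.1)) (.var t.2.2.1)) (.var t.2.2.2)

/-- The term of a cubic form. -/
def sumT (q : CF) : Term := q.foldl (fun s t => .add s (monT t)) (.const 0)

/-- The formula of a system of cubic forms. -/
def andF (E : List CF) : Formula :=
  E.foldl (fun φ q => .and φ (.eq (sumT q) (.const 0))) (.eq (.var 0) (.const 1))

theorem val_sumT (v : ℕ → ℝ) (q : CF) : termVal v (sumT q) = ev3 q v := by
  have : ∀ s, termVal v (q.foldl (fun s t => .add s (monT t)) s) = termVal v s + ev3 q v := by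
    induction q with
    | nil => simp [ev3]
    | cons t q ih => intro s; rw [List.foldl_cons, ih]; simp [ev3, termVal, monT, add_assoc]
  simp [sumT, this, termVal]

theorem holds_andF (v : ℕ → ℝ) (E : List CF) :
    Holds v (andF E) ↔ v 0 = 1 ∧ ∀ q ∈ E, ev3 q v = 0 := by
  have : ∀ φ, Holds v (E.foldl (fun φ q => .and φ (.eq (sumT q) (.const 0))) φ) ↔
      Holds v φ ∧ ∀ q ∈ E, ev3 q v = 0 := by
    induction E with
    | nil => simp
    | cons t q ih => intro s; simp [ih, Holds, termVal, val_sumT, and_assoc]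
  simp [andF, this, termVal, Holds]

theorem code_sumT (q : CF) : termCode (sumT q) = (1, 0) :: q.flatMap fun t =>
    [(1, t.1), (0, (t.2.1 : ℤ)), (3, 0), (0, (t.2.2.1 : ℤ)), (3, 0), (0, (t.2.2.2 : ℤ)), (3, 0),
      (2, 0)] := by
  have : ∀ s, termCode (q.foldl (fun s t => .add s (monT t)) s) = termCode s ++ q.flatMap fun t =>
      [(1, t.1), (0, (t.2.1 : ℤ)), (3, 0), (0, (t.2.2.1 : ℤ)), (3, 0), (0, (t.2.2.2 : ℤ)), (3, 0),
        (2, 0)] := by
    induction q with
    | nil => simp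
    | cons t q ih => intro s; rw [List.foldl_cons, ih]; simp [termCode, monT]
  simp [sumT, this, termCode]

theorem code_andF (E : List CF) : formulaCode (andF E) = (0, 0) :: (1, 1) :: (4, 0) ::
    E.flatMap fun q => termCode (sumT q) ++ [(1, 0), (4, 0), (8, 0)] := by
  have : ∀ φ, formulaCode (E.foldl (fun φ q => .and φ (.eq (sumT q) (.const 0))) φ) =
      formulaCode φ ++ E.flatMap fun q => termCode (sumT q) ++ [(1, 0), (4, 0), (8, 0)] := by
    induction E with
    | nil => simp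
    | cons t q ih => intro s; simp [ih, termCode, formulaCode]
  simp [andF, this, termCode, formulaCode]

theorem code_PT : PT (fun E : List CF => formulaCode (andF E)) := by
  simp only [code_andF, code_sumT]
  fun_prop

/-- The array is a cube and the number is positive. -/
def shape (w : List (List (List ℚ)) × ℚ) : Bool :=
  (w.1.all fun M => decide (M.length = w.1.length) &&
    M.all fun r => decide (r.length = w.1.length)) && decide (0 < w.2.num.toNat)

theorem shape_iff (w : List (List (List ℚ)) × ℚ) : shape w = true ↔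
    (∃ (d : ℕ) (T : Fin d → Fin d → Fin d → ℚ), w.1 = listOf T) ∧ 0 < w.2 := by
  obtain ⟨L, σ⟩ := w
  simp only [shape, Bool.and_eq_true, List.all_eq_true, decide_eq_true_eq]
  refine and_congr ⟨fun h => ?_, ?_⟩ (by rw [← Rat.num_pos]; omega)
  · refine ⟨L.length, fun i j k => ((L.getD i []).getD j []).getD k 0, ?_⟩
    apply List.ext_getElem (by simp [listOf])
    intro i h1 h2
    have hi := h _ (List.getElem_mem h1)
    apply List.ext_getElem (by simp [listOf, hi.1])
    intro j h3 h4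
    have hj := hi.2 _ (List.getElem_mem h3)
    apply List.ext_getElem (by simp [listOf, hj])
    intro k h5 h6
    simp [listOf, h3, h5]
  · rintro ⟨d, T, rfl⟩ M hM
    simp only [listOf, List.mem_ofFn] at hM
    obtain ⟨i, rfl⟩ := hM
    refine ⟨by simp [listOf], fun r hr => ?_⟩
    simp only [List.mem_ofFn] at hr
    obtain ⟨j, rfl⟩ := hr
    simp [listOf]

/-- The variable that holds the entry `(i, j, k)`. -/
def tau (d i j k : ℕ) : ℕ := 4 * ((i * d + j) * d + k) + 4

/-- The equations that fix the entries. -/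
def entries (L : List (List (List ℚ))) : List CF :=
  L.zipIdx.flatMap fun M => M.1.zipIdx.flatMap fun r => r.1.zipIdx.map fun t =>
    [((t.1.den : ℤ), tau L.length M.2 r.2 t.2, 0, 0), (-t.1.num, 0, 0, 0)]

/-- The equation of a unit vector. -/
def unitEq (d c : ℕ) : CF :=
  (-1, 0, 0, 0) :: (List.range d).map fun i => (1, 4 * i + c, 4 * i + c, 0)

/-- The three families of singular vector equations. -/
def singEq (d : ℕ) (σ : ℚ) : List CF :=
  (List.range d).flatMap fun i =>
    [(-σ.num, 4 * i + 1, 0, 0) :: (pairs d).map fun p =>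
      ((σ.den : ℤ), tau d i p.1 p.2, 4 * p.1 + 2, 4 * p.2 + 3),
     (-σ.num, 4 * i + 2, 0, 0) :: (pairs d).map fun p =>
      ((σ.den : ℤ), tau d p.1 i p.2, 4 * p.1 + 1, 4 * p.2 + 3),
     (-σ.num, 4 * i + 3, 0, 0) :: (pairs d).map fun p =>
      ((σ.den : ℤ), tau d p.1 p.2 i, 4 * p.1 + 1, 4 * p.2 + 2)]

/-- The cubic system of an instance of TSV. -/
def backSys (w : List (List (List ℚ)) × ℚ) : List CF :=
  cond (shape w) [] [(1, 0, 0, 0)] :: unitEq w.1.length 1 :: unitEq w.1.length 2 ::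
    unitEq w.1.length 3 :: (entries w.1 ++ singEq w.1.length w.2)

theorem backSys_PT : PT backSys := by
  have h1 : PT shape := by unfold shape; fun_prop
  have h2 : PT entries := by unfold entries tau; fun_prop
  have h3 : ∀ c, PT (fun w : List (List (List ℚ)) × ℚ => unitEq (ulen w.1).n c) := by
    intro c; unfold unitEq; fun_prop
  have h4 : PT (fun w : List (List (List ℚ)) × ℚ => singEq (ulen w.1).n w.2) := by
    unfold singEq tau; fun_prop
  exact PT.cons (by fun_prop) (PT.cons (h3 1) (PT.cons (h3 2) (PT.cons (h3 3)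
    (PT.append (by fun_prop) h4))))

theorem sum_map_range (n : ℕ) (f : ℕ → ℝ) :
    ((List.range n).map f).sum = ∑ i : Fin n, f i := by
  rw [← ofFn_range, List.sum_ofFn]

theorem sum_map_pairs (n : ℕ) (f : ℕ × ℕ → ℝ) :
    ((pairs n).map f).sum = ∑ j : Fin n, ∑ k : Fin n, f (j, k) := by
  rw [pairs_eq, List.map_map, sum_map_range]
  refine (sum_pairs n f).trans ?_
  rw [sum_product, ← Fin.sum_univ_eq_sum_range (fun a => ∑ b ∈ range n, f (a, b))]
  exact sum_congr rfl (fun a _ => (Fin.sum_univ_eq_sum_range (fun b => f (a, b)) n).symm)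

theorem ev3_cons (t : ℤ × ℕ × ℕ × ℕ) (q : CF) (v : ℕ → ℝ) :
    ev3 (t :: q) v = (t.1 : ℝ) * v t.2.1 * v t.2.2.1 * v t.2.2.2 + ev3 q v := by simp [ev3]

theorem unitEq_iff (d c : ℕ) {v : ℕ → ℝ} (h0 : v 0 = 1) :
    ev3 (unitEq d c) v = 0 ↔ ∑ i : Fin d, v (4 * i + c) ^ 2 = 1 := by
  rw [unitEq, ev3_cons, ev3, List.map_map, sum_map_range]
  simp only [Function.comp, h0, sq]
  push_cast
  simp only [one_mul, mul_one]
  constructor <;> intro h <;> linarith

theorem mem_zipIdx_ofFn {α : Type} {d : ℕ} (f : Fin d → α) (p : α × ℕ) :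
    p ∈ (List.ofFn f).zipIdx ↔ ∃ i : Fin d, p = (f i, (i : ℕ)) := by
  rw [List.mem_zipIdx_iff_getElem?, List.getElem?_ofFn]
  constructor
  · intro h
    split_ifs at h with hi
    exact ⟨⟨p.2, hi⟩, Prod.ext (Option.some.inj h).symm rfl⟩
  · rintro ⟨i, rfl⟩; simp

theorem entries_iff {d : ℕ} (T : Fin d → Fin d → Fin d → ℚ) {v : ℕ → ℝ} (h0 : v 0 = 1) :
    (∀ q ∈ entries (listOf T), ev3 q v = 0) ↔ ∀ i j k : Fin d, v (tau d i j k) = T i j k := by
  have e : ∀ (t : ℚ) (m : ℕ), ev3 [((t.den : ℤ), m, 0, 0), (-t.num, 0, 0, 0)] v = 0 ↔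
      v m = t := by
    intro t m
    have hd : (t.den : ℝ) ≠ 0 := by exact_mod_cast t.den_nz
    rw [Rat.cast_def, eq_div_iff hd]
    simp only [ev3, List.map_cons, List.map_nil, List.sum_cons, List.sum_nil, h0]
    push_cast
    constructor <;> intro h <;> linarith
  have hl : (listOf T).length = d := by simp [listOf]
  simp only [entries, hl, List.mem_flatMap, List.mem_map]
  simp only [listOf, mem_zipIdx_ofFn]
  constructor
  · intro h i j k
    exact (e _ _).1 (h _ ⟨_, ⟨i, rfl⟩, _, (mem_zipIdx_ofFn _ _).2 ⟨j, rfl⟩, _,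
      (mem_zipIdx_ofFn _ _).2 ⟨k, rfl⟩, rfl⟩)
  · rintro h _ ⟨_, ⟨i, rfl⟩, r, hr, t, ht, rfl⟩
    obtain ⟨j, rfl⟩ := (mem_zipIdx_ofFn _ _).1 hr
    obtain ⟨k, rfl⟩ := (mem_zipIdx_ofFn _ _).1 ht
    exact (e _ _).2 (h i j k)

theorem sing_aux (d : ℕ) (σ : ℚ) {v : ℕ → ℝ} (h0 : v 0 = 1) (m : ℕ) (a b c : ℕ × ℕ → ℕ) :
    ev3 ((-σ.num, m, 0, 0) :: (pairs d).map fun p => ((σ.den : ℤ), a p, b p, c p)) v = 0 ↔
      ∑ j : Fin d, ∑ k : Fin d, v (a (j, k)) * v (b (j, k)) * v (c (j, k)) = σ * v m := by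
  have hd : (σ.den : ℝ) ≠ 0 := by exact_mod_cast σ.den_nz
  rw [ev3_cons, ev3, List.map_map, sum_map_pairs, Rat.cast_def, div_mul_eq_mul_div, eq_div_iff hd]
  simp only [Function.comp, h0, mul_assoc, ← mul_sum]
  push_cast
  constructor <;> intro h <;> linarith

theorem singEq_iff (d : ℕ) (σ : ℚ) {v : ℕ → ℝ} (h0 : v 0 = 1) :
    (∀ q ∈ singEq d σ, ev3 q v = 0) ↔ ∀ i : Fin d,
      ∑ j : Fin d, ∑ k : Fin d, v (tau d i j k) * v (4 * j + 2) * v (4 * k + 3) =
        σ * v (4 * i + 1) ∧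
      ∑ j : Fin d, ∑ k : Fin d, v (tau d j i k) * v (4 * j + 1) * v (4 * k + 3) =
        σ * v (4 * i + 2) ∧
      ∑ j : Fin d, ∑ k : Fin d, v (tau d j k i) * v (4 * j + 1) * v (4 * k + 2) =
        σ * v (4 * i + 3) := by
  simp only [singEq, List.forall_mem_flatMap, List.forall_mem_cons, List.not_mem_nil,
    IsEmpty.forall_iff, implies_true, and_true, sing_aux d σ h0, List.mem_range]
  exact ⟨fun h i => h i i.2, fun h i hi => h ⟨i, hi⟩⟩

theorem back_iff {d : ℕ} (T : Fin d → Fin d → Fin d → ℚ) {σ : ℚ} (hσ : 0 < σ) :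
    (∃ v, Holds v (andF (backSys (listOf T, σ)))) ↔ IsSingularValue T σ := by
  have hs : shape (listOf T, σ) = true := (shape_iff _).2 ⟨⟨d, T, rfl⟩, hσ⟩
  have hl : (listOf T).length = d := by simp [listOf]
  simp only [holds_andF, backSys, hs, hl, List.forall_mem_cons, List.forall_mem_append]
  constructor
  · rintro ⟨v, h0, -, h1, h2, h3, h4, h5⟩
    rw [unitEq_iff _ _ h0] at h1 h2 h3
    rw [entries_iff T h0] at h4
    rw [singEq_iff _ _ h0] at h5
    simp only [h4] at h5
    exact ⟨_, _, _, h1, h2, h3, fun i => (h5 i).1, fun i => (h5 i).2.1, fun i => (h5 i).2.2⟩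
  · rintro ⟨X, Y, Z, h1, h2, h3, h4, h5, h6⟩
    let Tf : ℕ → ℕ → ℕ → ℝ := fun i j k =>
      if h : i < d ∧ j < d ∧ k < d then (T ⟨i, h.1⟩ ⟨j, h.2.1⟩ ⟨k, h.2.2⟩ : ℝ) else 0
    let v : ℕ → ℝ := fun n => if n = 0 then 1 else if n % 4 = 1 then ext X (n / 4)
      else if n % 4 = 2 then ext Y (n / 4) else if n % 4 = 3 then ext Z (n / 4)
      else Tf ((n / 4 - 1) / d / d) ((n / 4 - 1) / d % d) ((n / 4 - 1) % d)
    have h0 : v 0 = 1 := by simp [v]
    have vx : ∀ i : Fin d, v (4 * i + 1) = X i := by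
      intro i
      simp only [v]
      rw [if_neg (by omega), if_pos (by omega), show (4 * (i : ℕ) + 1) / 4 = i by omega, ext_val]
    have vy : ∀ i : Fin d, v (4 * i + 2) = Y i := by
      intro i
      simp only [v]
      rw [if_neg (by omega), if_neg (by omega), if_pos (by omega),
        show (4 * (i : ℕ) + 2) / 4 = i by omega, ext_val]
    have vz : ∀ i : Fin d, v (4 * i + 3) = Z i := by
      intro i
      simp only [v]
      rw [if_neg (by omega), if_neg (by omega), if_neg (by omega), if_pos (by omega),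
        show (4 * (i : ℕ) + 3) / 4 = i by omega, ext_val]
    have vt : ∀ i j k : Fin d, v (tau d i j k) = T i j k := by
      intro i j k
      have hd : 0 < d := i.pos
      have e : ∀ (a : ℕ) (b : Fin d), (a * d + b) / d = a ∧ (a * d + b) % d = b := by
        intro a b
        rw [mul_comm, Nat.mul_add_div hd, Nat.mul_add_mod, Nat.div_eq_of_lt b.2,
          Nat.mod_eq_of_lt b.2]
        exact ⟨rfl, rfl⟩
      simp only [v, tau]
      generalize hm : ((i : ℕ) * d + j) * d + k = m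
      rw [if_neg (by omega), if_neg (by omega), if_neg (by omega), if_neg (by omega),
        show (4 * m + 4) / 4 - 1 = m by omega, ← hm, (e _ k).1, (e _ k).2, (e _ j).1, (e _ j).2]
      simp [Tf]
    refine ⟨v, h0, rfl, ?_, ?_, ?_, ?_, ?_⟩
    · rw [unitEq_iff _ _ h0]; simp only [vx, h1]
    · rw [unitEq_iff _ _ h0]; simp only [vy, h2]
    · rw [unitEq_iff _ _ h0]; simp only [vz, h3]
    · rw [entries_iff T h0]; exact vt
    · rw [singEq_iff _ _ h0]
      simp only [vx, vy, vz, vt]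
      exact fun i => ⟨h4 i, h5 i, h6 i⟩

theorem formulaCode_sat (φ : Formula) :
    ETR (bitEncode (formulaCode φ)) = true ↔ ∃ x, Holds x φ := by
  classical
  rw [etr_enc]
  refine ⟨?_, fun h => ⟨φ, rfl, h⟩⟩
  rintro ⟨ψ, e, x, hx⟩
  have h1 := v_formula (fun t => x t.2.toNat) x φ (fun k _ => by simp) []
  have h2 := v_formula (fun t => x t.2.toNat) x ψ (fun k _ => by simp) []
  rw [e, h2, if_pos hx] at h1
  refine ⟨x, ?_⟩
  by_contra hc
  simp [hc] at h1

theorem tsv_le_etr : N793a5b8e.ManyOneReducible TSV ETR := by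
  refine manyOne_of_PT (Chk.rat.list.list.list.prod Chk.rat) (PT.comp code_PT backSys_PT)
    (formulaCode (.lt (.const 0) (.const 0))) ?_ ?_ ?_
  · rw [Bool.eq_false_iff, Ne, formulaCode_sat]
    simp [Holds]
  · intro s hs
    simp only [TSV, decide_eq_true_eq] at hs
    obtain ⟨d, T, σ, h, -⟩ := hs
    exact ⟨_, h.symm⟩
  · rintro ⟨L, σ⟩
    rw [Bool.eq_iff_iff, formulaCode_sat]
    by_cases hs : shape (L, σ) = true
    · obtain ⟨⟨d, T, h⟩, hσ⟩ := (shape_iff _).1 hs
      simp only at h hσ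
      subst h
      rw [tsv_enc, back_iff T hσ, and_iff_right hσ]
    · constructor
      · intro h
        simp only [TSV, decide_eq_true_eq] at h
        obtain ⟨d, T, σ', h, h', -⟩ := h
        obtain ⟨h1, h2⟩ := Prod.mk.inj (bitEncode_injective h)
        exact absurd ((shape_iff _).2 ⟨⟨d, T, h1⟩, h2 ▸ h'⟩) hs
      · rintro ⟨v, hv⟩
        simp only [holds_andF, backSys, List.forall_mem_cons] at hv
        obtain ⟨h0, h1, -⟩ := hv
        simp [hs, ev3, h0] at h1

end Pool.Agent.Lib.MP_acf5a6_lc
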