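import Pool.Agent.Lib.MP_acf5a6_lc.Arith

/-!
Polynomial-time recognition of well-formed encodings.
-/

set_option autoImplicit false
set_option linter.unusedSectionVars false

namespace Pool.Agent.Lib.MP_acf5a6_lc

open Function N487b59b3

namespace PT

variable {α β γ : Type} [N487b59b3 α] [N487b59b3 β] [N487b59b3 γ]

@[fun_prop] theorem natMod {f g : α → ℕ} (hf : PT f) (hg : PT g) : PT (fun a => f a % g a) := by
  have h1 := foldlA
    (g := fun a (r : ℕ) (b : Bool) => if g a ≤ Nat.bit b r then Nat.bit b r - g a else Nat.bit b r)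
    (h := fun _ => 0) (l := fun a => (f a).bits.reverse) (by fun_prop) (const _) (by fun_prop)
    (PB.const 1) (fun a c b => by
      have h2 := sz_bit b c
      have h3 := sz_nat_mono (Nat.sub_le (Nat.bit b c) (g a))
      split_ifs <;> omega)
  refine h1.of_eq (fun a => ?_)
  rw [List.foldl_reverse]
  induction f a using Nat.binaryRec' with
  | zero => simp
  | bit b n hn ih =>
    rw [Nat.bits_append_bit n b hn, List.foldr_cons, ih]
    rcases Nat.eq_zero_or_pos (g a) with h0 | h0
    · simp [h0]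
    · have h1 := Nat.mod_lt n h0
      have h2 : Nat.bit b n % g a = Nat.bit b (n % g a) % g a := by
        simp only [Nat.bit_val]
        rw [Nat.add_mod, Nat.mul_mod, Nat.add_mod (2 * (n % g a)), Nat.mul_mod 2 (n % g a),
          Nat.mod_mod]
      have h3 : Nat.bit b (n % g a) < 2 * g a := by
        rw [Nat.bit_val]; cases b <;> simp <;> omega
      rw [h2]
      generalize Nat.bit b (n % g a) = t at h3
      split_ifs with h
      · rw [Nat.mod_eq_sub_mod h, Nat.mod_eq_of_lt (by omega)]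
      · rw [Nat.mod_eq_of_lt (by omega)]

end PT

/-- One step of the Euclidean algorithm. -/
def gcdStep (x : ℕ × ℕ) : ℕ × ℕ := if x.1 = 0 then x else (x.2 % x.1, x.1)

theorem gcdStep_zero (b n : ℕ) : gcdStep^[n] (0, b) = (0, b) :=
  Function.iterate_fixed (by simp [gcdStep]) n

theorem gcdStep_iter (k : ℕ) : ∀ a b n : ℕ, a < 2 ^ k → 2 * k ≤ n →
    gcdStep^[n] (a, b) = (0, Nat.gcd a b) := by
  induction k with
  | zero =>
    intro a b n ha _
    have : a = 0 := by simpa using ha
    subst this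
    simp [gcdStep_zero]
  | succ k ih =>
    intro a b n ha hn
    obtain ⟨m, rfl⟩ : ∃ m, n = m + 2 := ⟨n - 2, by omega⟩
    by_cases h0 : a = 0
    · subst h0; simp [gcdStep_zero]
    have e1 : gcdStep (a, b) = (b % a, a) := by simp [gcdStep, h0]
    rw [Function.iterate_succ_apply, e1, Nat.gcd_rec a b]
    by_cases h1 : b % a = 0
    · rw [h1]; simp [gcdStep_zero]
    have e2 : gcdStep (b % a, a) = (a % (b % a), b % a) := by simp [gcdStep, h1]
    rw [Function.iterate_succ_apply, e2, Nat.gcd_rec (b % a) a]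
    refine ih _ _ _ ?_ (by omega)
    have h2 : b % a < a := Nat.mod_lt _ (by omega)
    have h3 : a % (b % a) < b % a := Nat.mod_lt _ (by omega)
    have h4 : a % (b % a) ≤ a - b % a := by
      rw [Nat.mod_eq_sub_mod h2.le]; exact Nat.mod_le _ _
    rw [pow_succ] at ha
    omega

theorem gcdStep_le (M n : ℕ) : ∀ x : ℕ × ℕ, x.1 ≤ M → x.2 ≤ M →
    (gcdStep^[n] x).1 ≤ M ∧ (gcdStep^[n] x).2 ≤ M := by
  induction n with
  | zero => intro x h1 h2; exact ⟨h1, h2⟩
  | succ n ih =>
    intro x h1 h2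
    rw [Function.iterate_succ_apply]
    refine ih _ ?_ ?_ <;> unfold gcdStep <;> split_ifs
    · exact h1
    · exact (Nat.mod_le _ _).trans h2
    · exact h2
    · exact h1

namespace PT

variable {α β γ : Type} [N487b59b3 α] [N487b59b3 β] [N487b59b3 γ]

@[fun_prop] theorem natGcd {f g : α → ℕ} (hf : PT f) (hg : PT g) :
    PT (fun a => Nat.gcd (f a) (g a)) := by
  have h1 := iter (g := gcdStep) (h := fun a => (f a, g a)) (c := fun a => (f a, g a))
    (by unfold gcdStep; fun_prop) (by fun_prop) (by fun_prop)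
    (B := fun a => 3 * sz (f a + g a) + 1)
    (((PB.const 3).mul (PB.of_PT (by fun_prop))).add (PB.const 1)) (fun a i _ => by
      obtain ⟨h1, h2⟩ := gcdStep_le (f a + g a) i (f a, g a) (by simp) (by simp)
      have h3 := sz_nat_mono h1
      have h4 := sz_nat_mono h2
      have := sz_pair (gcdStep^[i] (f a, g a)).1 (gcdStep^[i] (f a, g a)).2
      simp only [Prod.mk.eta] at this
      omega)
  exact (snd h1).of_eq (fun a => by
    rw [gcdStep_iter (sz (f a)) _ _ _ (lt_two_pow_sz _) (by simp; omega)])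

theorem rawFst {f : α → Raw} (hf : PT f) : PT (fun a => Raw.mk (sfst (f a).s)) := Comp.sfst' hf

theorem rawSnd {f : α → Raw} (hf : PT f) : PT (fun a => Raw.mk (ssnd (f a).s)) := Comp.ssnd' hf

end PT

/-- The well-formed encodings of `α` are recognised in polynomial time. -/
def Chk (α : Type) [N487b59b3 α] : Prop :=
  ∃ c : Raw → Bool, PT c ∧ ∀ r, c r = true ↔ ∃ a : α, bitEncode a = r.s

theorem length_sfst_ssnd : ∀ x : List Bool, (ssnd x).length + 2 * (sfst x).length ≤ x.length
  | [] => by simp [ssnd, sfst]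
  | [true] => by simp [ssnd, sfst]
  | false :: l => by simp [ssnd, sfst]
  | true :: b :: l => by have := length_sfst_ssnd l; simp [ssnd, sfst]; omega

namespace Chk

variable {α β γ : Type} [N487b59b3 α] [N487b59b3 β] [N487b59b3 γ]

theorem parse (h : Chk β) {g : β → γ} (hg : PT g) (d : γ) :
    ∃ F : Raw → γ, PT F ∧ (∀ b, F (toRaw b) = g b) ∧
      ∀ r, (¬ ∃ b : β, bitEncode b = r.s) → F r = d := by
  classical
  obtain ⟨c, hc, hc'⟩ := h
  refine ⟨fun r => if h : ∃ b : β, bitEncode b = r.s then g h.choose else d, ?_, ?_, ?_⟩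
  · refine Comp.case hc ?_ ?_ ?_
    · refine (Comp.const _ []).of_eq (fun a => ?_)
      have := a.2
      simp [enc_bool] at this
    · refine (Comp.const _ (bitEncode d)).of_eq (fun a => ?_)
      have h1 := a.2
      simp only [enc_bool, List.head?_cons, Option.some.injEq] at h1
      have h2 : ¬ ∃ b : β, bitEncode b = a.1.s := by rw [← hc', h1]; simp
      simp only [dif_neg h2]
    · have h2 : ∀ a : {a : Raw // (bitEncode (c a)).head? = some true},
          ∃ b : β, bitEncode b = a.1.s := by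
        intro a
        have h1 := a.2
        simp only [enc_bool, List.head?_cons, Option.some.injEq] at h1
        exact (hc' _).1 h1
      refine Comp.pull hg (fun a => (h2 a).choose) (fun a => (h2 a).choose_spec) (fun a => ?_)
      simp only [dif_pos (h2 a)]
  · intro b
    have h1 : ∃ b' : β, bitEncode b' = (toRaw b).s := ⟨b, rfl⟩
    simp only [dif_pos h1]
    rw [bitEncode_injective h1.choose_spec]
  · intro r hr
    simp only [dif_neg hr]

theorem nat : Chk ℕ := by
  refine ⟨fun r => decide ((r.s.reverse.foldl (fun n b => Nat.bit b n) 0).bits = r.s),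
    PT.decide_eq (PT.bits (PT.ofBitsM (by fun_prop))) (by fun_prop), fun r => ?_⟩
  simp only [decide_eq_true_eq, enc_nat]
  refine ⟨fun h => ⟨_, h⟩, ?_⟩
  rintro ⟨n, hn⟩
  rw [← hn]
  congr 1
  rw [List.foldl_reverse]
  clear hn
  induction n using Nat.binaryRec' with
  | zero => simp
  | bit b n hn ih => rw [Nat.bits_append_bit n b hn, List.foldr_cons, ih]

theorem prod (h₁ : Chk α) (h₂ : Chk β) : Chk (α × β) := by
  obtain ⟨c₁, hc₁, hc₁'⟩ := h₁
  obtain ⟨c₂, hc₂, hc₂'⟩ := h₂
  have e1 : PT (fun r : Raw => Raw.mk (sfst r.s)) := PT.rawFst PT.id'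
  have e2 : PT (fun r : Raw => Raw.mk (ssnd r.s)) := PT.rawSnd PT.id'
  refine ⟨fun r => decide ((toRaw (Raw.mk (sfst r.s), Raw.mk (ssnd r.s))).s = r.s) &&
    c₁ ⟨sfst r.s⟩ && c₂ ⟨ssnd r.s⟩,
    PT.and' (PT.and' (PT.decide_eq (PT.rawBits (PT.toRaw' (PT.prodMk e1 e2))) (by fun_prop))
      (PT.comp hc₁ e1)) (PT.comp hc₂ e2), fun r => ?_⟩
  simp only [Bool.and_eq_true, decide_eq_true_eq, hc₁', hc₂', toRaw, enc_pair, enc_raw]
  constructor
  · rintro ⟨⟨h, a, ha⟩, b, hb⟩
    exact ⟨(a, b), by rw [enc_pair, ha, hb, h]⟩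
  · rintro ⟨⟨a, b⟩, h⟩
    rw [← h, enc_pair]
    simp

theorem list (h₁ : Chk α) : Chk (List α) := by
  obtain ⟨c₁, hc₁, hc₁'⟩ := h₁
  let G : Raw × List Raw → Raw × List Raw := fun x =>
    cond x.1.s.isEmpty x (⟨ssnd x.1.s⟩, x.2 ++ [⟨sfst x.1.s⟩])
  have hG : PT G := PT.cond' (by fun_prop) PT.id'
    (PT.prodMk (PT.rawSnd (by fun_prop))
      (PT.append (by fun_prop) (PT.cons (PT.rawFst (by fun_prop)) (PT.const _))))
  have h1 := PT.iterA (g := fun _ : Raw => G) (h := fun a => (a, [])) (c := fun a => a)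
    (PT.comp hG (by fun_prop)) (by fun_prop) PT.id' (PB.const 1) (fun a x => by
      obtain ⟨⟨l⟩, c⟩ := x
      have := length_sfst_ssnd l
      cases h : l.isEmpty <;> simp [G, h]; omega)
  have key : ∀ (l : List α) (n : ℕ) (acc : List Raw), l.length ≤ n →
      G^[n] (toRaw l, acc) = (⟨[]⟩, acc ++ l.map toRaw) := by
    intro l
    induction l with
    | nil =>
      intro n acc _
      rw [List.map_nil, List.append_nil]
      exact Function.iterate_fixed (f := G) (x := (⟨[]⟩, acc)) rfl n
    | cons a l ih =>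
      intro n acc hn
      obtain ⟨m, rfl⟩ : ∃ m, n = m + 1 := ⟨n - 1, by simp at hn; omega⟩
      have e : G (toRaw (a :: l), acc) = (toRaw l, acc ++ [toRaw a]) := by
        have : (delimit (bitEncode a) ++ bitEncode l).isEmpty = false := by
          cases bitEncode a <;> simp [delimit]
        simp only [G, toRaw, enc_cons, this, cond_false, sfst_delimit, ssnd_delimit]
      rw [Function.iterate_succ_apply, e, ih _ _ (by simpa using hn)]
      simp
  have henc : ∀ l : List α, bitEncode (l.map toRaw) = bitEncode l := by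
    intro l
    induction l with
    | nil => rfl
    | cons a l ih => rw [List.map_cons, enc_cons, enc_cons, ih]; rfl
  refine ⟨fun r => decide ((toRaw (G^[sz r] (r, [])).2).s = r.s) && (G^[sz r] (r, [])).2.all c₁,
    PT.and' (PT.decide_eq (PT.rawBits (PT.toRaw' (PT.snd h1))) (by fun_prop))
      (PT.all (f := fun _ => c₁) (PT.comp hc₁ (by fun_prop)) (PT.snd h1)), fun r => ?_⟩
  simp only [Bool.and_eq_true, decide_eq_true_eq, List.all_eq_true, hc₁']
  constructor
  · rintro ⟨h, h'⟩
    rw [← h]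
    generalize (G^[sz r] (r, [])).2 = m at h'
    induction m with
    | nil => exact ⟨[], rfl⟩
    | cons b m ih =>
      obtain ⟨l, hl⟩ := ih (fun x hx => h' x (List.mem_cons_of_mem _ hx))
      obtain ⟨a, ha⟩ := h' b List.mem_cons_self
      exact ⟨a :: l, by rw [enc_cons, ha, hl]; rfl⟩
  · rintro ⟨l, hl⟩
    have e : r = toRaw l := by cases r; simp only [toRaw]; congr 1; exact hl.symm
    subst e
    rw [key l (sz (toRaw l)) [] (length_le_sz l)]
    refine ⟨by simp [toRaw, henc], ?_⟩
    intro x hx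
    obtain ⟨a, _, rfl⟩ := List.mem_map.1 (by simpa using hx : x ∈ l.map toRaw)
    exact ⟨a, rfl⟩

theorem image (h : Chk β) (f : α → β) (hf : ∀ a, bitEncode a = bitEncode (f a))
    {p : β → Bool} (hp : PT p) (H : ∀ b, p b = true ↔ ∃ a, f a = b) : Chk α := by
  obtain ⟨F, hF, h1, h2⟩ := h.parse hp false
  refine ⟨F, hF, fun r => ?_⟩
  by_cases hr : ∃ b : β, bitEncode b = r.s
  · obtain ⟨b, hb⟩ := hr
    have e : r = toRaw b := by cases r; simp only [toRaw]; congr 1; exact hb.symm
    subst e
    rw [h1, H]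
    constructor
    · rintro ⟨a, rfl⟩; exact ⟨a, hf a⟩
    · rintro ⟨a, ha⟩; exact ⟨a, bitEncode_injective ((hf a).symm.trans ha)⟩
  · rw [h2 r hr]
    simp only [Bool.false_eq_true, false_iff]
    rintro ⟨a, ha⟩
    exact hr ⟨f a, (hf a).symm.trans ha⟩

theorem int : Chk ℤ :=
  image (nat.prod nat) (fun n : ℤ => (n.toNat, (-n).toNat)) (fun _ => rfl)
    (p := fun b => decide (b.1 = 0) || decide (b.2 = 0)) (by fun_prop) (fun b => by
      obtain ⟨x, y⟩ := b
      simp only [Bool.or_eq_true, decide_eq_true_eq, Prod.mk.injEq]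
      constructor
      · intro h; exact ⟨(x : ℤ) - y, by omega, by omega⟩
      · rintro ⟨a, h1, h2⟩; omega)

theorem rat : Chk ℚ :=
  image (int.prod nat) (fun q : ℚ => (q.num, q.den)) (fun _ => rfl)
    (p := fun b => !decide (b.2 = 0) && decide (Nat.gcd b.1.natAbs b.2 = 1)) (by fun_prop)
    (fun b => by
      obtain ⟨x, y⟩ := b
      simp only [Bool.and_eq_true, Bool.not_eq_true', decide_eq_false_iff_not, decide_eq_true_eq,
        Prod.mk.injEq]
      constructor
      · rintro ⟨h1, h2⟩; exact ⟨⟨x, y, h1, h2⟩, rfl, rfl⟩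
      · rintro ⟨q, rfl, rfl⟩; exact ⟨q.den_nz, q.reduced⟩)

end Chk

/-- A polynomial-time map between instance types gives a many-one reduction between languages. -/
theorem manyOne_of_PT {α β : Type} [N487b59b3 α] [N487b59b3 β] (hα : Chk α)
    {A B : N68a2faeb.DecisionProblem} {f : α → β} (hf : PT f) (d : β)
    (hd : B (bitEncode d) = false) (hA : ∀ s, A s = true → ∃ a : α, bitEncode a = s)
    (H : ∀ a : α, A (bitEncode a) = B (bitEncode (f a))) :
    N793a5b8e.ManyOneReducible A B := by
  obtain ⟨F, hF, h1, h2⟩ := hα.parse hf d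
  refine ⟨fun s => (toRaw (F ⟨s⟩)).s, 
    PT.isPolyTime (PT.rawBits (PT.toRaw' (PT.comp hF (PT.rawMk PT.id')))), fun s => ?_⟩
  by_cases hs : ∃ a : α, bitEncode a = s
  · obtain ⟨a, rfl⟩ := hs
    have := h1 a
    simp only [toRaw] at this ⊢
    rw [this, H]
  · have := h2 ⟨s⟩ hs
    simp only [toRaw]
    rw [this, hd]
    by_contra h
    exact hs (hA s (by simpa using h))

end Pool.Agent.Lib.MP_acf5a6_lc
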