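import Pool.Agent.Lib.MP_acf5a6_lc.Ball

/-!
Systems of quadratic equations: from affine solutions to projective solutions to unit solutions
of bilinear systems.
-/

set_option autoImplicit false

namespace Pool.Agent.Lib.MP_acf5a6_lc

open Finset

/-- A sparse bilinear form: a list of triples `(coefficient, i, j)`. -/
abbrev QF : Type := List (ℤ × ℕ × ℕ)

/-- Evaluation of a sparse bilinear form. -/
def ev (q : QF) (x y : ℕ → ℝ) : ℝ := (q.map fun t => (t.1 : ℝ) * x t.2.1 * y t.2.2).sum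

@[simp] theorem ev_nil (x y : ℕ → ℝ) : ev [] x y = 0 := rfl

@[simp] theorem ev_cons (t : ℤ × ℕ × ℕ) (q : QF) (x y : ℕ → ℝ) :
    ev (t :: q) x y = (t.1 : ℝ) * x t.2.1 * y t.2.2 + ev q x y := by simp [ev]

/-- All indices are below `n`. -/
def Bdd (n : ℕ) (E : List QF) : Prop := ∀ q ∈ E, ∀ t ∈ q, t.2.1 < n ∧ t.2.2 < n

theorem ev_congr {q : QF} {x y x' y' : ℕ → ℝ}
    (h : ∀ t ∈ q, x t.2.1 = x' t.2.1 ∧ y t.2.2 = y' t.2.2) : ev q x y = ev q x' y' := by
  induction q with
  | nil => rfl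
  | cons t q ih =>
    rw [ev_cons, ev_cons, ih (fun s hs => h s (List.mem_cons_of_mem _ hs)),
      (h t List.mem_cons_self).1, (h t List.mem_cons_self).2]

theorem ev_smul (q : QF) (x y : ℕ → ℝ) (a b : ℝ) :
    ev q (fun i => a * x i) (fun i => b * y i) = a * b * ev q x y := by
  induction q with
  | nil => simp
  | cons t q ih => rw [ev_cons, ev_cons, ih]; ring

theorem ev_diag (n : ℕ) (x : ℕ → ℝ) :
    ev ((List.range n).map fun i => ((1 : ℤ), i, i)) x x = ∑ i ∈ range n, x i ^ 2 := by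
  induction n with
  | zero => simp
  | succ n ih =>
    rw [sum_range_succ, ← ih, List.range_succ]
    simp [ev, sq]

/-- Solvability with `v 0 = 1`. -/
def Aff (E : List QF) : Prop := ∃ v : ℕ → ℝ, v 0 = 1 ∧ ∀ q ∈ E, ev q v v = 0

/-- Solvability with a nonzero vector. -/
def Proj (n : ℕ) (E : List QF) : Prop :=
  ∃ v : ℕ → ℝ, (∃ i < n, v i ≠ 0) ∧ ∀ q ∈ E, ev q v v = 0

/-- Solvability of the bilinear system with two unit vectors. -/
def Bil (n : ℕ) (E : List QF) : Prop :=
  ∃ x y : ℕ → ℝ, ∑ i ∈ range n, x i ^ 2 = 1 ∧ ∑ i ∈ range n, y i ^ 2 = 1 ∧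
    ∀ q ∈ E, ev q x y = 0

/-- Extension by zero. -/
def ext {n : ℕ} (x : Fin n → ℝ) (i : ℕ) : ℝ := if h : i < n then x ⟨i, h⟩ else 0

@[simp] theorem ext_val {n : ℕ} (x : Fin n → ℝ) (i : Fin n) : ext x i = x i := by simp [ext]

theorem rep_ext {n : ℕ} (i : ℕ) : Rep 1 (fun x : Fin n → ℝ => ext x i) 1 := by
  by_cases h : i < n
  · simpa [ext, h] using Rep.coord (⟨i, h⟩ : Fin n)
  · simpa [ext, h] using Rep.zero 1

/-- Sum of the absolute values of the coefficients. -/
def nrm (q : QF) : ℕ := (q.map fun t => t.1.natAbs).sum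

theorem rep_ev {n : ℕ} (q : QF) : Rep 2 (fun x : Fin n → ℝ => ev q (ext x) (ext x)) (nrm q) := by
  induction q with
  | nil => simpa using Rep.zero _
  | cons t q ih =>
    simpa [nrm] using (((Rep.const t.1).mul (rep_ext t.2.1)).mul (rep_ext t.2.2)).add' ih

theorem rep_sq {n : ℕ} (E : List QF) :
    Rep 4 (fun x : Fin n → ℝ => (E.map fun q => ev q (ext x) (ext x) ^ 2).sum)
      (E.map fun q => nrm q * nrm q).sum := by
  induction E with
  | nil => simpa using Rep.zero _
  | cons q E ih => simpa [sq] using ((rep_ev q).mul (rep_ev q)).add' ih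

/-- The height bound used in the ball theorem. -/
def hgt (E : List QF) : ℕ := 4 * (4 + (E.map fun q => nrm q * nrm q).sum) + 2

theorem sum_sq_eq_zero (E : List QF) (f : QF → ℝ) :
    (E.map fun q => f q ^ 2).sum = 0 ↔ ∀ q ∈ E, f q = 0 := by
  induction E with
  | nil => simp
  | cons q E ih =>
    have h : 0 ≤ (E.map fun q => f q ^ 2).sum :=
      List.sum_nonneg (by simp only [List.mem_map]; rintro _ ⟨q, _, rfl⟩; positivity)
    rw [List.map_cons, List.sum_cons, add_eq_zero_iff_of_nonneg (by positivity) h, ih]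
    simp

theorem aff_ball {n b : ℕ} {E : List QF} (hn : 0 < n) (hE : Bdd n E) (h : Aff E)
    (hb : hgt E ≤ 2 ^ b) : ∃ v : ℕ → ℝ, v 0 = 1 ∧ (∀ q ∈ E, ev q v v = 0) ∧
      ∑ i ∈ range n, v i ^ 2 ≤ ((2 : ℝ) ^ 2 ^ (n + 2 * (n * (4 * n + 1)) + b + 1)) ^ 2 := by
  obtain ⟨v, hv0, hv⟩ := h
  have h1 : Rep 1 (fun x : Fin n → ℝ => ext x 0 - 1) 2 := by
    simpa [sub_eq_add_neg] using (rep_ext 0).add' ((Rep.const (-1)).mono (by norm_num) le_rfl)
  have hF := ((h1.mul h1).mono (show 1 + 1 ≤ 4 by norm_num) le_rfl).add' (rep_sq E)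
  have hpos : ∀ x : Fin n → ℝ, 0 ≤ (E.map fun q => ev q (ext x) (ext x) ^ 2).sum := fun x =>
    List.sum_nonneg (by simp only [List.mem_map]; rintro _ ⟨q, _, rfl⟩; positivity)
  obtain ⟨x, hx, hx'⟩ := ball' hF (fun x => add_nonneg (mul_self_nonneg _) (hpos x))
    (x₀ := fun i => v i) (by
      have e : ∀ i < n, ext (fun i : Fin n => v i) i = v i := fun i hi => by simp [ext, hi]
      rw [e 0 hn, hv0, (sum_sq_eq_zero E _).2]
      · simp
      · intro q hq
        rw [← hv q hq]
        exact ev_congr (fun t ht => ⟨e _ (hE q hq t ht).1, e _ (hE q hq t ht).2⟩)) hb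
  rw [add_eq_zero_iff_of_nonneg (mul_self_nonneg _) (hpos x), sum_sq_eq_zero,
    mul_self_eq_zero, sub_eq_zero] at hx
  refine ⟨ext x, hx.1, hx.2, ?_⟩
  rw [← Fin.sum_univ_eq_sum_range (fun i => ext x i ^ 2)]
  simpa using hx'

/-- The homogenised system. -/
def hom (n K : ℕ) (E : List QF) : List QF :=
  [(2, n + 2, n), (-1, n, n)] ::
  [(1, n + 2 + K, n + 2 + K), (-2, n + 2 + K, 0), (1, 0, 0)] ::
  ((1, n + 1, n + 1) :: (-1, n, n) :: (List.range n).map fun i => (1, i, i)) ::
  (((List.range K).map fun j => [(1, n + 2 + j + 1, n), (-1, n + 2 + j, n + 2 + j)]) ++ E)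

theorem hom_bdd {n K : ℕ} {E : List QF} (hE : Bdd n E) : Bdd (n + K + 3) (hom n K E) := by
  intro q hq t ht
  simp only [hom, List.mem_cons, List.mem_append, List.mem_map, List.mem_range] at hq
  rcases hq with rfl | rfl | rfl | ⟨j, hj, rfl⟩ | hq
  · simp only [List.mem_cons, List.not_mem_nil, or_false] at ht
    rcases ht with rfl | rfl <;> simp only <;> omega
  · simp only [List.mem_cons, List.not_mem_nil, or_false] at ht
    rcases ht with rfl | rfl | rfl <;> simp only <;> omega
  · simp only [List.mem_cons, List.mem_map, List.mem_range] at ht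
    rcases ht with rfl | rfl | ⟨i, hi, rfl⟩ <;> simp only <;> omega
  · simp only [List.mem_cons, List.not_mem_nil, or_false] at ht
    rcases ht with rfl | rfl <;> simp only <;> omega
  · have := hE q hq t ht; omega

theorem hom_iff (n K : ℕ) (E : List QF) (w : ℕ → ℝ) : (∀ q ∈ hom n K E, ev q w w = 0) ↔
    2 * w (n + 2) * w n = w n ^ 2 ∧ w (n + 2 + K) = w 0 ∧
    w (n + 1) ^ 2 + ∑ i ∈ range n, w i ^ 2 = w n ^ 2 ∧
    (∀ j < K, w (n + 2 + j + 1) * w n = w (n + 2 + j) ^ 2) ∧ ∀ q ∈ E, ev q w w = 0 := by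
  simp only [hom, List.forall_mem_cons, List.forall_mem_append, List.forall_mem_map,
    List.mem_range, ev_cons, ev_nil, ev_diag]
  push_cast
  refine and_congr ⟨fun h => by linarith, fun h => by linarith⟩ (and_congr ⟨fun h => ?_, fun h => ?_⟩
    (and_congr ⟨fun h => by linarith, fun h => by linarith⟩ (and_congr_left' ?_)))
  · have : (w (n + 2 + K) - w 0) ^ 2 = 0 := by linarith
    exact sub_eq_zero.1 (pow_eq_zero_iff (by norm_num) |>.1 this)
  · rw [h]; ring
  · exact forall₂_congr (fun j _ => ⟨fun h => by linarith, fun h => by linarith⟩)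

theorem aff_iff_proj {n b : ℕ} {E : List QF} (hn : 0 < n) (hE : Bdd n E) (hb : hgt E ≤ 2 ^ b)
    {K : ℕ} (hK : K = n + 2 * (n * (4 * n + 1)) + b + 1) :
    Aff E ↔ Proj (n + K + 3) (hom n K E) := by
  constructor
  · intro h
    obtain ⟨v, hv0, hv, hv'⟩ := aff_ball hn hE h hb
    rw [← hK] at hv'
    set G : ℝ := 2 ^ 2 ^ K with hG
    let w : ℕ → ℝ := fun i => if i < n then v i else if i = n then G else
      if i = n + 1 then √(G ^ 2 - ∑ i ∈ range n, v i ^ 2) else G / 2 ^ 2 ^ (i - (n + 2))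
    have w1 : ∀ i < n, w i = v i := fun i hi => by simp [w, hi]
    have w2 : w n = G := by simp [w]
    have w3 : w (n + 1) = √(G ^ 2 - ∑ i ∈ range n, v i ^ 2) := by simp [w]
    have w4 : ∀ j, w (n + 2 + j) = G / 2 ^ 2 ^ j := fun j => by
      simp only [w]
      rw [if_neg (by omega), if_neg (by omega), if_neg (by omega), Nat.add_sub_cancel_left]
    refine ⟨w, ⟨0, by omega, by rw [w1 0 hn, hv0]; norm_num⟩, (hom_iff _ _ _ _).2
      ⟨?_, ?_, ?_, fun j _ => ?_, fun q hq => ?_⟩⟩
    · rw [w2, ← add_zero (n + 2), w4]; ring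
    · rw [w4, w1 0 hn, hv0, ← hG, div_self (by positivity)]
    · have e : ∑ i ∈ range n, w i ^ 2 = ∑ i ∈ range n, v i ^ 2 :=
        sum_congr rfl (fun i hi => by rw [w1 i (mem_range.1 hi)])
      rw [w2, w3, Real.sq_sqrt (by linarith), e]
      ring
    · rw [add_assoc (n + 2), w4, w4, w2, pow_succ 2 j, pow_mul]
      field_simp
    · rw [← hv q hq]
      exact ev_congr (fun t ht => ⟨w1 _ (hE q hq t ht).1, w1 _ (hE q hq t ht).2⟩)
  · rintro ⟨w, ⟨i, hi, hi'⟩, hw⟩
    obtain ⟨h1, h2, h3, h4, h5⟩ := (hom_iff _ _ _ _).1 hw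
    have hg : w n ≠ 0 := by
      intro hg
      have hs : 0 ≤ ∑ i ∈ range n, w i ^ 2 := by positivity
      rw [hg] at h3 h4
      have e1 : w (n + 1) = 0 := by nlinarith
      have e2 : ∀ i < n, w i = 0 := by
        intro i hi
        have := single_le_sum (f := fun i => w i ^ 2) (fun _ _ => by positivity) (mem_range.2 hi)
        nlinarith
      apply hi'
      rcases lt_trichotomy i n with h | h | h
      · exact e2 i h
      · rw [h, hg]
      · rcases eq_or_lt_of_le (show n + 1 ≤ i from h) with h | h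
        · rw [← h, e1]
        · obtain ⟨j, rfl⟩ : ∃ j, i = n + 2 + j := ⟨i - (n + 2), by omega⟩
          rcases eq_or_lt_of_le (show j ≤ K by omega) with h | h
          · rw [h, h2, e2 0 hn]
          · have := h4 j h
            rw [mul_zero] at this
            exact pow_eq_zero_iff (by norm_num) |>.1 this.symm
    have he : ∀ j ≤ K, w (n + 2 + j) ≠ 0 := by
      intro j
      induction j with
      | zero =>
        intro _ h0
        rw [add_zero] at h0
        rw [h0] at h1
        exact hg (pow_eq_zero_iff (n := 2) (by norm_num) |>.1 (by linarith))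
      | succ j ih =>
        intro hj h0
        have := h4 j (by omega)
        rw [add_assoc, h0, zero_mul] at this
        exact ih (by omega) (pow_eq_zero_iff (by norm_num) |>.1 this.symm)
    have h0 : w 0 ≠ 0 := by rw [← h2]; exact he K le_rfl
    exact ⟨fun i => (w 0)⁻¹ * w i, inv_mul_cancel₀ h0, fun q hq => by
      rw [ev_smul, h5 q hq, mul_zero]⟩

/-- The forms that force two vectors to be parallel. -/
def anti (n : ℕ) : List QF :=
  (List.range n).flatMap fun i => (List.range n).map fun j => [(1, i, j), (-1, j, i)]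

theorem anti_iff (n : ℕ) (x y : ℕ → ℝ) :
    (∀ q ∈ anti n, ev q x y = 0) ↔ ∀ i < n, ∀ j < n, x i * y j = x j * y i := by
  simp only [anti, List.mem_flatMap, List.mem_map, List.mem_range]
  constructor
  · intro h i hi j hj
    have := h _ ⟨i, hi, j, hj, rfl⟩
    simp at this; linarith
  · rintro h _ ⟨i, hi, j, hj, rfl⟩
    simp [h i hi j hj]

theorem anti_bdd {n : ℕ} {E : List QF} (hE : Bdd n E) : Bdd n (anti n ++ E) := by
  intro q hq t ht
  simp only [anti, List.mem_append, List.mem_flatMap, List.mem_map, List.mem_range] at hq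
  rcases hq with ⟨i, hi, j, hj, rfl⟩ | hq
  · simp only [List.mem_cons, List.not_mem_nil, or_false] at ht
    rcases ht with rfl | rfl <;> simp only <;> omega
  · exact hE q hq t ht

theorem proj_iff_bil {n : ℕ} {E : List QF} (hE : Bdd n E) : Proj n E ↔ Bil n (anti n ++ E) := by
  simp only [Bil, List.forall_mem_append, anti_iff]
  constructor
  · rintro ⟨v, ⟨i, hi, hi'⟩, hv⟩
    have h1 : 0 < ∑ i ∈ range n, v i ^ 2 :=
      lt_of_lt_of_le (by positivity)
        (single_le_sum (f := fun i => v i ^ 2) (fun _ _ => by positivity) (mem_range.2 hi))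
    have h2 : ∑ i ∈ range n, ((√(∑ i ∈ range n, v i ^ 2))⁻¹ * v i) ^ 2 = 1 := by
      simp only [mul_pow, ← mul_sum, inv_pow, Real.sq_sqrt h1.le]
      exact inv_mul_cancel₀ h1.ne'
    exact ⟨_, _, h2, h2, fun i _ j _ => mul_comm _ _, fun q hq => by
      rw [ev_smul, hv q hq, mul_zero]⟩
  · rintro ⟨x, y, hx, hy, h1, h2⟩
    have e : ∀ i < n, x i = (∑ j ∈ range n, x j * y j) * y i := by
      intro i hi
      rw [sum_mul, ← mul_one (x i), ← hy, mul_sum]
      refine sum_congr rfl (fun j hj => ?_)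
      have := h1 i hi j (mem_range.1 hj)
      rw [sq, ← mul_assoc, this]; ring
    refine ⟨x, ?_, fun q hq => ?_⟩
    · by_contra hc
      push Not at hc
      rw [sum_eq_zero (fun i hi => by rw [hc i (mem_range.1 hi)]; norm_num)] at hx
      norm_num at hx
    · have := ev_smul q x y 1 (∑ j ∈ range n, x j * y j)
      rw [h2 q hq, mul_zero] at this
      rw [← this]
      exact ev_congr (fun t ht => ⟨(one_mul _).symm, e _ (hE q hq t ht).2⟩)

end Pool.Agent.Lib.MP_acf5a6_lc
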