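import Pool.Agent.Lib.MP_acf5a6_lc.Parse
import Pool.Agent.Lib.MP_acf5a6_lc.Quad

/-!
Arithmetisation of formulas as systems of quadratic equations.
-/

set_option autoImplicit false

namespace Pool.Agent.Lib.MP_acf5a6_lc

/-- The equations attached to a symbol with value variable `b`, auxiliary variables
`b + 1, b + 2, b + 3`, argument variables `l, r` and input variable `x`. -/
def tmpl (t : ℕ × ℤ) (b x l r : ℕ) : List QF :=
  if t.1 = 0 then [[(1, b, 0), (-1, x, 0)]]
  else if t.1 = 1 then [[(1, b, 0), (-t.2, 0, 0)]]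
  else if t.1 = 2 then [[(1, b, 0), (-1, l, 0), (-1, r, 0)]]
  else if t.1 = 3 then [[(1, b, 0), (-1, l, r)]]
  else if t.1 = 4 then [[(1, l, b), (-1, r, b)],
    [(1, l, b + 1), (-1, r, b + 1), (-1, 0, 0), (1, b, 0)]]
  else if t.1 = 5 then [[(1, r, 0), (-1, l, 0), (-1, b + 2, b + 2), (1, b + 1, b + 1)],
    [(1, b + 1, b + 2)], [(1, b + 2, b + 3), (-1, b, 0)], [(1, b + 2, b), (-1, b + 2, 0)]]
  else if t.1 = 6 then [[(1, l, 0), (-1, r, 0), (-1, b + 2, b + 2), (1, b + 1, b + 1)],
    [(1, b + 1, b + 2)], [(1, b + 2, b + 3), (1, b, 0), (-1, 0, 0)], [(1, b + 2, b)]]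
  else if t.1 = 7 then [[(1, b, 0), (1, r, 0), (-1, 0, 0)]]
  else if t.1 = 8 then [[(1, b, 0), (-1, l, r)]]
  else [[(1, b, 0), (-1, l, 0), (-1, r, 0), (1, l, r)]]

theorem tmpl_idx (t : ℕ × ℤ) (b x l r : ℕ) (P : ℕ → Prop) (h0 : P 0) (hx : P x) (hl : P l)
    (hr : P r) (hb : P b) (h1 : P (b + 1)) (h2 : P (b + 2)) (h3 : P (b + 3)) :
    ∀ q ∈ tmpl t b x l r, ∀ s ∈ q, P s.2.1 ∧ P s.2.2 := by
  unfold tmpl
  split_ifs <;> simp only [List.forall_mem_cons, List.not_mem_nil, IsEmpty.forall_iff,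
    implies_true, and_true, h0, hx, hl, hr, hb, h1, h2, h3]

theorem lt_gadget {d u w z y : ℝ} (h1 : d = w * w - u * u) (h2 : u * w = 0) (h3 : w * z = y)
    (h4 : w * y = w) : y = if 0 < d then 1 else 0 := by
  split_ifs with h
  · have hw : w ≠ 0 := by
      rintro rfl
      nlinarith [mul_self_nonneg u]
    exact mul_left_cancel₀ hw (by rw [h4, mul_one])
  · have hw : w = 0 := by
      by_contra hw
      have hu : u = 0 := (mul_eq_zero.1 h2).resolve_right hw
      have := mul_self_pos.2 hw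
      rw [hu] at h1
      exact h (by linarith)
    rw [← h3, hw, zero_mul]

theorem tmpl_sound (t : ℕ × ℤ) (b x l r : ℕ) (v : ℕ → ℝ) (h0 : v 0 = 1)
    (h : ∀ q ∈ tmpl t b x l r, ev q v v = 0) : v b = sem t (v x) (v l) (v r) := by
  unfold tmpl at h
  unfold sem
  split_ifs at h with k0 k1 k2 k3 k4 k5 k6 k7 k8 <;>
    simp only [List.forall_mem_cons, List.not_mem_nil, IsEmpty.forall_iff, implies_true, and_true,
      ev_cons, ev_nil, h0] at h <;> push_cast at h
  · rw [if_pos k0]; linarith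
  · rw [if_neg k0, if_pos k1]; linarith
  · rw [if_neg k0, if_neg k1, if_pos k2]; linarith
  · rw [if_neg k0, if_neg k1, if_neg k2, if_pos k3]; linarith
  · rw [if_neg k0, if_neg k1, if_neg k2, if_neg k3, if_pos k4]
    obtain ⟨h1, h2⟩ := h
    split_ifs with e
    · rw [e] at h2; linarith
    · have : (v l - v r) * v b = 0 := by linarith
      exact (mul_eq_zero.1 this).resolve_left (sub_ne_zero.2 e)
  · rw [if_neg k0, if_neg k1, if_neg k2, if_neg k3, if_neg k4, if_pos k5]
    obtain ⟨h1, h2, h3, h4⟩ := h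
    have := lt_gadget (d := v r - v l) (u := v (b + 1)) (w := v (b + 2)) (z := v (b + 3))
      (y := v b) (by linarith) (by linarith) (by linarith) (by linarith)
    simpa using this
  · rw [if_neg k0, if_neg k1, if_neg k2, if_neg k3, if_neg k4, if_neg k5, if_pos k6]
    obtain ⟨h1, h2, h3, h4⟩ := h
    have := lt_gadget (d := v l - v r) (u := v (b + 1)) (w := v (b + 2)) (z := v (b + 3))
      (y := 1 - v b) (by linarith) (by linarith) (by linarith) (by linarith)
    split_ifs at this ⊢ with e e' e' <;> linarith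
  · rw [if_neg k0, if_neg k1, if_neg k2, if_neg k3, if_neg k4, if_neg k5, if_neg k6, if_pos k7]
    linarith
  · rw [if_neg k0, if_neg k1, if_neg k2, if_neg k3, if_neg k4, if_neg k5, if_neg k6, if_neg k7,
      if_pos k8]
    linarith
  · rw [if_neg k0, if_neg k1, if_neg k2, if_neg k3, if_neg k4, if_neg k5, if_neg k6, if_neg k7,
      if_neg k8]
    linarith

theorem lt_gadget' (d : ℝ) : ∃ y u w z : ℝ, d = w * w - u * u ∧ u * w = 0 ∧ w * z = y ∧
    w * y = w := by
  rcases lt_or_ge 0 d with h | h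
  · have := Real.sqrt_pos.2 h
    exact ⟨1, 0, √d, (√d)⁻¹, by simp [h.le], by simp, mul_inv_cancel₀ this.ne', by simp⟩
  · exact ⟨0, √(-d), 0, 0, by rw [Real.mul_self_sqrt (by linarith)]; ring, by simp, by simp,
      by simp⟩

theorem tmpl_complete (t : ℕ × ℤ) (b x l r : ℕ) (vx vl vr : ℝ) : ∃ y u w z : ℝ,
    ∀ v : ℕ → ℝ, v 0 = 1 → v x = vx → v l = vl → v r = vr → v b = y → v (b + 1) = u →
      v (b + 2) = w → v (b + 3) = z → ∀ q ∈ tmpl t b x l r, ev q v v = 0 := by
  generalize hE : tmpl t b x l r = E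
  unfold tmpl at hE
  split_ifs at hE <;> subst hE
  · exact ⟨vx, 0, 0, 0, fun v _ _ _ _ _ _ _ _ => by simp [*]⟩
  · exact ⟨t.2, 0, 0, 0, fun v _ _ _ _ _ _ _ _ => by simp [*]⟩
  · exact ⟨vl + vr, 0, 0, 0, fun v _ _ _ _ _ _ _ _ => by simp [*]; ring⟩
  · exact ⟨vl * vr, 0, 0, 0, fun v _ _ _ _ _ _ _ _ => by simp [*]⟩
  · by_cases e : vl = vr
    · exact ⟨1, 0, 0, 0, fun v _ _ _ _ _ _ _ _ => by simp [*]⟩
    · have := sub_ne_zero.2 e
      exact ⟨0, (vl - vr)⁻¹, 0, 0, fun v _ _ _ _ _ _ _ _ => by simp [*]; field_simp; ring⟩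
  · obtain ⟨y, u, w, z, h1, h2, h3, h4⟩ := lt_gadget' (vr - vl)
    exact ⟨y, u, w, z, fun v _ _ _ _ _ _ _ _ => by simp [*]; linarith⟩
  · obtain ⟨y, u, w, z, h1, h2, h3, h4⟩ := lt_gadget' (vl - vr)
    exact ⟨1 - y, u, w, z, fun v _ _ _ _ _ _ _ _ => by
      simp [*, mul_sub]; constructor <;> linarith⟩
  · exact ⟨1 - vr, 0, 0, 0, fun v _ _ _ _ _ _ _ _ => by simp [*]; ring⟩
  · exact ⟨vl * vr, 0, 0, 0, fun v _ _ _ _ _ _ _ _ => by simp [*]⟩
  · exact ⟨vl + vr - vl * vr, 0, 0, 0, fun v _ _ _ _ _ _ _ _ => by simp [*]; ring⟩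

/-- The stack of value variables after one more symbol. -/
def eStk (stk : List ℕ) (p : (ℕ × ℤ) × ℕ) : List ℕ := (5 * p.2 + 1) :: popAr p.1.1 stk

/-- The equations of one more symbol. -/
def eOut (ix : ℕ × ℤ → ℕ) (stk : List ℕ) (p : (ℕ × ℤ) × ℕ) : List QF :=
  tmpl p.1 (5 * p.2 + 1) (5 * ix p.1 + 5) (stk.tail.headD 0) (stk.headD 0)

/-- The stack of value variables and the equations of a list of symbols. -/
def eRun (ix : ℕ × ℤ → ℕ) (m : List (ℕ × ℤ)) : List ℕ × List QF :=
  m.zipIdx.foldl (fun s p => (eStk s.1 p, s.2 ++ eOut ix s.1 p)) ([], [])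

theorem eRun_concat (ix : ℕ × ℤ → ℕ) (m : List (ℕ × ℤ)) (t : ℕ × ℤ) :
    eRun ix (m ++ [t]) = (eStk (eRun ix m).1 (t, m.length),
      (eRun ix m).2 ++ eOut ix (eRun ix m).1 (t, m.length)) := by
  simp [eRun, List.zipIdx_append]

theorem mem_popAr {α : Type} {k : ℕ} {l : List α} {a : α} (h : a ∈ popAr k l) : a ∈ l := by
  unfold popAr at h
  split_ifs at h
  · exact h
  · exact List.mem_of_mem_tail h
  · exact List.mem_of_mem_tail (List.mem_of_mem_tail h)

theorem map_popAr {α β : Type} (f : α → β) (k : ℕ) (l : List α) :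
    (popAr k l).map f = popAr k (l.map f) := by
  unfold popAr
  split_ifs <;> simp

theorem headD_prop {P : ℕ → Prop} {l : List ℕ} (h0 : P 0) (h : ∀ a ∈ l, P a) :
    P (l.headD 0) := by
  cases l with
  | nil => exact h0
  | cons a l => exact h a List.mem_cons_self

theorem eRun_idx (ix : ℕ × ℤ → ℕ) (L : ℕ) (m : List (ℕ × ℤ)) (hm : ∀ t ∈ m, ix t < L) :
    (∀ p ∈ (eRun ix m).1, p < 5 * m.length + 1) ∧ ∀ q ∈ (eRun ix m).2, ∀ s ∈ q,
      (s.2.1 < 5 * m.length + 1 ∨ s.2.1 % 5 = 0 ∧ s.2.1 < 5 * L + 1) ∧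
      (s.2.2 < 5 * m.length + 1 ∨ s.2.2 % 5 = 0 ∧ s.2.2 < 5 * L + 1) := by
  induction m using List.reverseRecOn with
  | nil => simp [eRun]
  | append_singleton m t ih =>
    obtain ⟨h1, h2⟩ := ih (fun s hs => hm s (List.mem_append_left _ hs))
    have ht := hm t (by simp)
    rw [eRun_concat, List.length_append, List.length_singleton]
    constructor
    · intro p hp
      rcases List.mem_cons.1 hp with rfl | hp
      · simp only; omega
      · have := h1 p (mem_popAr hp); omega
    · intro q hq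
      rcases List.mem_append.1 hq with hq | hq
      · intro s hs
        have := h2 q hq s hs
        omega
      · refine tmpl_idx _ _ _ _ _
          (fun p => p < 5 * (m.length + 1) + 1 ∨ p % 5 = 0 ∧ p < 5 * L + 1)
          (by omega) (by simp only; omega) ?_ ?_ (by simp only; omega) (by simp only; omega)
          (by simp only; omega) (by simp only; omega) q hq
        · exact Or.inl (headD_prop (P := fun p => p < 5 * (m.length + 1) + 1) (by omega)
            (fun a ha => by have := h1 a (List.mem_of_mem_tail ha); omega))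
        · exact Or.inl (headD_prop (P := fun p => p < 5 * (m.length + 1) + 1) (by omega)
            (fun a ha => by have := h1 a ha; omega))

theorem map_headD (v : ℕ → ℝ) (h0 : v 0 = 1) (l : List ℕ) :
    (l.map v).headD 1 = v (l.headD 0) := by
  cases l <;> simp [h0]

theorem eRun_sound (ix : ℕ × ℤ → ℕ) (m : List (ℕ × ℤ)) (v : ℕ → ℝ) (h0 : v 0 = 1)
    (h : ∀ q ∈ (eRun ix m).2, ev q v v = 0) :
    (eRun ix m).1.map v = m.foldl (vStep fun t => v (5 * ix t + 5)) [] := by
  induction m using List.reverseRecOn with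
  | nil => simp [eRun]
  | append_singleton m t ih =>
    rw [eRun_concat] at h ⊢
    rw [List.foldl_append, List.foldl_cons, List.foldl_nil,
      ← ih (fun q hq => h q (List.mem_append_left _ hq))]
    have := tmpl_sound _ _ _ _ _ v h0 (fun q hq => h q (List.mem_append_right _ hq))
    simp only [eStk, vStep, List.map_cons, map_popAr, this, ← List.map_tail, map_headD v h0]

theorem eRun_complete (ix : ℕ × ℤ → ℕ) (L : ℕ) (m : List (ℕ × ℤ)) (hm : ∀ t ∈ m, ix t < L)
    (w : ℕ → ℝ) : ∃ v : ℕ → ℝ, v 0 = 1 ∧ (∀ j, v (5 * j + 5) = w j) ∧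
      ∀ q ∈ (eRun ix m).2, ev q v v = 0 := by
  induction m using List.reverseRecOn with
  | nil =>
    refine ⟨fun i => if i = 0 then 1 else w (i / 5 - 1), by simp, fun j => ?_, by simp [eRun]⟩
    simp only
    rw [if_neg (by omega)]
    congr 1
    omega
  | append_singleton m t ih =>
    have hm' : ∀ s ∈ m, ix s < L := fun s hs => hm s (List.mem_append_left _ hs)
    obtain ⟨v, h0, h1, h2⟩ := ih hm'
    obtain ⟨h3, h4⟩ := eRun_idx ix L m hm'
    obtain ⟨y, u, w', z, h5⟩ := tmpl_complete t (5 * m.length + 1) (5 * ix t + 5)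
      ((eRun ix m).1.tail.headD 0) ((eRun ix m).1.headD 0) (v (5 * ix t + 5))
      (v ((eRun ix m).1.tail.headD 0)) (v ((eRun ix m).1.headD 0))
    let v' : ℕ → ℝ := fun i => if i = 5 * m.length + 1 then y else if i = 5 * m.length + 2 then u
      else if i = 5 * m.length + 3 then w' else if i = 5 * m.length + 4 then z else v i
    have e : ∀ i, (i < 5 * m.length + 1 ∨ i % 5 = 0) → v' i = v i := by
      intro i hi
      simp only [v']
      rw [if_neg (by omega), if_neg (by omega), if_neg (by omega), if_neg (by omega)]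
    refine ⟨v', by rw [e 0 (by omega), h0], fun j => by rw [e _ (by omega), h1], ?_⟩
    rw [eRun_concat]
    intro q hq
    rcases List.mem_append.1 hq with hq | hq
    · rw [← h2 q hq]
      exact ev_congr (fun s hs => by
        have := h4 q hq s hs
        exact ⟨e _ (by omega), e _ (by omega)⟩)
    · refine h5 v' (by rw [e 0 (by omega), h0]) (e _ (by omega)) (e _ (Or.inl ?_))
        (e _ (Or.inl ?_)) (by simp [v']) (by simp [v']) (by simp [v']) (by simp [v']) q hq
      · exact headD_prop (P := fun p => p < 5 * m.length + 1) (by omega)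
          (fun a ha => h3 a (List.mem_of_mem_tail ha))
      · exact headD_prop (P := fun p => p < 5 * m.length + 1) (by omega) h3

/-- A position at which the symbol `t` occurs. -/
def posOf (ts : List (ℕ × ℤ)) (t : ℕ × ℤ) : ℕ :=
  ((ts.zipIdx.filter fun p => decide (p.1 = t)).map fun p => p.2).headD 0

theorem posOf_spec {ts : List (ℕ × ℤ)} {t : ℕ × ℤ} (h : t ∈ ts) :
    ts[posOf ts t]? = some t := by
  unfold posOf
  obtain ⟨i, hi⟩ := List.mem_iff_getElem?.1 h
  have h1 : (t, i) ∈ ts.zipIdx.filter fun p => decide (p.1 = t) := by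
    simp [List.mem_zipIdx_iff_getElem?, hi]
  cases hl : ts.zipIdx.filter fun p => decide (p.1 = t) with
  | nil => rw [hl] at h1; simp at h1
  | cons p l =>
    have h2 : p ∈ ts.zipIdx.filter fun p => decide (p.1 = t) := by rw [hl]; simp
    simp only [List.mem_filter, decide_eq_true_eq, List.mem_zipIdx_iff_getElem?] at h2
    simpa [h2.2] using h2.1

theorem posOf_lt {ts : List (ℕ × ℤ)} {t : ℕ × ℤ} (h : t ∈ ts) : posOf ts t < ts.length :=
  (List.getElem?_eq_some_iff.1 (posOf_spec h)).1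

/-- The quadratic system of a list of symbols. -/
def system (ts : List (ℕ × ℤ)) : List QF :=
  cond (wf ts) [] [(1, 0, 0)] :: [(1, (eRun (posOf ts) ts).1.headD 0, 0), (-1, 0, 0)] ::
    (eRun (posOf ts) ts).2

theorem system_bdd (ts : List (ℕ × ℤ)) : Bdd (5 * ts.length + 1) (system ts) := by
  obtain ⟨h1, h2⟩ := eRun_idx (posOf ts) ts.length ts (fun t ht => posOf_lt ht)
  intro q hq s hs
  simp only [system, List.mem_cons] at hq
  rcases hq with rfl | rfl | hq
  · cases h : wf ts <;> simp [h] at hs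
    subst hs; simp
  · simp only [List.mem_cons, List.not_mem_nil, or_false] at hs
    rcases hs with rfl | rfl
    · exact ⟨headD_prop (P := fun p => p < 5 * ts.length + 1) (by omega) h1, by simp⟩
    · simp
  · have := h2 q hq s hs; omega

theorem system_iff (ts : List (ℕ × ℤ)) :
    Aff (system ts) ↔ ∃ φ, ts = formulaCode φ ∧ ∃ x, Holds x φ := by
  classical
  constructor
  · rintro ⟨v, h0, h⟩
    simp only [system, List.forall_mem_cons] at h
    obtain ⟨h1, h2, h3⟩ := h
    have hw : wf ts = true := by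
      cases hw : wf ts
      · simp [hw, h0] at h1
      · rfl
    obtain ⟨φ, rfl⟩ := (wf_iff ts).1 hw
    refine ⟨φ, rfl, fun k => v (5 * posOf (formulaCode φ) (0, k) + 5), ?_⟩
    have h4 := eRun_sound _ _ v h0 h3
    rw [v_formula _ (fun k => v (5 * posOf (formulaCode φ) (0, k) + 5)) φ (fun _ _ => rfl)] at h4
    have h5 := map_headD v h0 (eRun (posOf (formulaCode φ)) (formulaCode φ)).1
    rw [h4] at h5
    simp only [ev_cons, ev_nil, h0, ← h5] at h2
    by_contra hc
    simp [hc] at h2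
  · rintro ⟨φ, rfl, x, hx⟩
    obtain ⟨v, h0, h1, h2⟩ := eRun_complete (posOf (formulaCode φ)) _ (formulaCode φ)
      (fun t ht => posOf_lt ht) (fun j => x (((formulaCode φ)[j]?.getD (0, 0)).2.toNat))
    have h4 := eRun_sound _ _ v h0 h2
    rw [v_formula _ x φ (fun k hk => by simp [h1, posOf_spec hk])] at h4
    have h5 := map_headD v h0 (eRun (posOf (formulaCode φ)) (formulaCode φ)).1
    rw [h4] at h5
    refine ⟨v, h0, ?_⟩
    simp only [system, List.forall_mem_cons]
    refine ⟨by simp [(wf_iff _).2 ⟨φ, rfl⟩], ?_, h2⟩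
    simp only [ev_cons, ev_nil, h0, ← h5]
    simp [hx]

end Pool.Agent.Lib.MP_acf5a6_lc
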