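import Mathlib
import Pool.Prelude.Def_F_458e953d

/-!
The decision problems ETR and TSV as languages of bit strings.
-/

set_option autoImplicit false

namespace Pool.Agent.Lib.MP_acf5a6_lc

/-- Polynomial terms with integer coefficients in the variables `x₀, x₁, …`. -/
inductive Term : Type
  | var : ℕ → Term
  | const : ℤ → Term
  | add : Term → Term → Term
  | mul : Term → Term → Term

/-- Quantifier-free Boolean combinations of polynomial equations and inequalities. -/
inductive Formula : Type
  | eq : Term → Term → Formula
  | lt : Term → Term → Formula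
  | le : Term → Term → Formula
  | not : Formula → Formula
  | and : Formula → Formula → Formula
  | or : Formula → Formula → Formula

/-- The real value of a term at a point. -/
def termVal (x : ℕ → ℝ) : Term → ℝ
  | .var k => x k
  | .const c => (c : ℝ)
  | .add s t => termVal x s + termVal x t
  | .mul s t => termVal x s * termVal x t

/-- Truth of a formula at a point. -/
def Holds (x : ℕ → ℝ) : Formula → Prop
  | .eq s t => termVal x s = termVal x t
  | .lt s t => termVal x s < termVal x t
  | .le s t => termVal x s ≤ termVal x t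
  | .not φ => ¬ Holds x φ
  | .and φ ψ => Holds x φ ∧ Holds x ψ
  | .or φ ψ => Holds x φ ∨ Holds x ψ

/-- A term in reverse Polish form, as a list of symbols `(kind, number)`. -/
def termCode : Term → List (ℕ × ℤ)
  | .var k => [(0, (k : ℤ))]
  | .const c => [(1, c)]
  | .add s t => termCode s ++ termCode t ++ [(2, 0)]
  | .mul s t => termCode s ++ termCode t ++ [(3, 0)]

/-- A formula in reverse Polish form, as a list of symbols `(kind, number)`. -/
def formulaCode : Formula → List (ℕ × ℤ)
  | .eq s t => termCode s ++ termCode t ++ [(4, 0)]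
  | .lt s t => termCode s ++ termCode t ++ [(5, 0)]
  | .le s t => termCode s ++ termCode t ++ [(6, 0)]
  | .not φ => formulaCode φ ++ [(7, 0)]
  | .and φ ψ => formulaCode φ ++ formulaCode ψ ++ [(8, 0)]
  | .or φ ψ => formulaCode φ ++ formulaCode ψ ++ [(9, 0)]

open Classical in
/-- The existential theory of the reals: binary codes of quantifier-free formulas whose
existential closure is true over the reals. -/
noncomputable def ETR : N68a2faeb.DecisionProblem := fun s =>
  decide (∃ φ : Formula, s = N487b59b3.bitEncode (formulaCode φ) ∧ ∃ x : ℕ → ℝ, Holds x φ)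

/-- `σ` is an `ℓ²` singular value of the tensor `T`. -/
def IsSingularValue {d : ℕ} (T : Fin d → Fin d → Fin d → ℚ) (σ : ℝ) : Prop :=
  ∃ x y z : Fin d → ℝ, ∑ i, x i ^ 2 = 1 ∧ ∑ j, y j ^ 2 = 1 ∧ ∑ k, z k ^ 2 = 1 ∧
    (∀ i, ∑ j, ∑ k, (T i j k : ℝ) * y j * z k = σ * x i) ∧
    (∀ j, ∑ i, ∑ k, (T i j k : ℝ) * x i * z k = σ * y j) ∧
    (∀ k, ∑ i, ∑ j, (T i j k : ℝ) * x i * y j = σ * z k)

open Classical in
/-- Tensor Singular Value: binary codes of pairs `(T, σ)` with `T` a rational `d × d × d` array,
`σ` a positive rational number and `σ` a singular value of `T`. -/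
noncomputable def TSV : N68a2faeb.DecisionProblem := fun s =>
  decide (∃ (d : ℕ) (T : Fin d → Fin d → Fin d → ℚ) (σ : ℚ),
    s = N487b59b3.bitEncode
      ((List.ofFn fun i => List.ofFn fun j => List.ofFn fun k => T i j k), σ) ∧
    0 < σ ∧ IsSingularValue T σ)

end Pool.Agent.Lib.MP_acf5a6_lc
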