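import Pool.Agent.Lib.MP_acf5a6_lc.Quad
import Pool.Agent.Lib.MP_acf5a6_lc.Defs

/-!
From unit solutions of bilinear systems to singular values of a tensor.
-/

set_option autoImplicit false

namespace Pool.Agent.Lib.MP_acf5a6_lc

open Finset

/-- The matrix of a sparse bilinear form. -/
def co (q : QF) (i j : ℕ) : ℤ :=
  (q.map fun t => if (t.2.1, t.2.2) = (i, j) then t.1 else 0).sum

theorem ev_eq_co {n : ℕ} {q : QF} (hq : ∀ t ∈ q, t.2.1 < n ∧ t.2.2 < n) (x y : ℕ → ℝ) :
    ev q x y = ∑ p ∈ range n ×ˢ range n, (co q p.1 p.2 : ℝ) * (x p.1 * y p.2) := by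
  induction q with
  | nil => simp [co]
  | cons t q ih =>
    rw [ev_cons, ih (fun s hs => hq s (List.mem_cons_of_mem _ hs))]
    have ht := hq t List.mem_cons_self
    simp only [co, List.map_cons, List.sum_cons]
    push_cast
    simp only [add_mul, sum_add_distrib, ite_mul, zero_mul, Prod.mk.eta]
    congr 1
    rw [sum_ite_eq, if_pos (by simpa using ht), mul_assoc]

/-- The Gram matrix of the system. -/
def gram (E : List QF) (i j a b : ℕ) : ℤ := (E.map fun q => co q i j * co q a b).sum

theorem gram_cast (E : List QF) (i j a b : ℕ) : (gram E i j a b : ℝ) =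
    ∑ r : Fin E.length, (co E[r.1] i j : ℝ) * (co E[r.1] a b : ℝ) := by
  rw [Fin.sum_univ_fun_getElem E (fun q => (co q i j : ℝ) * (co q a b : ℝ)), gram]
  induction E with
  | nil => simp
  | cons q E ih => simp [← ih]

/-- All pairs of indices below `n`. -/
def pairs (n : ℕ) : List (ℕ × ℕ) :=
  (List.range n).flatMap fun a => (List.range n).map fun b => (a, b)

theorem pairs_eq (n : ℕ) : pairs n = (List.range (n * n)).map fun k => (k / n, k % n) := by
  have : ∀ m, ((List.range m).flatMap fun a => (List.range n).map fun b => (a, b)) =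
      (List.range (m * n)).map fun k => (k / n, k % n) := by
    intro m
    induction m with
    | zero => simp
    | succ m ih =>
      rw [List.range_succ, List.flatMap_append, ih, add_mul, one_mul, List.range_add,
        List.map_append]
      congr 1
      simp only [List.flatMap_cons, List.flatMap_nil, List.append_nil, List.map_map]
      refine List.map_congr_left (fun b hb => ?_)
      have hb' := List.mem_range.1 hb
      simp only [Function.comp]
      rw [mul_comm m, Nat.mul_add_div (by omega), Nat.mul_add_mod, Nat.div_eq_of_lt hb',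
        Nat.mod_eq_of_lt hb', add_zero]
  exact this n

theorem sum_pairs (n : ℕ) (f : ℕ × ℕ → ℝ) :
    ∑ k : Fin (n * n), f ((k : ℕ) / n, (k : ℕ) % n) = ∑ p ∈ range n ×ˢ range n, f p := by
  rw [← finProdFinEquiv.sum_comp, sum_product, Fintype.sum_prod_type,
    ← Fin.sum_univ_eq_sum_range (fun a => ∑ b ∈ range n, f (a, b))]
  refine sum_congr rfl (fun a _ => ?_)
  rw [← Fin.sum_univ_eq_sum_range (fun b => f (a, b))]
  refine sum_congr rfl (fun b _ => ?_)
  have hb := b.2
  simp only [finProdFinEquiv_apply_val]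
  rw [Nat.add_mul_div_left _ _ (by omega), Nat.add_mul_mod_self_left, Nat.div_eq_of_lt hb,
    Nat.mod_eq_of_lt hb, zero_add]

theorem sum_pad {n d : ℕ} (h : n ≤ d) (f : ℕ → ℝ) :
    ∑ i : Fin d, (if (i : ℕ) < n then f i else 0) = ∑ i ∈ range n, f i := by
  rw [Fin.sum_univ_eq_sum_range (fun i => if i < n then f i else 0), ← sum_filter]
  congr 1
  ext i
  simp only [mem_filter, mem_range]
  omega

/-- The number that is the candidate singular value. -/
def big (n : ℕ) (E : List QF) : ℤ := 1 + ((pairs n).map fun p => gram E p.1 p.2 p.1 p.2).sum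

theorem big_cast (n : ℕ) (E : List QF) : (big n E : ℝ) =
    1 + ∑ p ∈ range n ×ˢ range n, ∑ r : Fin E.length, (co E[r.1] p.1 p.2 : ℝ) ^ 2 := by
  rw [big, pairs_eq, List.map_map, ← sum_pairs n
    (fun p => ∑ r : Fin E.length, (co E[r.1] p.1 p.2 : ℝ) ^ 2),
    Fin.sum_univ_eq_sum_range
      (fun k => ∑ r : Fin E.length, (co E[r.1] (k / n) (k % n) : ℝ) ^ 2)]
  push_cast
  congr 1
  rw [List.map_map, ← List.sum_toFinset _ List.nodup_range, List.toFinset_range]
  refine sum_congr rfl (fun k _ => ?_)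
  simp [gram_cast, sq]

theorem big_pos (n : ℕ) (E : List QF) : 0 < (big n E : ℝ) := by
  rw [big_cast]; positivity

/-- The entries of the tensor. -/
def entry (n : ℕ) (E : List QF) (D : ℤ) (i j : ℕ) (p : ℕ × ℕ) : ℤ :=
  if i < n then if j < n then (if (i, j) = p then D else 0) - gram E i j p.1 p.2 else 0 else 0

theorem abstract_bound {π R : Type} [Fintype R] (P : Finset π) (M : R → π → ℝ) (w z : π → ℝ)
    {D : ℝ} (hD : D = 1 + ∑ p ∈ P, ∑ r, M r p ^ 2) (hw : ∑ p ∈ P, w p ^ 2 = 1)
    (hz : ∑ p ∈ P, z p ^ 2 = 1)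
    (h : ∀ p ∈ P, D * w p - ∑ r, M r p * ∑ p' ∈ P, M r p' * w p' = D * z p) (r : R) :
    ∑ p ∈ P, M r p * w p = 0 := by
  set c : R → ℝ := fun r => ∑ p' ∈ P, M r p' * w p' with hc
  let u : π → ℝ := fun p => ∑ r, M r p * c r
  have h1 : ∑ p ∈ P, w p * u p = ∑ r, c r ^ 2 := by
    simp only [u, mul_sum]
    rw [sum_comm]
    refine sum_congr rfl (fun r _ => ?_)
    rw [sq]
    conv_rhs => lhs; rw [hc]
    simp only [sum_mul]
    exact sum_congr rfl (fun p _ => by ring)
  have h2 : ∑ p ∈ P, u p ^ 2 ≤ (D - 1) * ∑ r, c r ^ 2 := by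
    rw [hD, add_sub_cancel_left, sum_mul]
    exact sum_le_sum (fun p _ => sum_mul_sq_le_sq_mul_sq _ _ _)
  have h3 : D ^ 2 * ∑ p ∈ P, z p ^ 2 =
      D ^ 2 * ∑ p ∈ P, w p ^ 2 - 2 * D * ∑ p ∈ P, w p * u p + ∑ p ∈ P, u p ^ 2 := by
    simp only [mul_sum, ← sum_sub_distrib, ← sum_add_distrib]
    refine sum_congr rfl (fun p hp => ?_)
    rw [← mul_pow, ← h p hp]
    ring
  have h4 : 0 ≤ ∑ r, c r ^ 2 := by positivity
  have h5 : 1 ≤ D := by rw [hD]; exact le_add_of_nonneg_right (by positivity)
  rw [hw, hz, h1] at h3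
  have h6 : ∑ r, c r ^ 2 = 0 := by nlinarith
  rw [sum_eq_zero_iff_of_nonneg (fun _ _ => by positivity)] at h6
  exact pow_eq_zero_iff (by norm_num) |>.1 (h6 r (mem_univ r))

/-- The tensor of a bilinear system. -/
def tensor (n : ℕ) (E : List QF) (i j k : Fin (n * n)) : ℚ :=
  (entry n E (big n E) i j ((k : ℕ) / n, (k : ℕ) % n) : ℤ)

theorem entry_cast (n : ℕ) (E : List QF) (D : ℤ) {i j : ℕ} (hi : i < n) (hj : j < n) (p : ℕ × ℕ) :
    (entry n E D i j p : ℝ) = (if (i, j) = p then (D : ℝ) else 0) -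
      ∑ r : Fin E.length, (co E[r.1] i j : ℝ) * (co E[r.1] p.1 p.2 : ℝ) := by
  rw [entry, if_pos hi, if_pos hj, ← gram_cast]
  push_cast
  rfl

theorem contract_third {n : ℕ} (E : List QF) (D : ℤ) {i j : ℕ} (hi : i < n) (hj : j < n)
    (w : ℕ × ℕ → ℝ) : ∑ p ∈ range n ×ˢ range n, (entry n E D i j p : ℝ) * w p =
      D * w (i, j) - ∑ r : Fin E.length, (co E[r.1] i j : ℝ) *
        ∑ p ∈ range n ×ˢ range n, (co E[r.1] p.1 p.2 : ℝ) * w p := by
  simp only [entry_cast n E D hi hj, sub_mul, sum_sub_distrib, ite_mul, zero_mul, sum_mul,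
    mul_sum, mul_assoc]
  rw [sum_ite_eq, if_pos (by simp [hi, hj]), sum_comm]

theorem contract_first {n : ℕ} (E : List QF) (D : ℤ) {p : ℕ × ℕ} (hp : p ∈ range n ×ˢ range n)
    (w : ℕ × ℕ → ℝ) : ∑ s ∈ range n ×ˢ range n, (entry n E D s.1 s.2 p : ℝ) * w s =
      D * w p - ∑ r : Fin E.length, (co E[r.1] p.1 p.2 : ℝ) *
        ∑ s ∈ range n ×ˢ range n, (co E[r.1] s.1 s.2 : ℝ) * w s := by
  have hp' : p.1 < n ∧ p.2 < n := by simpa using hp
  rw [← contract_third E D hp'.1 hp'.2 w]
  refine sum_congr rfl (fun s hs => ?_)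
  have hs' : s.1 < n ∧ s.2 < n := by simpa using hs
  rw [entry_cast n E D hs'.1 hs'.2, entry_cast n E D hp'.1 hp'.2]
  simp only [Prod.mk.eta, eq_comm (a := s), mul_comm]

theorem double_pad {n : ℕ} (E : List QF) (D : ℤ) (p : ℕ × ℕ) (x y : ℕ → ℝ) (hn : n ≤ n * n) :
    ∑ i : Fin (n * n), ∑ j : Fin (n * n), (entry n E D i j p : ℝ) * x i * y j =
      ∑ s ∈ range n ×ˢ range n, (entry n E D s.1 s.2 p : ℝ) * (x s.1 * y s.2) := by
  rw [sum_product, ← sum_pad hn]
  refine sum_congr rfl (fun i _ => ?_)
  split_ifs with hi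
  · rw [← sum_pad hn]
    refine sum_congr rfl (fun j _ => ?_)
    split_ifs with hj
    · ring
    · simp [entry, hj]
  · simp [entry, hi]

theorem singular_iff {n : ℕ} {E : List QF} (hE : Bdd n E) :
    IsSingularValue (tensor n E) ((big n E : ℚ) : ℝ) ↔ Bil n E := by
  have hn : n ≤ n * n := Nat.le_mul_self n
  have hD := big_pos n E
  have hev : ∀ (x y : ℕ → ℝ) (r : Fin E.length), ev E[r.1] x y =
      ∑ p ∈ range n ×ˢ range n, (co E[r.1] p.1 p.2 : ℝ) * (x p.1 * y p.2) :=
    fun x y r => ev_eq_co (hE _ (List.getElem_mem _)) x y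
  simp only [IsSingularValue, tensor, Rat.cast_intCast]
  constructor
  · rintro ⟨X, Y, Z, hX, hY, hZ, h1, h2, h3⟩
    have hx : ∑ i ∈ range n, ext X i ^ 2 = 1 := by
      rw [← hX, ← sum_pad hn]
      refine sum_congr rfl (fun i _ => ?_)
      split_ifs with hi
      · simp
      · have := h1 i
        simp only [entry, if_neg hi, Int.cast_zero, zero_mul, sum_const_zero] at this
        rw [(mul_eq_zero.1 this.symm).resolve_left hD.ne']; norm_num
    have hy : ∑ i ∈ range n, ext Y i ^ 2 = 1 := by
      rw [← hY, ← sum_pad hn]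
      refine sum_congr rfl (fun i _ => ?_)
      split_ifs with hi
      · simp
      · have := h2 i
        simp only [entry, if_neg hi, ite_self, Int.cast_zero, zero_mul, sum_const_zero] at this
        rw [(mul_eq_zero.1 this.symm).resolve_left hD.ne']; norm_num
    refine ⟨ext X, ext Y, hx, hy, fun q hq => ?_⟩
    obtain ⟨r, hr, rfl⟩ := List.getElem_of_mem hq
    rw [hev _ _ ⟨r, hr⟩]
    refine abstract_bound (range n ×ˢ range n) (fun (r : Fin E.length) p => (co E[r.1] p.1 p.2 : ℝ))
      (fun p => ext X p.1 * ext Y p.2) (fun p => ext Z (n * p.1 + p.2)) (big_cast n E) ?_ ?_ ?_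
      ⟨r, hr⟩
    · simp only [mul_pow]
      rw [sum_product, ← sum_mul_sum (range n) (range n) (fun i => ext X i ^ 2)
        (fun i => ext Y i ^ 2), hx, hy, one_mul]
    · rw [← sum_pairs n (fun p => ext Z (n * p.1 + p.2) ^ 2), ← hZ]
      simp [Nat.div_add_mod]
    · intro p hp
      have hp' : p.1 < n ∧ p.2 < n := by simpa using hp
      have hk : n * p.1 + p.2 < n * n := by nlinarith
      have := h3 ⟨_, hk⟩
      simp only [Nat.mul_add_div (show 0 < n by omega), Nat.mul_add_mod, Nat.div_eq_of_lt hp'.2,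
        Nat.mod_eq_of_lt hp'.2, add_zero, Prod.mk.eta] at this
      rw [← contract_first E _ hp (fun s => ext X s.1 * ext Y s.2), ← double_pad E _ p _ _ hn]
      simp only [ext_val, this]
      simp [ext, hk]
  · rintro ⟨x, y, hx, hy, h⟩
    have hc : ∀ r : Fin E.length,
        ∑ p ∈ range n ×ˢ range n, (co E[r.1] p.1 p.2 : ℝ) * (x p.1 * y p.2) = 0 :=
      fun r => by rw [← hev, h _ (List.getElem_mem _)]
    have key : ∀ i j : ℕ, ∑ k : Fin (n * n), (entry n E (big n E) i j (k / n, k % n) : ℝ) *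
        (x (k / n) * y (k % n)) = if i < n then if j < n then big n E * (x i * y j) else 0
          else 0 := by
      intro i j
      rw [sum_pairs n (fun p => (entry n E (big n E) i j p : ℝ) * (x p.1 * y p.2))]
      split_ifs with hi hj
      · rw [contract_third E _ hi hj]; simp [hc]
      · simp [entry, hj]
      · simp [entry, hi]
    refine ⟨fun i => if (i : ℕ) < n then x i else 0, fun i => if (i : ℕ) < n then y i else 0,
      fun k => x (k / n) * y (k % n), ?_, ?_, ?_, fun i => ?_, fun j => ?_, fun k => ?_⟩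
    · rw [← hx, ← sum_pad hn]; simp
    · rw [← hy, ← sum_pad hn]; simp
    · rw [sum_pairs n (fun p => (x p.1 * y p.2) ^ 2)]
      simp only [mul_pow]
      rw [sum_product, ← sum_mul_sum (range n) (range n) (fun i => x i ^ 2)
        (fun i => y i ^ 2), hx, hy, one_mul]
    · have : ∀ j : Fin (n * n), ∑ k : Fin (n * n),
          (entry n E (big n E) i j (k / n, k % n) : ℝ) * (if (j : ℕ) < n then y j else 0) *
            (x (k / n) * y (k % n)) =
          if (j : ℕ) < n then (big n E * if (i : ℕ) < n then x i else 0) * y j ^ 2 else 0 := by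
        intro j
        simp only [mul_right_comm _ (if (j : ℕ) < n then y j else 0), ← sum_mul, key]
        split_ifs <;> ring
      simp only [this]
      rw [sum_pad hn (fun j => (big n E * if (i : ℕ) < n then x i else 0) * y j ^ 2), ← mul_sum, hy,
        mul_one]
    · have : ∀ i : Fin (n * n), ∑ k : Fin (n * n),
          (entry n E (big n E) i j (k / n, k % n) : ℝ) * (if (i : ℕ) < n then x i else 0) *
            (x (k / n) * y (k % n)) =
          if (i : ℕ) < n then (big n E * if (j : ℕ) < n then y j else 0) * x i ^ 2 else 0 := by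
        intro i
        simp only [mul_right_comm _ (if (i : ℕ) < n then x i else 0), ← sum_mul, key]
        split_ifs <;> ring
      simp only [this]
      rw [sum_pad hn (fun i => (big n E * if (j : ℕ) < n then y j else 0) * x i ^ 2), ← mul_sum, hx,
        mul_one]
    · have hk := k.2
      have hn0 : 0 < n := by
        rcases Nat.eq_zero_or_pos n with h0 | h0
        · subst h0; simp at hk
        · exact h0
      have hp : ((k : ℕ) / n, (k : ℕ) % n) ∈ range n ×ˢ range n := by
        simp only [mem_product, mem_range]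
        exact ⟨Nat.div_lt_of_lt_mul hk, Nat.mod_lt _ hn0⟩
      rw [double_pad E _ _ (fun i => if i < n then x i else 0) (fun i => if i < n then y i else 0)
        hn, sum_congr rfl (g := fun s => (entry n E (big n E) s.1 s.2 (k / n, k % n) : ℝ) *
          (x s.1 * y s.2)) (fun s hs => by
            have hs' : s.1 < n ∧ s.2 < n := by simpa using hs
            rw [if_pos hs'.1, if_pos hs'.2]),
        contract_first E _ hp (fun s => x s.1 * y s.2)]
      simp [hc]

/-- The list form of a tensor. -/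
def listOf {d : ℕ} (T : Fin d → Fin d → Fin d → ℚ) : List (List (List ℚ)) :=
  List.ofFn fun i => List.ofFn fun j => List.ofFn fun k => T i j k

theorem tsv_enc {d : ℕ} (T : Fin d → Fin d → Fin d → ℚ) (σ : ℚ) :
    TSV (N487b59b3.bitEncode (listOf T, σ)) = true ↔ 0 < σ ∧ IsSingularValue T σ := by
  simp only [TSV, decide_eq_true_eq]
  constructor
  · rintro ⟨d', T', σ', h, h'⟩
    obtain ⟨h1, h2⟩ := Prod.mk.inj (N487b59b3.bitEncode_injective h)
    have hd : d = d' := by simpa [listOf] using congrArg List.length h1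
    subst hd h2
    have : T = T' := by
      funext i j k
      exact congrFun (List.ofFn_injective (congrFun (List.ofFn_injective
        (congrFun (List.ofFn_injective h1) i)) j)) k
    rw [this]; exact h'
  · intro h; exact ⟨d, T, σ, rfl, h⟩

/-- The instance of TSV built from a bilinear system. -/
def inst (n : ℕ) (E : List QF) : List (List (List ℚ)) × ℚ :=
  ((List.range (n * n)).map fun i => (List.range (n * n)).map fun j =>
    (pairs n).map fun p => ((entry n E (big n E) i j p : ℤ) : ℚ), ((big n E : ℤ) : ℚ))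

theorem ofFn_range {α : Type} (m : ℕ) (f : ℕ → α) :
    List.ofFn (fun i : Fin m => f i) = (List.range m).map f := by
  apply List.ext_getElem <;> simp

theorem inst_iff {n : ℕ} {E : List QF} (hE : Bdd n E) :
    TSV (N487b59b3.bitEncode (inst n E)) = true ↔ Bil n E := by
  have e : inst n E = (listOf (tensor n E), ((big n E : ℤ) : ℚ)) := by
    simp only [inst, listOf, tensor, pairs_eq, ← ofFn_range, List.map_ofFn]
    rfl
  rw [e, tsv_enc, singular_iff hE, and_iff_right]
  have := big_pos n E
  exact_mod_cast this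

end Pool.Agent.Lib.MP_acf5a6_lc
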