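import Pool.Agent.Lib.MP_acf5a6_lc.Check
import Pool.Agent.Lib.MP_acf5a6_lc.Gadget
import Pool.Agent.Lib.MP_acf5a6_lc.Tensor

/-!
The polynomial-time reduction from ETR to TSV.
-/

set_option autoImplicit false
set_option linter.unusedSectionVars false

namespace Pool.Agent.Lib.MP_acf5a6_lc

open N487b59b3

namespace PT

variable {α β γ δ : Type} [N487b59b3 α] [N487b59b3 β] [N487b59b3 γ] [N487b59b3 δ]

/-- A fold with a state that grows additively and an output list. -/
theorem foldlOut {g : α → γ → β → γ} {o : α → γ → β → List δ} {h : α → γ} {l : α → List β}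
    (hg : PT (fun x : α × γ × β => g x.1 x.2.1 x.2.2))
    (ho : PT (fun x : α × γ × β => o x.1 x.2.1 x.2.2)) (hh : PT h) (hl : PT l)
    {B : α × β → ℕ} (hB : PB B) (H : ∀ a c b, sz (g a c b) ≤ sz c + B (a, b)) :
    PT (fun a => (l a).foldl (fun (s : γ × List δ) b => (g a s.1 b, s.2 ++ o a s.1 b))
      (h a, [])) := by
  obtain ⟨q, hq⟩ := hB
  obtain ⟨r, hr⟩ := PB.of_PT ho
  have b0 := (((PB.const 2).mul PB.self).add (PB.const 1)).add (PB.of_PT hl)
  have b1 := (PB.of_PT hh).add ((PB.of_PT hl).mul (b0.poly q))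
  have b2 := (b0.add (((PB.const 2).mul b1).add (PB.const 1))).poly r
  refine foldl (g := fun a (s : γ × List δ) b => (g a s.1 b, s.2 ++ o a s.1 b)) ?_ (by fun_prop) hl
    ((((PB.const 2).mul b1).add (PB.const 1)).add ((PB.of_PT hl).mul b2)) (fun a i => ?_)
  · have h1 := comp hg (g := fun x : α × (γ × List δ) × β => (x.1, x.2.1.1, x.2.2)) (by fun_prop)
    have h2 := comp ho (g := fun x : α × (γ × List δ) × β => (x.1, x.2.1.1, x.2.2)) (by fun_prop)
    exact prodMk h1 (append (by fun_prop) h2)
  · set Q := q.eval (2 * sz a + 1 + sz (l a))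
    set S := sz (h a) + sz (l a) * Q
    set R := r.eval (2 * sz a + 1 + sz (l a) + (2 * S + 1))
    have : ∀ (m : List β) (c : γ) (acc : List δ), (∀ b ∈ m, b ∈ l a) →
        sz c + m.length * Q ≤ S →
        sz (m.foldl (fun (s : γ × List δ) b => (g a s.1 b, s.2 ++ o a s.1 b)) (c, acc)) ≤
          2 * S + 1 + (sz acc + m.length * R) := by
      intro m
      induction m with
      | nil => intro c acc _ hc; simp at hc ⊢; omega
      | cons b m ih =>
        intro c acc hm hc
        have h0 := sz_le_of_mem (hm b List.mem_cons_self)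
        have h2 := H a c b
        have h3 := hq (a, b)
        have h4 : q.eval (sz (a, b)) ≤ Q := eval_mono _ (by rw [sz_pair]; omega)
        simp only [List.length_cons, add_mul, one_mul] at hc
        have h5 := hr (a, c, b)
        have h6 : r.eval (sz (a, c, b)) ≤ R := eval_mono _ (by simp only [sz_pair]; omega)
        have h1 := ih (g a c b) (acc ++ o a c b) (fun b hb => hm b (List.mem_cons_of_mem _ hb))
          (by omega)
        simp only [List.foldl_cons, List.length_cons, add_mul, sz_append] at h1 h5 ⊢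
        omega
    have hlen : ((l a).take i).length ≤ sz (l a) :=
      (List.length_take_le' _ _).trans (length_le_sz _)
    refine (this _ _ _ (fun b hb => List.mem_of_mem_take hb)
      (Nat.add_le_add_left (Nat.mul_le_mul_right _ hlen) _)).trans ?_
    have := Nat.mul_le_mul_right R hlen
    simp only [sz_nil]
    omega

@[fun_prop] theorem range' {u : α → Un} (hu : PT u) : PT (fun a => List.range (u a).n) :=
  urange' hu

@[fun_prop] theorem popAr' {k : α → ℕ} {l : α → List β} (hk : PT k) (hl : PT l) :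
    PT (fun a => popAr (k a) (l a)) := by
  unfold popAr; fun_prop

theorem sz_popAr (k : ℕ) (l : List β) : sz (popAr k l) ≤ sz l := by
  unfold popAr
  split_ifs
  · exact le_rfl
  · exact sz_tail_le _
  · exact (sz_tail_le _).trans (sz_tail_le _)

@[fun_prop] theorem need' {k : α → ℕ} (hk : PT k) : PT (fun a => need (k a)) := by
  unfold need; fun_prop

@[fun_prop] theorem valid' {t : α → ℕ × ℤ} (ht : PT t) : PT (fun a => valid (t a)) := by
  unfold valid; fun_prop

@[fun_prop] theorem wf' {ts : α → List (ℕ × ℤ)} (ht : PT ts) : PT (fun a => wf (ts a)) := by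
  have h1 := foldlA (g := fun _ : α => wfStep) (h := fun _ => (true, [])) (l := ts)
    (by unfold wfStep; fun_prop) (const _) ht (PB.const 3) (fun a c b => by
      obtain ⟨c, s⟩ := c
      have := sz_popAr b.1 s
      simp [wfStep]; omega)
  unfold wf
  fun_prop

@[fun_prop] theorem tmpl' {t : α → ℕ × ℤ} {b x l r : α → ℕ} (ht : PT t) (hb : PT b) (hx : PT x)
    (hl : PT l) (hr : PT r) : PT (fun a => tmpl (t a) (b a) (x a) (l a) (r a)) := by
  unfold tmpl; fun_prop

@[fun_prop] theorem posOf' {ts : α → List (ℕ × ℤ)} {t : α → ℕ × ℤ} (hs : PT ts) (ht : PT t) :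
    PT (fun a => posOf (ts a) (t a)) := by
  unfold posOf; fun_prop

theorem eRun' : PT (fun ts : List (ℕ × ℤ) => eRun (posOf ts) ts) :=
  foldlOut (g := fun _ => eStk) (o := fun ts => eOut (posOf ts)) (by unfold eStk; fun_prop)
    (by unfold eOut; fun_prop) (const _) (by fun_prop)
    (B := fun x => 2 * sz (5 * x.2.2 + 1) + 1)
    (((PB.const 2).mul (PB.of_PT (by fun_prop))).add (PB.const 1)) (fun a c b => by
      have := sz_popAr b.1.1 c
      simp only [eStk, sz_cons]; omega)

theorem system' : PT system := by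
  have := eRun'
  unfold system; fun_prop

@[fun_prop] theorem nrm' {q : α → QF} (hq : PT q) : PT (fun a => nrm (q a)) := by
  unfold nrm; fun_prop

@[fun_prop] theorem hgt' {E : α → List QF} (hE : PT E) : PT (fun a => hgt (E a)) := by
  unfold hgt; fun_prop

theorem hom' {n K : α → Un} {E : α → List QF} (hn : PT n) (hK : PT K) (hE : PT E) :
    PT (fun a => hom (n a).n (K a).n (E a)) := by
  unfold hom; fun_prop

theorem anti' {n : α → Un} (hn : PT n) : PT (fun a => anti (n a).n) := by
  unfold anti; fun_prop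

@[fun_prop] theorem co' {q : α → QF} {i j : α → ℕ} (hq : PT q) (hi : PT i) (hj : PT j) :
    PT (fun a => co (q a) (i a) (j a)) := by
  unfold co; fun_prop

@[fun_prop] theorem gram' {E : α → List QF} {i j k l : α → ℕ} (hE : PT E) (hi : PT i) (hj : PT j)
    (hk : PT k) (hl : PT l) : PT (fun a => gram (E a) (i a) (j a) (k a) (l a)) := by
  unfold gram; fun_prop

@[fun_prop] theorem pairs' {n : α → Un} (hn : PT n) : PT (fun a => pairs (n a).n) := by
  unfold pairs; fun_prop

@[fun_prop] theorem big' {n : α → Un} {E : α → List QF} (hn : PT n) (hE : PT E) :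
    PT (fun a => big (n a).n (E a)) := by
  unfold big; fun_prop

@[fun_prop] theorem entry' {n i j : α → ℕ} {E : α → List QF} {D : α → ℤ} {p : α → ℕ × ℕ}
    (hn : PT n) (hE : PT E) (hD : PT D) (hi : PT i) (hj : PT j) (hp : PT p) :
    PT (fun a => entry (n a) (E a) (D a) (i a) (j a) (p a)) := by
  unfold entry; fun_prop

theorem inst' {n : α → Un} {E : α → List QF} (hn : PT n) (hE : PT E) :
    PT (fun a => inst (n a).n (E a)) := by
  have : PT (fun a => (((List.range ((n a).mul (n a)).n).map fun i =>
      (List.range ((n a).mul (n a)).n).map fun j => (pairs (n a).n).map fun p =>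
        ((entry (n a).n (E a) (big (n a).n (E a)) i j p : ℤ) : ℚ)),
      ((big (n a).n (E a) : ℤ) : ℚ))) := by fun_prop
  exact this

end PT

/-- The number of variables of the quadratic system. -/
def redN (ts : List (ℕ × ℤ)) : Un := ((Un.mk 5).mul (ulen ts)).add ⟨1⟩

/-- The number of squarings. -/
def redK (ts : List (ℕ × ℤ)) : Un :=
  (((redN ts).add ((Un.mk 2).mul ((redN ts).mul (((Un.mk 4).mul (redN ts)).add ⟨1⟩)))).add
    (usz (hgt (system ts)))).add ⟨1⟩

/-- The number of variables of the homogeneous system. -/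
def redM (ts : List (ℕ × ℤ)) : Un := ((redN ts).add (redK ts)).add ⟨3⟩

/-- The reduction from ETR to TSV. -/
def red (ts : List (ℕ × ℤ)) : List (List (List ℚ)) × ℚ :=
  inst (redM ts).n (anti (redM ts).n ++ hom (redN ts).n (redK ts).n (system ts))

theorem red_PT : PT red := by
  have h0 := PT.system'
  have h1 : PT redN := by unfold redN; fun_prop
  have h2 : PT redK := by unfold redK; fun_prop
  have h3 : PT redM := by unfold redM; fun_prop
  exact PT.inst' h3 (PT.append (PT.anti' h3) (PT.hom' h1 h2 h0))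

theorem etr_enc (ts : List (ℕ × ℤ)) :
    ETR (bitEncode ts) = true ↔ ∃ φ, ts = formulaCode φ ∧ ∃ x, Holds x φ := by
  simp only [ETR, decide_eq_true_eq, bitEncode_injective.eq_iff]

theorem red_iff (ts : List (ℕ × ℤ)) :
    ETR (bitEncode ts) = true ↔ TSV (bitEncode (red ts)) = true := by
  have h1 : Bdd (redN ts).n (system ts) := system_bdd ts
  have h2 : Bdd (redM ts).n (hom (redN ts).n (redK ts).n (system ts)) := hom_bdd h1
  rw [etr_enc, red, inst_iff (anti_bdd h2), ← proj_iff_bil h2, ← system_iff]
  exact aff_iff_proj (Nat.succ_pos _) h1 (lt_two_pow_sz _).le rfl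

theorem etr_le_tsv : N793a5b8e.ManyOneReducible ETR TSV := by
  refine manyOne_of_PT (Chk.nat.prod Chk.int).list red_PT (red []) ?_ ?_ ?_
  · rw [Bool.eq_false_iff, Ne, ← red_iff, etr_enc]
    rintro ⟨φ, h, -⟩
    have := (wf_iff []).2 ⟨φ, h⟩
    simp [wf] at this
  · intro s hs
    simp only [ETR, decide_eq_true_eq] at hs
    obtain ⟨φ, h, -⟩ := hs
    exact ⟨_, h.symm⟩
  · intro ts
    exact Bool.eq_iff_iff.2 (red_iff ts)

end Pool.Agent.Lib.MP_acf5a6_lc
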