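import Pool.Agent.Lib.MP_acf5a6_lc.PT

/-!
Polynomial-time equality tests, unary numbers and binary arithmetic.
-/

set_option autoImplicit false
set_option linter.unusedSectionVars false

namespace Pool.Agent.Lib.MP_acf5a6_lc

open Function N487b59b3

theorem enc_nat (n : ℕ) : bitEncode n = n.bits := by
  change Computability.encodeNat n = n.bits
  unfold Computability.encodeNat
  induction n using Nat.binaryRec' with
  | zero => simp [Computability.encodeNum]
  | bit b n hn ih =>
    rw [Nat.bits_append_bit n b hn, ← ih, ← Num.ofNat'_eq, Num.ofNat'_bit, Num.ofNat'_eq]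
    rcases h : (n : Num) with _ | p
    · have : n = 0 := by
        have := congrArg (fun x : Num => (x : ℕ)) h
        simpa using this
      rw [hn this]
      rfl
    · cases b <;> rfl

theorem sz_nat (n : ℕ) : sz n = n.size := by
  rw [sz, enc_nat, Nat.size_eq_bits_len]

theorem size_le_self (n : ℕ) : n.size ≤ n := Nat.size_le.2 Nat.lt_two_pow_self

theorem sz_nat_mono {m n : ℕ} (h : m ≤ n) : sz m ≤ sz n := by
  rw [sz_nat, sz_nat]; exact Nat.size_le_size h

theorem sz_nat_le (n : ℕ) : sz n ≤ n := by rw [sz_nat]; exact size_le_self n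

theorem lt_two_pow_sz (n : ℕ) : n < 2 ^ sz n := by rw [sz_nat]; exact Nat.lt_size_self n

theorem sz_nat_add (m n : ℕ) : sz (m + n) ≤ sz m + sz n + 1 := by
  rw [sz_nat, Nat.size_le]
  have h1 := lt_two_pow_sz m
  have h2 := lt_two_pow_sz n
  have h3 : 2 ^ sz m ≤ 2 ^ (sz m + sz n) := Nat.pow_le_pow_right (by norm_num) (by omega)
  have h4 : 2 ^ sz n ≤ 2 ^ (sz m + sz n) := Nat.pow_le_pow_right (by norm_num) (by omega)
  rw [pow_succ]; omega

theorem sz_bit (b : Bool) (n : ℕ) : sz (Nat.bit b n) ≤ sz n + 1 := by
  rw [sz_nat, Nat.size_le]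
  have h1 := lt_two_pow_sz n
  rw [pow_succ]
  cases b <;> simp [Nat.bit] <;> omega

/-- The encoding of a value as a raw string. -/
def toRaw {α : Type} [N487b59b3 α] (a : α) : Raw := ⟨bitEncode a⟩

/-- The size of a value as a unary number. -/
def usz {α : Type} [N487b59b3 α] (a : α) : Un := ⟨sz a⟩

/-- The length of a list as a unary number. -/
def ulen {α : Type} (l : List α) : Un := ⟨l.length⟩

/-- Unary addition. -/
def Un.add (u v : Un) : Un := ⟨u.n + v.n⟩

/-- Unary multiplication. -/
def Un.mul (u v : Un) : Un := ⟨u.n * v.n⟩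

/-- The list of numbers below a unary number. -/
def urange (u : Un) : List ℕ := List.range u.n

namespace PT

variable {α β γ : Type} [N487b59b3 α] [N487b59b3 β] [N487b59b3 γ]

@[fun_prop] theorem toRaw' {f : α → β} (hf : PT f) : PT (fun a => toRaw (f a)) := hf

theorem rawCons {b : α → Bool} {f : α → Raw} (hb : PT b) (hf : PT f) :
    PT (fun a => Raw.mk (b a :: (f a).s)) :=
  (cond' hb (f := fun a => Raw.mk (true :: (f a).s)) (g := fun a => Raw.mk (false :: (f a).s))
    (Comp.cons true hf) (Comp.cons false hf)).of_eq (fun a => by cases b a <;> rfl)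

theorem rawTail {f : α → Raw} (hf : PT f) : PT (fun a => Raw.mk (f a).s.tail) := Comp.tail hf

theorem rawHead {f : α → Raw} (hf : PT f) : PT (fun a => (f a).s.headD false) := by
  refine Comp.case hf ?_ ?_ ?_
  · refine (Comp.const _ [false]).of_eq (fun a => ?_)
    have := a.2
    simp only [enc_raw] at this
    simp [this, enc_bool]
  · refine (Comp.const _ [false]).of_eq (fun a => ?_)
    have := a.2
    simp only [enc_raw] at this
    simp [this, enc_bool]
  · refine (Comp.const _ [true]).of_eq (fun a => ?_)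
    have := a.2
    simp only [enc_raw] at this
    simp [this, enc_bool]

theorem rawEmpty {f : α → Raw} (hf : PT f) : PT (fun a => (f a).s.isEmpty) := isEmpty_enc hf

@[fun_prop] theorem rawBits {f : α → Raw} (hf : PT f) : PT (fun a => (f a).s) := by
  let G : Raw × List Bool → Raw × List Bool := fun x =>
    cond x.1.s.isEmpty x (⟨x.1.s.tail⟩, x.1.s.headD false :: x.2)
  have key : ∀ (i : ℕ) (l c : List Bool),
      G^[i] (⟨l⟩, c) = (⟨l.drop i⟩, (l.take i).reverse ++ c) := by
    intro i
    induction i with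
    | zero => intro l c; rfl
    | succ i ih =>
      intro l c
      rw [Function.iterate_succ_apply]
      cases l with
      | nil => simpa [G] using ih [] c
      | cons b l => simpa [G] using ih l (b :: c)
  have hG : PT G := cond' (rawEmpty (by fun_prop)) id'
    (prodMk (rawTail (by fun_prop)) (cons (rawHead (by fun_prop)) (by fun_prop)))
  have h1 := iterA (g := fun _ : α => G) (h := fun a => (f a, [])) (c := f)
    (comp hG (by fun_prop)) (by fun_prop) hf (PB.const 3) (fun a x => by
      obtain ⟨⟨l⟩, c⟩ := x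
      cases l <;> simp [G]; omega)
  exact (reverse (snd h1)).of_eq (fun a => by
    have := key (sz (f a)) (f a).s []
    simp only [this]; simp)

@[fun_prop] theorem rawMk {f : α → List Bool} (hf : PT f) : PT (fun a => Raw.mk (f a)) := by
  have := foldlA (g := fun _ (c : Raw) (b : Bool) => Raw.mk (b :: c.s)) (h := fun _ => ⟨[]⟩)
    (l := fun a => (f a).reverse) (rawCons (by fun_prop) (by fun_prop)) (const _) (by fun_prop)
    (PB.const 1) (fun a c b => by simp)
  refine this.of_eq (fun a => ?_)
  rw [List.foldl_reverse]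
  induction f a with
  | nil => rfl
  | cons b l ih => simp [ih]

theorem eqBits {f g : α → List Bool} (hf : PT f) (hg : PT g) :
    PT (fun a => decide (f a = g a)) := by
  let G : List Bool × Bool → Bool → List Bool × Bool := fun s b =>
    (s.1.tail, s.2 && !s.1.isEmpty && !(xor b (s.1.headD false)))
  have h1 := foldlA (g := fun _ : α => G) (h := fun a => (g a, true)) (l := f)
    (by simp only [G]; fun_prop) (by fun_prop) hf (PB.const 0) (fun a c b => by
      obtain ⟨l, c⟩ := c
      have := sz_tail_le l
      simp [G]; omega)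
  refine (and' (snd h1) (isEmpty (fst h1))).of_eq (fun a => ?_)
  have : ∀ (l m : List Bool) (c : Bool),
      ((l.foldl G (m, c)).2 && (l.foldl G (m, c)).1.isEmpty) = (c && decide (l = m)) := by
    intro l
    induction l with
    | nil => intro m c; cases m <;> simp
    | cons b l ih =>
      intro m c
      rw [List.foldl_cons]
      simp only [G]
      rw [ih]
      cases m with
      | nil => simp
      | cons b' m => cases b <;> cases b' <;> cases c <;> simp
  simpa using this (f a) (g a) true

@[fun_prop] theorem decide_eq [DecidableEq β] {f g : α → β} (hf : PT f) (hg : PT g) :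
    PT (fun a => decide (f a = g a)) :=
  (eqBits (rawBits (toRaw' hf)) (rawBits (toRaw' hg))).of_eq (fun a => by
    simp [toRaw, bitEncode_injective.eq_iff])

theorem unSucc {f : α → Un} (hf : PT f) : PT (fun a => Un.mk ((f a).n + 1)) :=
  Comp.cons true hf

theorem unAddSz {f : α → Un} {c : α → β} (hf : PT f) (hc : PT c) :
    PT (fun a => Un.mk ((f a).n + sz (c a))) := by
  have h1 := iterA (g := fun (_ : α) (u : Un) => Un.mk (u.n + 1)) (h := f) (c := c)
    (unSucc (by fun_prop)) hf hc (PB.const 1) (fun a x => by simp)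
  refine h1.of_eq (fun a => ?_)
  induction sz (c a) with
  | zero => rfl
  | succ i ih => rw [Function.iterate_succ_apply', ih]; rfl

@[fun_prop] theorem usz' {c : α → β} (hc : PT c) : PT (fun a => usz (c a)) :=
  (unAddSz (const ⟨0⟩) hc).of_eq (fun a => by simp [usz])

@[fun_prop] theorem unAdd {f g : α → Un} (hf : PT f) (hg : PT g) :
    PT (fun a => (f a).add (g a)) :=
  (unAddSz hf hg).of_eq (fun a => by simp [Un.add])

@[fun_prop] theorem unMul {f g : α → Un} (hf : PT f) (hg : PT g) :
    PT (fun a => (f a).mul (g a)) := by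
  have h1 := iterA (g := fun (a : α) (u : Un) => u.add (g a)) (h := fun _ => ⟨0⟩) (c := f)
    (by fun_prop) (const _) hf (PB.of_PT hg) (fun a x => by simp [Un.add])
  refine h1.of_eq (fun a => ?_)
  rw [sz_un, Un.mul]
  induction (f a).n with
  | zero => simp
  | succ i ih => rw [Function.iterate_succ_apply', ih]; simp [Un.add, add_mul]

@[fun_prop] theorem ulen' {l : α → List β} (hl : PT l) : PT (fun a => ulen (l a)) := by
  have := foldlA (g := fun _ (c : Un) (_ : β) => Un.mk (c.n + 1)) (h := fun _ => ⟨0⟩)
    (l := l) (unSucc (by fun_prop)) (const _) hl (PB.const 1) (fun a c b => by simp)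
  refine this.of_eq (fun a => ?_)
  have : ∀ k, (l a).foldl (fun (c : Un) (_ : β) => Un.mk (c.n + 1)) ⟨k⟩ = ⟨k + (l a).length⟩ := by
    induction l a with
    | nil => simp
    | cons b l ih => intro k; simp [ih]; omega
  simpa [ulen] using this 0

@[fun_prop] theorem bodd {f : α → ℕ} (hf : PT f) : PT (fun a => (f a).bodd) :=
  (rawHead (toRaw' hf)).of_eq (fun a => by
    rw [Nat.bodd_eq_bits_head, toRaw, enc_nat]
    cases (f a).bits <;> rfl)

@[fun_prop] theorem div2 {f : α → ℕ} (hf : PT f) : PT (fun a => (f a).div2) :=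
  (Comp.tail hf).of_eq (fun a => by
    beta_reduce
    rw [enc_nat, enc_nat, Nat.div2_bits_eq_tail])

@[fun_prop] theorem bit {b : α → Bool} {f : α → ℕ} (hb : PT b) (hf : PT f) :
    PT (fun a => Nat.bit (b a) (f a)) := by
  have h1 : PT (fun a => cond (decide (f a = 0) && !(b a)) (toRaw (0 : ℕ))
      (Raw.mk (b a :: (toRaw (f a)).s))) :=
    cond' (by fun_prop) (const _) (rawCons hb (toRaw' hf))
  refine h1.of_enc (fun a => ?_)
  by_cases h : f a = 0 ∧ b a = false
  · simp [h.1, h.2, toRaw, enc_raw]
  · have h' : f a = 0 → b a = true := by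
      intro h0; by_contra hb; exact h ⟨h0, by simpa using hb⟩
    have h2 : (decide (f a = 0) && !(b a)) = false := by
      by_cases h0 : f a = 0
      · simp [h' h0]
      · simp [h0]
    rw [h2, enc_nat, Nat.bits_append_bit _ _ h']
    simp [toRaw, enc_raw, enc_nat]

@[fun_prop] theorem bits {f : α → ℕ} (hf : PT f) : PT (fun a => (f a).bits) :=
  (rawBits (toRaw' hf)).of_eq (fun a => by simp [toRaw, enc_nat])

theorem ofBitsM {l : α → List Bool} (hl : PT l) :
    PT (fun a => (l a).foldl (fun n b => Nat.bit b n) 0) :=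
  foldlA (g := fun _ (n : ℕ) (b : Bool) => Nat.bit b n) (h := fun _ => 0) (by fun_prop) (const _)
    hl (PB.const 1) (fun _ c b => sz_bit b c)

end PT

/-- Value of a bit list whose head is the most significant bit. -/
def valM : List Bool → ℕ
  | [] => 0
  | d :: l => d.toNat * 2 ^ l.length + valM l

theorem foldl_bit (l : List Bool) (c : ℕ) :
    l.foldl (fun n b => Nat.bit b n) c = c * 2 ^ l.length + valM l := by
  induction l generalizing c with
  | nil => simp [valM]
  | cons d l ih =>
    rw [List.foldl_cons, ih, valM, Nat.bit_val, List.length_cons]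
    ring

theorem valM_lt (l : List Bool) : valM l < 2 ^ l.length := by
  induction l with
  | nil => simp [valM]
  | cons d l ih => cases d <;> simp [valM, pow_succ] <;> omega

/-- One step of binary subtraction with borrow. -/
def subStep (x : (ℕ × ℕ) × Bool × List Bool) : (ℕ × ℕ) × Bool × List Bool :=
  ((x.1.1.div2, x.1.2.div2),
    ((!x.1.1.bodd && (x.1.2.bodd || x.2.1)) || (x.1.2.bodd && x.2.1)),
    xor (xor x.1.1.bodd x.1.2.bodd) x.2.1 :: x.2.2)

theorem subStep_iter (a b i : ℕ) : ∃ (c : Bool) (l : List Bool),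
    subStep^[i] ((a, b), false, []) = ((a / 2 ^ i, b / 2 ^ i), c, l) ∧ l.length = i ∧
      (a : ℤ) - b = (((a / 2 ^ i : ℕ) : ℤ) - (b / 2 ^ i : ℕ) - c.toNat) * 2 ^ i + valM l := by
  induction i with
  | zero => exact ⟨false, [], by simp, rfl, by simp [valM]⟩
  | succ i ih =>
    obtain ⟨c, l, h1, h2, h3⟩ := ih
    refine ⟨(!(a / 2 ^ i).bodd && ((b / 2 ^ i).bodd || c)) || ((b / 2 ^ i).bodd && c),
      xor (xor (a / 2 ^ i).bodd (b / 2 ^ i).bodd) c :: l, ?_, ?_, ?_⟩
    · rw [Function.iterate_succ_apply', h1]
      simp only [subStep, Nat.div2_val, Nat.div_div_eq_div_mul, pow_succ]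
    · simp [h2]
    · rw [h3, pow_succ, ← Nat.div_div_eq_div_mul, ← Nat.div_div_eq_div_mul]
      have ha := Nat.bodd_add_div2 (a / 2 ^ i)
      have hb := Nat.bodd_add_div2 (b / 2 ^ i)
      rw [Nat.div2_val] at ha hb
      generalize a / 2 ^ i = x at *
      generalize b / 2 ^ i = y at *
      have ha' : (x : ℤ) = (x.bodd.toNat : ℤ) + 2 * ((x / 2 : ℕ) : ℤ) := by exact_mod_cast ha.symm
      have hb' : (y : ℤ) = (y.bodd.toNat : ℤ) + 2 * ((y / 2 : ℕ) : ℤ) := by exact_mod_cast hb.symm
      generalize ((x / 2 : ℕ) : ℤ) = x' at *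
      generalize ((y / 2 : ℕ) : ℤ) = y' at *
      rw [ha', hb']
      simp only [valM, h2]
      cases x.bodd <;> cases y.bodd <;> cases c <;> simp <;> ring

/-- Binary subtraction run to the end. -/
def subRun (a b : ℕ) : (ℕ × ℕ) × Bool × List Bool := subStep^[sz (a, b)] ((a, b), false, [])

theorem subRun_spec (a b : ℕ) : (subRun a b).2.1 = decide (a < b) ∧
    (b ≤ a → valM (subRun a b).2.2 = a - b) := by
  obtain ⟨c, l, h1, h2, h3⟩ := subStep_iter a b (sz (a, b))
  have ha : a < 2 ^ sz (a, b) := (lt_two_pow_sz a).trans_le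
    (Nat.pow_le_pow_right (by norm_num) (by simp; omega))
  have hb : b < 2 ^ sz (a, b) := (lt_two_pow_sz b).trans_le
    (Nat.pow_le_pow_right (by norm_num) (by simp))
  rw [Nat.div_eq_of_lt ha, Nat.div_eq_of_lt hb] at h3
  have h4 := valM_lt l
  rw [h2] at h4
  rw [subRun, h1]
  have h5 : ((2 ^ sz (a, b) : ℕ) : ℤ) = 2 ^ sz (a, b) := by push_cast; rfl
  rw [← h5] at h3
  generalize 2 ^ sz (a, b) = M at *
  cases c
  · simp at h3 ⊢; omega
  · simp at h3 ⊢; omega

namespace PT

variable {α β γ : Type} [N487b59b3 α] [N487b59b3 β] [N487b59b3 γ]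

theorem subRun' {f g : α → ℕ} (hf : PT f) (hg : PT g) : PT (fun a => subRun (f a) (g a)) :=
  iterA (g := fun _ : α => subStep) (h := fun a => ((f a, g a), false, []))
    (c := fun a => (f a, g a)) (by unfold subStep; fun_prop) (by fun_prop) (by fun_prop)
    (PB.const 3) (fun a x => by
      obtain ⟨⟨u, v⟩, c, l⟩ := x
      have h1 := sz_nat_mono (Nat.div_le_self u 2)
      have h2 := sz_nat_mono (Nat.div_le_self v 2)
      simp [subStep, Nat.div2_val]; omega)

@[fun_prop] theorem decide_lt {f g : α → ℕ} (hf : PT f) (hg : PT g) :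
    PT (fun a => decide (f a < g a)) :=
  (fst (snd (subRun' hf hg))).of_eq (fun _ => (subRun_spec _ _).1)

@[fun_prop] theorem decide_le {f g : α → ℕ} (hf : PT f) (hg : PT g) :
    PT (fun a => decide (f a ≤ g a)) :=
  (not' (decide_lt hg hf)).of_eq (fun a => by by_cases h : f a ≤ g a <;> simp [h]; omega)

@[fun_prop] theorem natSub {f g : α → ℕ} (hf : PT f) (hg : PT g) : PT (fun a => f a - g a) :=
  (ite' (decide_lt hf hg) (const 0) (ofBitsM (snd (snd (subRun' hf hg))))).of_eq (fun a => by
    by_cases h : f a < g a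
    · rw [if_pos h]; omega
    · rw [if_neg h, foldl_bit, (subRun_spec _ _).2 (by omega)]; simp)

theorem twoPowSz {c : α → β} (hc : PT c) : PT (fun a => 2 ^ sz (c a)) := by
  have h1 := iterA (g := fun (_ : α) (n : ℕ) => Nat.bit false n) (h := fun _ => 1) (c := c)
    (by fun_prop) (const _) hc (PB.const 1) (fun a x => sz_bit _ _)
  refine h1.of_eq (fun a => ?_)
  induction sz (c a) with
  | zero => rfl
  | succ i ih => rw [Function.iterate_succ_apply', ih, Nat.bit_val]; simp; ring

@[fun_prop] theorem natAdd {f g : α → ℕ} (hf : PT f) (hg : PT g) : PT (fun a => f a + g a) := by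
  have h0 := twoPowSz (prodMk hf hg)
  refine (natSub h0 (natSub (natSub h0 hf) hg)).of_eq (fun a => ?_)
  have h1 := lt_two_pow_sz (f a + g a)
  have h2 : 2 ^ sz (f a + g a) ≤ 2 ^ sz (f a, g a) := Nat.pow_le_pow_right (by norm_num) (by
    have := sz_nat_add (f a) (g a)
    simp; omega)
  omega

@[fun_prop] theorem natMul {f g : α → ℕ} (hf : PT f) (hg : PT g) : PT (fun a => f a * g a) := by
  have h1 := foldlA (g := fun a (r : ℕ) (b : Bool) => Nat.bit false r + cond b (g a) 0)
    (h := fun _ => 0) (l := fun a => (f a).bits.reverse) (by fun_prop) (const _) (by fun_prop)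
    (B := fun x => sz (g x.1) + 2) ((PB.of_PT (by fun_prop)).add (PB.const 2)) (fun a c b => by
      have h1 := sz_nat_add (Nat.bit false c) (cond b (g a) 0)
      have h2 := sz_bit false c
      have h3 : sz (cond b (g a) 0) ≤ sz (g a) := sz_nat_mono (by cases b <;> simp)
      simp only; omega)
  refine h1.of_eq (fun a => ?_)
  rw [List.foldl_reverse]
  induction f a using Nat.binaryRec' with
  | zero => simp
  | bit b n hn ih =>
    rw [Nat.bits_append_bit n b hn, List.foldr_cons, ih]
    cases b <;> simp [Nat.bit_val] <;> ring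

@[fun_prop] theorem unN {u : α → Un} (hu : PT u) : PT (fun a => (u a).n) := by
  have h1 := iterA (g := fun (_ : α) (n : ℕ) => n + 1) (h := fun _ => 0) (c := u)
    (by fun_prop) (const _) hu (PB.const 2) (fun a x => by
      have := sz_nat_add x 1
      have h2 := sz_nat_le 1
      omega)
  refine h1.of_eq (fun a => ?_)
  rw [sz_un]
  induction (u a).n with
  | zero => rfl
  | succ i ih => rw [Function.iterate_succ_apply', ih]

@[fun_prop] theorem length {l : α → List β} (hl : PT l) : PT (fun a => (l a).length) :=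
  unN (ulen' hl)

@[fun_prop] theorem natSum {l : α → List ℕ} (hl : PT l) : PT (fun a => (l a).sum) := by
  have h1 := foldlA (g := fun (_ : α) (r b : ℕ) => r + b) (h := fun _ => 0) (l := l)
    (by fun_prop) (const _) hl (B := fun x => sz x.2 + 1)
    ((PB.of_PT (by fun_prop)).add (PB.const 1)) (fun a c b => sz_nat_add c b)
  exact h1.of_eq (fun a => (List.sum_eq_foldl).symm)

theorem sz_range (i : ℕ) : sz (List.range i) ≤ i * (2 * i + 1) := by
  induction i with
  | zero => simp
  | succ i ih =>
    have := sz_nat_le i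
    rw [List.range_succ, sz_append]
    simp only [sz_cons, sz_nil]
    nlinarith

@[fun_prop] theorem urange' {u : α → Un} (hu : PT u) : PT (fun a => urange (u a)) := by
  have key : ∀ i, (fun x : ℕ × List ℕ => (x.1 + 1, x.2 ++ [x.1]))^[i] (0, []) =
      (i, List.range i) := by
    intro i
    induction i with
    | zero => rfl
    | succ i ih => rw [Function.iterate_succ_apply', ih, List.range_succ]
  have hb := ((PB.const 2).mul (PB.of_PT hu)).add (PB.const 1)
  have h1 := iter (g := fun x : ℕ × List ℕ => (x.1 + 1, x.2 ++ [x.1])) (h := fun _ => (0, []))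
    (c := u) (by fun_prop) (const _) hu (hb.add ((PB.of_PT hu).mul hb)) (fun a i hi => by
      rw [key, sz_pair]
      have h1 := sz_range i
      have h2 := sz_nat_le i
      have h3 : i * (2 * i + 1) ≤ sz (u a) * (2 * sz (u a) + 1) :=
        Nat.mul_le_mul hi (by omega)
      omega)
  exact (snd h1).of_eq (fun a => by rw [key, sz_un, urange])

@[fun_prop] theorem zipIdx {l : α → List β} (hl : PT l) : PT (fun a => (l a).zipIdx) := by
  let G : List ℕ × List (β × ℕ) → β → List ℕ × List (β × ℕ) := fun s b =>
    (s.1.tail, s.2 ++ [(b, s.1.headD 0)])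
  have h1 := foldlA (g := fun _ : α => G) (h := fun a => (urange (ulen (l a)), [])) (l := l)
    (by simp only [G]; fun_prop) (by fun_prop) hl (B := fun x => 4 * sz x.2 + 3)
    (((PB.const 4).mul (PB.of_PT (by fun_prop))).add (PB.const 3)) (fun a c b => by
      obtain ⟨r, c⟩ := c
      cases r with
      | nil => simp [G, sz_nat]; omega
      | cons i r => simp [G]; omega)
  refine (snd h1).of_eq (fun a => ?_)
  have : ∀ (l : List β) (k : ℕ) (c : List (β × ℕ)),
      (l.foldl G (List.range' k l.length, c)).2 = c ++ l.zipIdx k := by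
    intro l
    induction l with
    | nil => simp
    | cons b l ih =>
      intro k c
      simp only [List.length_cons, List.range'_succ, List.foldl_cons, G, List.tail_cons,
        List.headD_cons]
      rw [ih]; simp
  simpa [urange, ulen, List.range_eq_range'] using this (l a) 0 []

theorem intPair {f : α → ℤ} (hf : PT f) : PT (fun a => ((f a).toNat, (-f a).toNat)) := hf

@[fun_prop] theorem toNat {f : α → ℤ} (hf : PT f) : PT (fun a => (f a).toNat) :=
  fst (intPair hf)

theorem negToNat {f : α → ℤ} (hf : PT f) : PT (fun a => (-f a).toNat) := snd (intPair hf)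

theorem intOfSub {f g : α → ℕ} (hf : PT f) (hg : PT g) : PT (fun a => (f a : ℤ) - g a) :=
  (prodMk (natSub hf hg) (natSub hg hf)).of_enc (fun a => by
    change _ = bitEncode (((f a : ℤ) - g a).toNat, (-((f a : ℤ) - g a)).toNat)
    congr 2 <;> omega)

@[fun_prop] theorem natCastInt {f : α → ℕ} (hf : PT f) : PT (fun a => (f a : ℤ)) :=
  (intOfSub hf (const 0)).of_eq (fun a => by simp)

@[fun_prop] theorem intNeg {f : α → ℤ} (hf : PT f) : PT (fun a => -f a) :=
  (intOfSub (negToNat hf) (toNat hf)).of_eq (fun a => by omega)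

@[fun_prop] theorem natAbs {f : α → ℤ} (hf : PT f) : PT (fun a => (f a).natAbs) :=
  (natAdd (negToNat hf) (toNat hf)).of_eq (fun a => by omega)

@[fun_prop] theorem intAdd {f g : α → ℤ} (hf : PT f) (hg : PT g) : PT (fun a => f a + g a) :=
  (intOfSub (natAdd (toNat hf) (toNat hg)) (natAdd (negToNat hf) (negToNat hg))).of_eq
    (fun a => by omega)

@[fun_prop] theorem intSub {f g : α → ℤ} (hf : PT f) (hg : PT g) : PT (fun a => f a - g a) :=
  (intAdd hf (intNeg hg)).of_eq (fun a => by ring)

@[fun_prop] theorem intMul {f g : α → ℤ} (hf : PT f) (hg : PT g) : PT (fun a => f a * g a) :=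
  (intOfSub (natAdd (natMul (toNat hf) (toNat hg)) (natMul (negToNat hf) (negToNat hg)))
    (natAdd (natMul (toNat hf) (negToNat hg)) (natMul (negToNat hf) (toNat hg)))).of_eq
    (fun a => by
      have h1 := Int.toNat_sub_toNat_neg (f a)
      have h2 := Int.toNat_sub_toNat_neg (g a)
      push_cast
      conv_rhs => rw [← h1, ← h2]
      ring)

@[fun_prop] theorem intSum {l : α → List ℤ} (hl : PT l) : PT (fun a => (l a).sum) :=
  (intOfSub (natSum (map (f := fun _ (z : ℤ) => z.toNat) (by fun_prop) hl))
    (natSum (map (f := fun _ (z : ℤ) => (-z).toNat) (by fun_prop) hl))).of_eq (fun a => by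
      induction l a with
      | nil => simp
      | cons z l ih =>
        simp only [List.map_cons, List.sum_cons, ← ih]
        omega)

theorem ratPair {f : α → ℚ} (hf : PT f) : PT (fun a => ((f a).num, (f a).den)) := hf

@[fun_prop] theorem ratNum {f : α → ℚ} (hf : PT f) : PT (fun a => (f a).num) := fst (ratPair hf)

@[fun_prop] theorem ratDen {f : α → ℚ} (hf : PT f) : PT (fun a => (f a).den) := snd (ratPair hf)

@[fun_prop] theorem intCastRat {f : α → ℤ} (hf : PT f) : PT (fun a => (f a : ℚ)) :=
  (prodMk hf (const (1 : ℕ))).of_enc (fun a => by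
    change _ = bitEncode (((f a : ℚ)).num, ((f a : ℚ)).den)
    simp)

end PT

end Pool.Agent.Lib.MP_acf5a6_lc
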