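import Pool.Agent.Lib.MP_acf5a6_lc.Pencil

/-!
A nonnegative integer quartic with a real zero has a real zero of doubly exponential size.
-/

set_option autoImplicit false

namespace Pool.Agent.Lib.MP_acf5a6_lc

open Filter Topology Function

variable {n : ℕ}

/-- A monomial function. -/
def mon (α : Fin n → ℕ) (x : Fin n → ℝ) : ℝ := ∏ i, x i ^ α i

theorem mon_add (α β : Fin n → ℕ) (x : Fin n → ℝ) : mon (α + β) x = mon α x * mon β x := by
  simp [mon, pow_add, Finset.prod_mul_distrib]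

theorem mon_single (i : Fin n) (k : ℕ) (x : Fin n → ℝ) : mon (Pi.single i k) x = x i ^ k := by
  rw [mon, Finset.prod_eq_single i]
  · simp
  · intro j _ hj; simp [Pi.single_eq_of_ne hj]
  · simp

theorem mon_update (α : Fin n → ℕ) (x : Fin n → ℝ) (i : Fin n) (t : ℝ) :
    mon α (update x i t) = t ^ α i * ∏ k ∈ Finset.univ.erase i, x k ^ α k := by
  rw [mon, ← Finset.mul_prod_erase _ _ (Finset.mem_univ i), update_self]
  congr 1
  exact Finset.prod_congr rfl (fun k hk => by rw [update_of_ne (Finset.ne_of_mem_erase hk)])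

/-- Integer polynomial functions of degree at most `d` and total coefficient size at most `b`. -/
inductive Rep (d : ℕ) : ((Fin n → ℝ) → ℝ) → ℕ → Prop
  | zero (b : ℕ) : Rep d (fun _ => 0) b
  | add (c : ℤ) (α : Fin n → ℕ) {f : (Fin n → ℝ) → ℝ} {b : ℕ} : ∑ i, α i ≤ d →
      Rep d f b → Rep d (fun x => c * mon α x + f x) (c.natAbs + b)

namespace Rep

theorem congr {d b : ℕ} {f g : (Fin n → ℝ) → ℝ} (h : Rep d f b) (e : ∀ x, f x = g x) :
    Rep d g b := by
  have : f = g := funext e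
  rwa [← this]

theorem mono {d d' b b' : ℕ} {f : (Fin n → ℝ) → ℝ} (h : Rep d f b) (hd : d ≤ d') (hb : b ≤ b') :
    Rep d' f b' := by
  induction h generalizing b' with
  | zero b => exact zero _
  | @add c α f b hα _ ih =>
    have : b' = c.natAbs + (b' - c.natAbs) := by omega
    rw [this]
    exact add c α (hα.trans hd) (ih (by omega))

theorem monomial (c : ℤ) (α : Fin n → ℕ) :
    Rep (∑ i, α i) (fun x => c * mon α x) c.natAbs := by
  simpa using add c α le_rfl (zero 0)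

theorem const (c : ℤ) : Rep 0 (fun _ : Fin n → ℝ => (c : ℝ)) c.natAbs := by
  simpa [mon] using monomial c (0 : Fin n → ℕ)

theorem coord (i : Fin n) : Rep 1 (fun x => x i) 1 := by
  simpa [mon_single] using monomial 1 (Pi.single i 1)

theorem add' {d a b : ℕ} {f g : (Fin n → ℝ) → ℝ} (hf : Rep d f a) (hg : Rep d g b) :
    Rep d (fun x => f x + g x) (a + b) := by
  induction hf with
  | zero a => simpa using hg.mono le_rfl (by omega)
  | add c α hα _ ih =>
    rw [add_assoc]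
    exact (add c α hα ih).congr (fun x => by ring)

theorem mon_mul (c : ℤ) (α : Fin n → ℕ) {d e b : ℕ} (hα : ∑ i, α i ≤ d) {g : (Fin n → ℝ) → ℝ}
    (hg : Rep e g b) : Rep (d + e) (fun x => c * mon α x * g x) (c.natAbs * b) := by
  induction hg with
  | zero b => simpa using zero _
  | add c' α' hα' _ ih =>
    rw [mul_add, ← Int.natAbs_mul]
    refine (add (c * c') (α + α') ?_ ih).congr (fun x => ?_)
    · simp only [Pi.add_apply, Finset.sum_add_distrib]; omega
    · rw [mon_add]; push_cast; ring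

theorem mul {d e a b : ℕ} {f g : (Fin n → ℝ) → ℝ} (hf : Rep d f a) (hg : Rep e g b) :
    Rep (d + e) (fun x => f x * g x) (a * b) := by
  induction hf with
  | zero a => simpa using zero _
  | add c α hα _ ih =>
    rw [add_mul]
    exact ((mon_mul c α hα hg).add' ih).congr (fun x => by ring)

theorem neg {d a : ℕ} {f : (Fin n → ℝ) → ℝ} (hf : Rep d f a) : Rep d (fun x => -f x) a := by
  simpa using (const (-1)).mul hf

theorem continuous {d a : ℕ} {f : (Fin n → ℝ) → ℝ} (hf : Rep d f a) : Continuous f := by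
  induction hf with
  | zero a => exact continuous_const
  | add c α _ _ ih =>
    refine Continuous.add (continuous_const.mul ?_) ih
    unfold mon
    fun_prop

theorem deriv {d a : ℕ} {f : (Fin n → ℝ) → ℝ} (hf : Rep (d + 1) f a) (i : Fin n) :
    ∃ g, Rep d g ((d + 1) * a) ∧
      ∀ x, HasDerivAt (fun t => f (update x i t)) (g x) (x i) := by
  induction hf with
  | zero a => exact ⟨_, zero _, fun x => hasDerivAt_const _ _⟩
  | @add c α f b hα _ ih =>
    obtain ⟨g, hg, hg'⟩ := ih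
    have hd : ∀ x : Fin n → ℝ, HasDerivAt (fun t => mon α (update x i t))
        ((α i : ℝ) * mon (update α i (α i - 1)) x) (x i) := by
      intro x
      simp only [mon_update]
      have e : mon (update α i (α i - 1)) x =
          x i ^ (α i - 1) * ∏ k ∈ Finset.univ.erase i, x k ^ α k := by
        rw [mon, ← Finset.mul_prod_erase _ _ (Finset.mem_univ i), update_self]
        congr 1
        exact Finset.prod_congr rfl
          (fun k hk => by rw [update_of_ne (Finset.ne_of_mem_erase hk)])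
      rw [e, ← mul_assoc]
      exact (hasDerivAt_pow (α i) (x i)).mul_const _
    have hi : α i ≤ ∑ k, α k := Finset.single_le_sum (fun _ _ => Nat.zero_le _) (Finset.mem_univ i)
    by_cases h0 : α i = 0
    · refine ⟨g, hg.mono le_rfl (Nat.mul_le_mul_left _ (by omega)), fun x => ?_⟩
      have := ((hd x).const_mul (c : ℝ)).add (hg' x)
      rw [h0, Nat.cast_zero, zero_mul, mul_zero, zero_add] at this
      exact this
    · have hs : ∑ k, update α i (α i - 1) k ≤ d := by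
        rw [Finset.sum_update_of_mem (Finset.mem_univ i)]
        rw [← Finset.add_sum_erase _ _ (Finset.mem_univ i), Finset.erase_eq] at hα
        omega
      refine ⟨_, (add (c * α i) _ hs hg).mono le_rfl ?_, fun x => ?_⟩
      · rw [Int.natAbs_mul, Int.natAbs_natCast]
        have : c.natAbs * α i ≤ c.natAbs * (d + 1) := Nat.mul_le_mul_left _ (hi.trans hα)
        nlinarith
      · have := ((hd x).const_mul (c : ℝ)).add (hg' x)
        rw [← mul_assoc] at this
        push_cast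
        exact this

end Rep

/-- Exponent vectors of total degree at most `D`. -/
abbrev Idx (n D : ℕ) : Type := {α : Fin n → Fin (D + 1) // ∑ i, (α i : ℕ) ≤ D}

/-- The monomial of an exponent vector. -/
def Idx.val {D : ℕ} (α : Idx n D) (x : Fin n → ℝ) : ℝ := mon (fun i => (α.1 i : ℕ)) x

theorem Rep.vec {D a : ℕ} {f : (Fin n → ℝ) → ℝ} (hf : Rep D f a) :
    ∃ r : Idx n D → ℤ, (∀ β, (r β).natAbs ≤ a) ∧ ∀ x, f x = ∑ β, (r β : ℝ) * β.val x := by
  induction hf with
  | zero a => exact ⟨0, by simp, by simp⟩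
  | @add c α f b hα _ ih =>
    obtain ⟨r, hr, hr'⟩ := ih
    have hi : ∀ i, α i < D + 1 := fun i => Nat.lt_succ_of_le
      ((Finset.single_le_sum (fun _ _ => Nat.zero_le _) (Finset.mem_univ i)).trans hα)
    let β₀ : Idx n D := ⟨fun i => ⟨α i, hi i⟩, hα⟩
    refine ⟨fun β => (if β = β₀ then c else 0) + r β, fun β => ?_, fun x => ?_⟩
    · refine (Int.natAbs_add_le _ _).trans (Nat.add_le_add ?_ (hr β))
      split_ifs <;> simp
    · push_cast
      simp only [add_mul, Finset.sum_add_distrib, ← hr', ite_mul, zero_mul, Finset.sum_ite_eq',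
        Finset.mem_univ, if_true]
      rfl

theorem rows {P : Fin n → (Fin n → ℝ) → ℝ} {h : ℕ} (hP : ∀ i, Rep 3 (P i) h) (j : Fin n)
    (α : Idx n (4 * n)) : ∃ ra rb : Idx n (4 * n) → ℤ, (∀ β, (ra β).natAbs ≤ 1) ∧
      (∀ β, (rb β).natAbs ≤ h) ∧ ∀ (x : Fin n → ℝ) (s : ℝ), (∀ i, x i ^ 5 = s * P i x) →
        x j * α.val x = ∑ β, (ra β : ℝ) * β.val x + s * ∑ β, (rb β : ℝ) * β.val x := by
  obtain ⟨α, hα⟩ := α
  let γ : Fin n → ℕ := Pi.single j 1 + fun i => (α i : ℕ)
  have hγ : ∑ i, γ i = 1 + ∑ i, (α i : ℕ) := by simp [γ, Finset.sum_add_distrib]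
  have hx : ∀ x : Fin n → ℝ, x j * Idx.val ⟨α, hα⟩ x = mon γ x := by
    intro x; simp only [γ, mon_add, mon_single, pow_one]; rfl
  by_cases hD : ∑ i, γ i ≤ 4 * n
  · obtain ⟨r, hr, hr'⟩ := ((Rep.monomial 1 γ).mono hD le_rfl).vec
    refine ⟨r, 0, hr, by simp, fun x s _ => ?_⟩
    rw [hx, ← hr']; simp
  · have : ∃ i, 5 ≤ γ i := by
      by_contra hc
      push Not at hc
      have : ∑ i, γ i ≤ ∑ _i : Fin n, 4 := Finset.sum_le_sum (fun i _ => by have := hc i; omega)
      simp at this; omega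
    obtain ⟨i, hi⟩ := this
    let δ : Fin n → ℕ := update γ i (γ i - 5)
    have e : γ = Pi.single i 5 + δ := by
      funext k
      by_cases hk : k = i
      · subst hk; simp [δ]; omega
      · simp [δ, hk]
    have hδ : ∑ k, δ k + 3 ≤ 4 * n := by
      have := congrArg (fun f : Fin n → ℕ => ∑ k, f k) e
      simp [Finset.sum_add_distrib] at this
      omega
    obtain ⟨r, hr, hr'⟩ := (((Rep.monomial 1 δ).mul (hP i)).mono hδ le_rfl).vec
    refine ⟨0, r, by simp, by simpa using hr, fun x s hs => ?_⟩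
    rw [hx, ← hr', e, mon_add, mon_single, hs]; simp; ring

theorem card_idx (n D : ℕ) : Fintype.card (Idx n D) ≤ (D + 1) ^ n := by
  refine (Fintype.card_subtype_le _).trans ?_
  simp

theorem crit {F : (Fin n → ℝ) → ℝ} (hc : Continuous F) (h0 : ∀ x, 0 ≤ F x)
    {P : Fin n → (Fin n → ℝ) → ℝ}
    (hP : ∀ i x, HasDerivAt (fun t => F (update x i t)) (P i x) (x i))
    {x₀ : Fin n → ℝ} (hx₀ : F x₀ = 0) {s : ℝ} (hs : 0 < s) :
    ∃ x : Fin n → ℝ, ‖x‖ ≤ ∑ i, x₀ i ^ 6 + 1 ∧ F x ≤ (6 * s)⁻¹ * ∑ i, x₀ i ^ 6 ∧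
      ∀ i, x i ^ 5 = s * -P i x := by
  have ht : 0 < (6 * s)⁻¹ := by positivity
  have hG : ∀ x : Fin n → ℝ, 0 ≤ ∑ i, x i ^ 6 := fun x => by positivity
  have hnorm : ∀ x : Fin n → ℝ, ‖x‖ ≤ ∑ i, x i ^ 6 + 1 := by
    intro x
    refine (pi_norm_le_iff_of_nonneg (by have := hG x; positivity)).2 (fun i => ?_)
    have h1 : x i ^ 6 ≤ ∑ i, x i ^ 6 :=
      Finset.single_le_sum (f := fun i => x i ^ 6) (fun _ _ => by positivity) (Finset.mem_univ i)
    have h2 : |x i| ≤ |x i| ^ 6 + 1 := by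
      rcases le_total |x i| 1 with h | h
      · have : 0 ≤ |x i| ^ 6 := by positivity
        linarith
      · have := le_self_pow₀ h (by norm_num : 6 ≠ 0)
        linarith
    rw [Real.norm_eq_abs]
    rw [Even.pow_abs (by decide)] at h2
    linarith
  let g : (Fin n → ℝ) → ℝ := fun x => F x + (6 * s)⁻¹ * ∑ i, x i ^ 6
  have hg : Continuous g := by simp only [g]; fun_prop
  obtain ⟨x, hx⟩ := hg.exists_forall_le' x₀ (by
    filter_upwards [(isCompact_closedBall (0 : Fin n → ℝ) (∑ i, x₀ i ^ 6 + 1)).compl_mem_cocompact]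
      with y hy
    simp only [Set.mem_compl_iff, mem_closedBall_zero_iff, not_le] at hy
    have h1 := hnorm y
    have h2 := h0 y
    have h3 : (6 * s)⁻¹ * ∑ i, x₀ i ^ 6 ≤ (6 * s)⁻¹ * ∑ i, y i ^ 6 :=
      mul_le_mul_of_nonneg_left (by linarith) ht.le
    simp only [g, hx₀]
    linarith)
  have h1 := hx x₀
  simp only [g, hx₀, zero_add] at h1
  have h2 : (6 * s)⁻¹ * ∑ i, x i ^ 6 ≤ (6 * s)⁻¹ * ∑ i, x₀ i ^ 6 := by have := h0 x; linarith
  have h3 := le_of_mul_le_mul_left h2 ht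
  refine ⟨x, by have := hnorm x; linarith, ?_, fun i => ?_⟩
  · have := mul_nonneg ht.le (hG x); linarith
  · have hmin : IsLocalMin (fun t => g (update x i t)) (x i) :=
      Filter.Eventually.of_forall (fun t => by simpa using hx (update x i t))
    have e : ∀ t, ∑ k, update x i t k ^ 6 = t ^ 6 + ∑ k ∈ Finset.univ.erase i, x k ^ 6 := by
      intro t
      rw [← Finset.add_sum_erase _ _ (Finset.mem_univ i), update_self]
      congr 1
      exact Finset.sum_congr rfl (fun k hk => by rw [update_of_ne (Finset.ne_of_mem_erase hk)])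
    have hd : HasDerivAt (fun t => g (update x i t))
        (P i x + (6 * s)⁻¹ * (((6 : ℕ) : ℝ) * x i ^ (6 - 1))) (x i) := by
      simp only [g, e]
      exact (hP i x).add (((hasDerivAt_pow 6 (x i)).add_const _).const_mul _)
    have := hmin.hasDerivAt_eq_zero hd
    have h4 : P i x = -(s⁻¹ * x i ^ 5) := by
      rw [eq_neg_iff_add_eq_zero, ← this]; push_cast; field_simp
    rw [h4]; field_simp

theorem ball {F : (Fin n → ℝ) → ℝ} {H : ℕ} (hF : Rep 4 F H) (h0 : ∀ x, 0 ≤ F x)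
    {x₀ : Fin n → ℝ} (hx₀ : F x₀ = 0) :
    ∃ x, F x = 0 ∧
      ∀ j, |x j| ≤ (((4 * n + 1) ^ n * (4 * H + 2)) ^ ((4 * n + 1) ^ n) : ℕ) + 1 := by
  choose P hP hP' using hF.deriv (d := 3)
  have hs : ∀ m : ℕ, (0 : ℝ) < m + 1 := fun m => by positivity
  choose x hx1 hx2 hx3 using fun m : ℕ => crit hF.continuous h0 hP' hx₀ (hs m)
  obtain ⟨y, -, φ, hφ, hy⟩ :=
    (isCompact_closedBall (0 : Fin n → ℝ) (∑ i, x₀ i ^ 6 + 1)).tendsto_subseq (x := x)
      (fun m => mem_closedBall_zero_iff.2 (hx1 m))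
  have hinf : Tendsto (fun m => (φ m : ℝ) + 1) atTop atTop :=
    tendsto_atTop_add_const_right _ _ (tendsto_natCast_atTop_atTop.comp hφ.tendsto_atTop)
  refine ⟨y, le_antisymm ?_ (h0 y), fun j => ?_⟩
  · have h1 := (hF.continuous.tendsto y).comp hy
    have h2 : Tendsto (fun m => (6 * ((φ m : ℝ) + 1))⁻¹ * ∑ i, x₀ i ^ 6) atTop (𝓝 0) := by
      simpa using (hinf.const_mul_atTop (by norm_num : (0 : ℝ) < 6)).inv_tendsto_atTop.mul_const
        (∑ i, x₀ i ^ 6)
    exact le_of_tendsto_of_tendsto' h1 h2 (fun m => hx2 (φ m))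
  · choose A B hA hB hAB using rows (fun i => (hP i).neg) j
    have h1 := pencil (I := Idx n (4 * n)) A B hA hB (lam := fun m => x (φ m) j)
      (s := fun m => (φ m : ℝ) + 1) (((continuous_apply j).tendsto y).comp hy) hinf
      (fun m => (hs _).ne') (fun m => ⟨fun β => β.val (x (φ m)), fun h => by
        have := congrFun h ⟨0, by simp⟩
        simp [Idx.val, mon] at this, fun a => hAB a _ _ (hx3 (φ m))⟩)
    refine h1.trans ?_
    have h2 := card_idx n (4 * n)
    generalize Fintype.card (Idx n (4 * n)) = N at h2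
    have h3 : N.factorial * ((3 + 1) * H + 2) ^ N ≤
        ((4 * n + 1) ^ n * (4 * H + 2)) ^ ((4 * n + 1) ^ n) := by
      calc N.factorial * ((3 + 1) * H + 2) ^ N ≤ N ^ N * (4 * H + 2) ^ N :=
            Nat.mul_le_mul_right _ N.factorial_le_pow
        _ = (N * (4 * H + 2)) ^ N := (mul_pow _ _ _).symm
        _ ≤ ((4 * n + 1) ^ n * (4 * H + 2)) ^ N :=
            Nat.pow_le_pow_left (Nat.mul_le_mul_right _ h2) _
        _ ≤ _ := Nat.pow_le_pow_right (by positivity) h2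
    exact add_le_add_left (Nat.cast_le.2 h3) _

theorem ball' {F : (Fin n → ℝ) → ℝ} {H b : ℕ} (hF : Rep 4 F H) (h0 : ∀ x, 0 ≤ F x)
    {x₀ : Fin n → ℝ} (hx₀ : F x₀ = 0) (hb : 4 * H + 2 ≤ 2 ^ b) :
    ∃ x, F x = 0 ∧ ∑ j, x j ^ 2 ≤ ((2 : ℝ) ^ 2 ^ (n + 2 * (n * (4 * n + 1)) + b + 1)) ^ 2 := by
  obtain ⟨x, hx, hx'⟩ := ball hF h0 hx₀
  refine ⟨x, hx, ?_⟩
  set a := n * (4 * n + 1) with ha
  have h1 : (4 * n + 1) ^ n ≤ 2 ^ a := by
    rw [ha, mul_comm n, pow_mul]
    exact Nat.pow_le_pow_left Nat.lt_two_pow_self.le _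
  generalize (4 * n + 1) ^ n = N at hx' h1
  have h2 : (N * (4 * H + 2)) ^ N + 1 ≤ 2 ^ ((a + b) * 2 ^ a + 1) := by
    have : (N * (4 * H + 2)) ^ N ≤ 2 ^ ((a + b) * 2 ^ a) :=
      calc (N * (4 * H + 2)) ^ N ≤ (2 ^ (a + b)) ^ N :=
            Nat.pow_le_pow_left (by rw [pow_add]; exact Nat.mul_le_mul h1 hb) _
        _ ≤ (2 ^ (a + b)) ^ 2 ^ a := Nat.pow_le_pow_right (by positivity) h1
        _ = _ := (pow_mul _ _ _).symm
    have h3 : 1 ≤ 2 ^ ((a + b) * 2 ^ a) := Nat.one_le_two_pow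
    rw [pow_succ]; omega
  have h3 : n * 2 ^ ((a + b) * 2 ^ a + 1) ≤ 2 ^ 2 ^ (n + 2 * a + b + 1) := by
    calc n * 2 ^ ((a + b) * 2 ^ a + 1) ≤ 2 ^ n * 2 ^ ((a + b) * 2 ^ a + 1) :=
          Nat.mul_le_mul_right _ Nat.lt_two_pow_self.le
      _ = 2 ^ (n + ((a + b) * 2 ^ a + 1)) := (pow_add _ _ _).symm
      _ ≤ _ := Nat.pow_le_pow_right (by norm_num) ?_
    have h4 : 1 ≤ 2 ^ a := Nat.one_le_two_pow
    calc n + ((a + b) * 2 ^ a + 1) ≤ (n + a + b + 1) * 2 ^ a := by nlinarith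
      _ ≤ 2 ^ (n + a + b + 1) * 2 ^ a := Nat.mul_le_mul_right _ Nat.lt_two_pow_self.le
      _ = _ := by rw [← pow_add]; congr 1; ring
  set R : ℕ := 2 ^ ((a + b) * 2 ^ a + 1)
  have h4 : ∀ j, x j ^ 2 ≤ (R : ℝ) ^ 2 := by
    intro j
    have : |x j| ≤ R := (hx' j).trans (by exact_mod_cast h2)
    rw [← sq_abs]
    exact pow_le_pow_left₀ (abs_nonneg _) this 2
  calc ∑ j, x j ^ 2 ≤ ∑ _j : Fin n, (R : ℝ) ^ 2 := Finset.sum_le_sum (fun j _ => h4 j)
    _ = ((n * R ^ 2 : ℕ) : ℝ) := by simp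
    _ ≤ (((n * R) ^ 2 : ℕ) : ℝ) := by
        rw [Nat.cast_le, mul_pow]
        exact Nat.mul_le_mul_right _ (Nat.le_self_pow (by norm_num) n)
    _ ≤ (((2 ^ 2 ^ (n + 2 * a + b + 1)) ^ 2 : ℕ) : ℝ) := by
        rw [Nat.cast_le]; exact Nat.pow_le_pow_left h3 2
    _ = _ := by push_cast; rfl

end Pool.Agent.Lib.MP_acf5a6_lc
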