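import Pool.Agent.Lib.MP_acf5a6_lc.Machine

/-!
Closure properties of polynomial-time computability at the level of bit strings.
-/

set_option autoImplicit false
set_option linter.unusedSectionVars false

namespace Pool.Agent.Lib.MP_acf5a6_lc

open Function N487b59b3

theorem eval_mono (q : Polynomial ℕ) {a b : ℕ} (h : a ≤ b) : q.eval a ≤ q.eval b := by
  induction q using Polynomial.induction_on' with
  | add p q hp hq => simp only [Polynomial.eval_add]; omega
  | monomial n c =>
    simp only [Polynomial.eval_monomial]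
    exact Nat.mul_le_mul_left _ (Nat.pow_le_pow_left h _)

theorem Exec.length_le {K : Type} [DecidableEq K] {p : Prog K} {s s' : K → List Bool} {t : ℕ}
    (h : Exec p s s' t) : ∀ k, (s' k).length ≤ (s k).length + t := by
  induction h with
  | skip s => intro k; omega
  | push k b s =>
    intro j
    by_cases hj : j = k
    · subst hj; simp
    · simp [update_of_ne hj]
  | pop k s =>
    intro j
    by_cases hj : j = k
    · subst hj; simp; omega
    · simp [update_of_ne hj]
  | seq _ _ ih₁ ih₂ => intro k; have := ih₁ k; have := ih₂ k; omega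
  | caseN _ _ ih => intro k; have := ih k; omega
  | caseF _ _ ih => intro k; have := ih k; omega
  | caseT _ _ ih => intro k; have := ih k; omega
  | loopN _ => intro k; omega
  | loopC _ _ _ ih₁ ih₂ => intro k; have := ih₁ k; have := ih₂ k; omega
  | mono _ ht ih => intro k; have := ih k; omega

theorem Exec.frame {K J : Type} [DecidableEq K] [DecidableEq J] {ρ : K → J} (hρ : Injective ρ)
    {p : Prog K} {s s' : K → List Bool} {t : ℕ} (h : Exec p s s' t) :
    ∀ S : J → List Bool, (∀ k, S (ρ k) = s k) →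
      ∃ S', Exec (p.map ρ) S S' t ∧ (∀ k, S' (ρ k) = s' k) ∧
        ∀ j, (∀ k, ρ k ≠ j) → S' j = S j := by
  induction h with
  | skip s => intro S hS; exact ⟨S, Exec.skip S, hS, fun _ _ => rfl⟩
  | push k b s =>
    intro S hS
    refine ⟨_, Exec.push (ρ k) b S, fun j => ?_, fun j hj => update_of_ne (hj k).symm _ _⟩
    by_cases hj : j = k
    · subst hj; simp [hS]
    · rw [update_of_ne (hρ.ne hj), update_of_ne hj, hS]
  | pop k s =>
    intro S hS
    refine ⟨_, Exec.pop (ρ k) S, fun j => ?_, fun j hj => update_of_ne (hj k).symm _ _⟩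
    by_cases hj : j = k
    · subst hj; simp [hS]
    · rw [update_of_ne (hρ.ne hj), update_of_ne hj, hS]
  | seq _ _ ih₁ ih₂ =>
    intro S hS
    obtain ⟨S₁, e₁, h₁, g₁⟩ := ih₁ S hS
    obtain ⟨S₂, e₂, h₂, g₂⟩ := ih₂ S₁ h₁
    exact ⟨S₂, Exec.seq e₁ e₂, h₂, fun j hj => (g₂ j hj).trans (g₁ j hj)⟩
  | caseN hk _ ih =>
    intro S hS
    obtain ⟨S₁, e₁, h₁, g₁⟩ := ih S hS
    exact ⟨S₁, Exec.caseN (by rw [hS]; exact hk) e₁, h₁, g₁⟩
  | caseF hk _ ih =>
    intro S hS
    obtain ⟨S₁, e₁, h₁, g₁⟩ := ih S hS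
    exact ⟨S₁, Exec.caseF (by rw [hS]; exact hk) e₁, h₁, g₁⟩
  | caseT hk _ ih =>
    intro S hS
    obtain ⟨S₁, e₁, h₁, g₁⟩ := ih S hS
    exact ⟨S₁, Exec.caseT (by rw [hS]; exact hk) e₁, h₁, g₁⟩
  | loopN hk => intro S hS; exact ⟨S, Exec.loopN (by rw [hS]; exact hk), hS, fun _ _ => rfl⟩
  | loopC hk _ _ ih₁ ih₂ =>
    intro S hS
    obtain ⟨S₁, e₁, h₁, g₁⟩ := ih₁ S hS
    obtain ⟨S₂, e₂, h₂, g₂⟩ := ih₂ S₁ h₁
    exact ⟨S₂, Exec.loopC (by rw [hS]; exact hk) e₁ e₂, h₂,
      fun j hj => (g₂ j hj).trans (g₁ j hj)⟩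
  | mono _ ht ih =>
    intro S hS
    obtain ⟨S₁, e₁, h₁, g₁⟩ := ih S hS
    exact ⟨S₁, e₁.mono ht, h₁, g₁⟩

/-- Four working registers and empty scratch registers. -/
def mk {K : Type} (a b c d : List Bool) : Fin 4 ⊕ K → List Bool :=
  Sum.elim ![a, b, c, d] (fun _ => [])

section mk

variable {K : Type} [DecidableEq K] (a b c d x : List Bool)

@[simp] theorem mk_0 : (mk a b c d : Fin 4 ⊕ K → _) (.inl 0) = a := rfl
@[simp] theorem mk_1 : (mk a b c d : Fin 4 ⊕ K → _) (.inl 1) = b := rfl
@[simp] theorem mk_2 : (mk a b c d : Fin 4 ⊕ K → _) (.inl 2) = c := rfl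
@[simp] theorem mk_3 : (mk a b c d : Fin 4 ⊕ K → _) (.inl 3) = d := rfl
@[simp] theorem mk_r (k : K) : (mk a b c d : Fin 4 ⊕ K → _) (.inr k) = [] := rfl

@[simp] theorem up_0 : update (mk a b c d : Fin 4 ⊕ K → _) (.inl 0) x = mk x b c d := by
  funext j; rcases j with j | j
  · fin_cases j <;> simp [mk]
  · simp
@[simp] theorem up_1 : update (mk a b c d : Fin 4 ⊕ K → _) (.inl 1) x = mk a x c d := by
  funext j; rcases j with j | j
  · fin_cases j <;> simp [mk]
  · simp
@[simp] theorem up_2 : update (mk a b c d : Fin 4 ⊕ K → _) (.inl 2) x = mk a b x d := by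
  funext j; rcases j with j | j
  · fin_cases j <;> simp [mk]
  · simp
@[simp] theorem up_3 : update (mk a b c d : Fin 4 ⊕ K → _) (.inl 3) x = mk a b c x := by
  funext j; rcases j with j | j
  · fin_cases j <;> simp [mk]
  · simp

theorem st_mk : st (Sum.inl 0 : Fin 4 ⊕ K) x = mk x [] [] [] := by
  funext j; rcases j with j | j
  · fin_cases j <;> simp [mk, st]
  · simp [st]

end mk

/-- Run a program on working register `r`, with scratch registers given by `σ`. -/
def call {K₁ K : Type} [DecidableEq K₁] (io : K₁) (p : Prog K₁) (σ : K₁ → K) (r : Fin 4) :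
    Prog (Fin 4 ⊕ K) :=
  p.map (fun k => if k = io then .inl r else .inr (σ k))

theorem call_exec {K₁ K : Type} [DecidableEq K₁] [DecidableEq K] {io : K₁} {p : Prog K₁}
    {σ : K₁ → K} (hσ : Injective σ) (r : Fin 4) {x y : List Bool} {t : ℕ}
    (h : Exec p (st io x) (st io y) t) (a b c d : List Bool)
    (hx : (mk a b c d : Fin 4 ⊕ K → _) (.inl r) = x) :
    Exec (call io p σ r) (mk a b c d) (update (mk a b c d) (.inl r) y) t := by
  have hρ : Injective (fun k => if k = io then (.inl r : Fin 4 ⊕ K) else .inr (σ k)) := by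
    intro k l hkl
    by_cases hk : k = io <;> by_cases hl : l = io <;> simp [hk, hl] at hkl
    · rw [hk, hl]
    · exact hσ hkl
  obtain ⟨S', e, h₁, h₂⟩ := h.frame hρ (mk a b c d) (by
    intro k
    by_cases hk : k = io
    · subst hk; simp [st, hx]
    · simp [st, hk])
  have : S' = update (mk a b c d) (.inl r) y := by
    funext j
    by_cases hj : ∃ k, (if k = io then (.inl r : Fin 4 ⊕ K) else .inr (σ k)) = j
    · obtain ⟨k, rfl⟩ := hj
      rw [h₁]
      by_cases hk : k = io
      · subst hk; simp [st]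
      · simp [st, hk]
    · rw [h₂ j (fun k hk => hj ⟨k, hk⟩), update_of_ne]
      rintro rfl
      exact hj ⟨io, by simp⟩
  rw [← this]; exact e

/-- Pop the bits of register `k` one at a time and run the body chosen by the bit. -/
def each {K : Type} (k : K) (bf bt : Prog K) : Prog K :=
  .loop k (.case k .skip (.seq (.pop k) bf) (.seq (.pop k) bt))

theorem each_exec {K : Type} [DecidableEq K] (k : K) (bf bt : Prog K)
    (σ : List Bool → List Bool → K → List Bool) (c N : ℕ)
    (hk : ∀ r d, σ r d k = r)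
    (hf : ∀ r d, r.length + d.length + 1 = N →
      Exec bf (update (σ (false :: r) d) k r) (σ r (false :: d)) c)
    (ht : ∀ r d, r.length + d.length + 1 = N →
      Exec bt (update (σ (true :: r) d) k r) (σ r (true :: d)) c) :
    ∀ l d, l.length + d.length = N →
      Exec (each k bf bt) (σ l d) (σ [] (l.reverse ++ d)) ((c + 3) * l.length + 1) := by
  intro l
  induction l with
  | nil => intro d _; simpa [each] using Exec.loopN (hk [] d)
  | cons b r ih =>
    intro d hN
    have h2 := ih (b :: d) (by simp at hN ⊢; omega)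
    have hp := Exec.pop k (σ (b :: r) d)
    rw [hk, List.tail_cons] at hp
    have hN' : r.length + d.length + 1 = N := by simp at hN; omega
    have h1 : Exec (.case k .skip (.seq (.pop k) bf) (.seq (.pop k) bt)) (σ (b :: r) d)
        (σ r (b :: d)) (1 + c + 1) := by
      cases b
      · exact Exec.caseF (by rw [hk]; rfl) (Exec.seq hp (hf r d hN'))
      · exact Exec.caseT (by rw [hk]; rfl) (Exec.seq hp (ht r d hN'))
    have h3 := Exec.loopC (by rw [hk]; simp) h1 h2
    have e : (b :: r).reverse ++ d = r.reverse ++ b :: d := by simp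
    rw [e]
    refine h3.mono (le_of_eq ?_)
    simp only [List.length_cons]; ring

section basic

variable {K : Type} [DecidableEq K]

/-- Copy register 0 to register 1. -/
def copy01 : Prog (Fin 4 ⊕ K) :=
  .seq (each (.inl 0) (.push (.inl 2) false) (.push (.inl 2) true))
    (each (.inl 2) (.seq (.push (.inl 0) false) (.push (.inl 1) false))
      (.seq (.push (.inl 0) true) (.push (.inl 1) true)))

theorem copy01_exec (x : List Bool) :
    Exec (copy01 : Prog (Fin 4 ⊕ K)) (mk x [] [] []) (mk x x [] []) (9 * x.length + 2) := by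
  have h1 := each_exec (K := Fin 4 ⊕ K) (.inl 0) (.push (.inl 2) false) (.push (.inl 2) true)
    (fun r d => mk r [] d []) 1 x.length (by simp)
    (fun r d _ => by simpa using Exec.push (K := Fin 4 ⊕ K) (.inl 2) false (mk r [] d []))
    (fun r d _ => by simpa using Exec.push (K := Fin 4 ⊕ K) (.inl 2) true (mk r [] d []))
    x [] (by simp)
  have hb : ∀ (b : Bool) (r d : List Bool), Exec (K := Fin 4 ⊕ K)
      (.seq (.push (.inl 0) b) (.push (.inl 1) b)) (mk d d r []) (mk (b :: d) (b :: d) r []) 2 := by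
    intro b r d
    simpa using Exec.seq (Exec.push (K := Fin 4 ⊕ K) (.inl 0) b (mk d d r []))
      (Exec.push (.inl 1) b _)
  have h2 := each_exec (K := Fin 4 ⊕ K) (.inl 2) _ _
    (fun r d => mk d d r []) 2 x.length (by simp)
    (fun r d _ => by simpa using hb false r d) (fun r d _ => by simpa using hb true r d)
    x.reverse [] (by simp)
  simp only [List.append_nil, List.reverse_reverse, List.length_reverse] at h1 h2
  exact (Exec.seq h1 h2).mono (by omega)

/-- Push the delimited content of register 1 on register 0. -/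
def join01 : Prog (Fin 4 ⊕ K) :=
  .seq (each (.inl 1) (.push (.inl 2) false) (.push (.inl 2) true))
    (.seq (.push (.inl 0) false)
      (each (.inl 2) (.seq (.push (.inl 0) false) (.push (.inl 0) true))
        (.seq (.push (.inl 0) true) (.push (.inl 0) true))))

theorem join01_exec (x y : List Bool) :
    Exec (join01 : Prog (Fin 4 ⊕ K)) (mk y x [] []) (mk (delimit x ++ y) [] [] [])
      (9 * x.length + 3) := by
  have h1 := each_exec (K := Fin 4 ⊕ K) (.inl 1) (.push (.inl 2) false) (.push (.inl 2) true)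
    (fun r d => mk y r d []) 1 x.length (by simp)
    (fun r d _ => by simpa using Exec.push (K := Fin 4 ⊕ K) (.inl 2) false (mk y r d []))
    (fun r d _ => by simpa using Exec.push (K := Fin 4 ⊕ K) (.inl 2) true (mk y r d []))
    x [] (by simp)
  have hb : ∀ (b : Bool) (r d : List Bool), Exec (K := Fin 4 ⊕ K)
      (.seq (.push (.inl 0) b) (.push (.inl 0) true)) (mk (delimit d ++ y) [] r [])
        (mk (delimit (b :: d) ++ y) [] r []) 2 := by
    intro b r d
    simpa [delimit] using Exec.seq (Exec.push (K := Fin 4 ⊕ K) (.inl 0) b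
      (mk (delimit d ++ y) [] r [])) (Exec.push (.inl 0) true _)
  have h2 := each_exec (K := Fin 4 ⊕ K) (.inl 2) _ _
    (fun r d => mk (delimit d ++ y) [] r []) 2 x.length (by simp)
    (fun r d _ => by simpa using hb false r d) (fun r d _ => by simpa using hb true r d)
    x.reverse [] (by simp)
  have h3 := Exec.push (K := Fin 4 ⊕ K) (.inl 0) false (mk y [] x.reverse [])
  simp only [List.append_nil, List.reverse_reverse, List.length_reverse] at h1 h2
  simp only [mk_0, up_0] at h3
  exact (Exec.seq h1 (Exec.seq h3 h2)).mono (by omega)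

theorem clear0_exec (x b c d : List Bool) :
    Exec (each (.inl 0) .skip .skip : Prog (Fin 4 ⊕ K)) (mk x b c d) (mk [] b c d)
      (4 * x.length + 1) := by
  have h1 := each_exec (K := Fin 4 ⊕ K) (.inl 0) .skip .skip
    (fun r _ => mk r b c d) 1 x.length (by simp)
    (fun r d _ => by simpa using Exec.skip _) (fun r d _ => by simpa using Exec.skip _)
    x [] (by simp)
  exact h1

theorem clear1_exec (a x c d : List Bool) :
    Exec (each (.inl 1) .skip .skip : Prog (Fin 4 ⊕ K)) (mk a x c d) (mk a [] c d)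
      (4 * x.length + 1) := by
  have h1 := each_exec (K := Fin 4 ⊕ K) (.inl 1) .skip .skip
    (fun r _ => mk a r c d) 1 x.length (by simp)
    (fun r d _ => by simpa using Exec.skip _) (fun r d _ => by simpa using Exec.skip _)
    x [] (by simp)
  exact h1

end basic

/-- The first delimited block of a string. -/
def sfst : List Bool → List Bool
  | true :: b :: l => b :: sfst l
  | _ => []

/-- What follows the first delimited block of a string. -/
def ssnd : List Bool → List Bool
  | true :: _ :: l => ssnd l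
  | false :: l => l
  | _ => []

@[simp] theorem sfst_delimit (x y : List Bool) : sfst (delimit x ++ y) = x := by
  induction x with
  | nil => simp [delimit, sfst]
  | cons b x ih => simp [delimit, sfst, ih]

@[simp] theorem ssnd_delimit (x y : List Bool) : ssnd (delimit x ++ y) = y := by
  induction x with
  | nil => simp [delimit, ssnd]
  | cons b x ih => simp [delimit, ssnd, ih]

theorem length_sfst_le : ∀ x : List Bool, (sfst x).length ≤ x.length
  | [] => by simp [sfst]
  | [true] => by simp [sfst]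
  | false :: l => by simp [sfst]
  | true :: b :: l => by have := length_sfst_le l; simp [sfst]; omega

theorem length_ssnd_le : ∀ x : List Bool, (ssnd x).length ≤ x.length - 1
  | [] => by simp [ssnd]
  | [true] => by simp [ssnd]
  | false :: l => by simp [ssnd]
  | true :: b :: l => by have := length_ssnd_le l; simp [ssnd]; omega

section split

variable {K : Type} [DecidableEq K]

/-- The loop that splits off the first delimited block. -/
def splitLoop : Prog (Fin 4 ⊕ K) :=
  .loop (.inl 3) (.case (.inl 0) (.pop (.inl 3)) (.seq (.pop (.inl 0)) (.pop (.inl 3)))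
    (.seq (.pop (.inl 0)) (.case (.inl 0) .skip
      (.seq (.pop (.inl 0)) (.push (.inl 1) false)) (.seq (.pop (.inl 0)) (.push (.inl 1) true)))))

theorem splitLoop_exec : ∀ (x acc : List Bool),
    Exec (splitLoop : Prog (Fin 4 ⊕ K)) (mk x acc [] [true])
      (mk (ssnd x) ((sfst x).reverse ++ acc) [] []) (6 * x.length + 4)
  | [], acc => by
    have h1 := Exec.pop (K := Fin 4 ⊕ K) (.inl 3) (mk [] acc [] [true])
    simp only [mk_3, List.tail_cons, up_3] at h1
    exact (Exec.loopC (by simp) (Exec.caseN (by simp) h1) (Exec.loopN (by simp))).mono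
      (by simp)
  | false :: l, acc => by
    have h1 := Exec.seq (Exec.pop (K := Fin 4 ⊕ K) (.inl 0) (mk (false :: l) acc [] [true]))
      (Exec.pop (.inl 3) _)
    simp only [mk_0, mk_3, List.tail_cons, up_3, up_0] at h1
    exact (Exec.loopC (by simp) (Exec.caseF (by simp) h1) (Exec.loopN (by simp))).mono
      (by simp; omega)
  | [true], acc => by
    have h0 := Exec.pop (K := Fin 4 ⊕ K) (.inl 0) (mk [true] acc [] [true])
    simp only [mk_0, List.tail_cons, up_0] at h0
    have h2 := splitLoop_exec [] acc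
    exact (Exec.loopC (by simp) (Exec.caseT (by simp)
      (Exec.seq h0 (Exec.caseN (by simp) (Exec.skip _)))) h2).mono (by simp)
  | true :: b :: l, acc => by
    have h0 := Exec.pop (K := Fin 4 ⊕ K) (.inl 0) (mk (true :: b :: l) acc [] [true])
    have h1 := Exec.seq (Exec.pop (K := Fin 4 ⊕ K) (.inl 0) (mk (b :: l) acc [] [true]))
      (Exec.push (.inl 1) b _)
    simp only [mk_0, mk_1, List.tail_cons, up_0, up_1] at h0 h1
    have h2 := splitLoop_exec l (b :: acc)
    have e : (sfst (true :: b :: l)).reverse ++ acc = (sfst l).reverse ++ b :: acc := by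
      simp [sfst]
    rw [e]
    cases b
    · exact (Exec.loopC (by simp) (Exec.caseT (by simp)
        (Exec.seq h0 (Exec.caseF (by simp) h1))) h2).mono (by simp; omega)
    · exact (Exec.loopC (by simp) (Exec.caseT (by simp)
        (Exec.seq h0 (Exec.caseT (by simp) h1))) h2).mono (by simp; omega)

end split

namespace Comp

variable {α : Type}

theorem of_eq {I O O' : α → List Bool} (h : Comp I O) (e : ∀ a, O a = O' a) : Comp I O' := by
  have : O = O' := funext e
  rwa [← this]

theorem pull {β : Type} {I O : α → List Bool} (h : Comp I O) (g : β → α) {I' O' : β → List Bool}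
    (hI : ∀ b, I (g b) = I' b) (hO : ∀ b, O (g b) = O' b) : Comp I' O' := by
  obtain ⟨K, _, _, io, p, q, hp⟩ := h
  exact ⟨K, inferInstance, inferInstance, io, p, q, fun b => by
    rw [← hI, ← hO]; exact hp (g b)⟩

theorem refl (I : α → List Bool) : Comp I I :=
  ⟨Unit, inferInstance, inferInstance, (), .skip, 1, fun a => by simpa using Exec.skip _⟩

theorem length_le {I O : α → List Bool} (h : Comp I O) :
    ∃ q : Polynomial ℕ, ∀ a, (O a).length ≤ q.eval (I a).length := by
  obtain ⟨K, _, _, io, p, q, hp⟩ := h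
  refine ⟨Polynomial.X + q, fun a => ?_⟩
  simpa [st] using (hp a).length_le io

theorem trans {I J O : α → List Bool} (h₁ : Comp I J) (h₂ : Comp J O) : Comp I O := by
  obtain ⟨r, hr⟩ := h₁.length_le
  obtain ⟨K₁, _, _, io₁, p₁, q₁, hp₁⟩ := h₁
  obtain ⟨K₂, _, _, io₂, p₂, q₂, hp₂⟩ := h₂
  refine ⟨Fin 4 ⊕ (K₁ ⊕ K₂), inferInstance, inferInstance, .inl 0,
    .seq (call io₁ p₁ Sum.inl 0) (call io₂ p₂ Sum.inr 0), q₁ + q₂.comp r, fun a => ?_⟩
  rw [st_mk, st_mk]
  have e₁ := call_exec (K := K₁ ⊕ K₂) Sum.inl_injective 0 (hp₁ a) (I a) [] [] [] rfl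
  have e₂ := call_exec (K := K₁ ⊕ K₂) Sum.inr_injective 0 (hp₂ a) (J a) [] [] [] rfl
  simp only [up_0] at e₁ e₂
  refine (Exec.seq e₁ e₂).mono ?_
  simp only [Polynomial.eval_add, Polynomial.eval_comp]
  exact Nat.add_le_add_left (eval_mono _ (hr a)) _

theorem cons {I O : α → List Bool} (b : Bool) (h : Comp I O) : Comp I (fun a => b :: O a) :=
  h.trans ⟨Unit, inferInstance, inferInstance, (), .push () b, 1, fun a => by
    simpa [st] using Exec.push () b (st () (O a))⟩

theorem tail {I O : α → List Bool} (h : Comp I O) : Comp I (fun a => (O a).tail) :=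
  h.trans ⟨Unit, inferInstance, inferInstance, (), .pop (), 1, fun a => by
    simpa [st] using Exec.pop () (st () (O a))⟩

theorem nil (I : α → List Bool) : Comp I (fun _ => []) :=
  ⟨Fin 4 ⊕ Unit, inferInstance, inferInstance, .inl 0, each (.inl 0) .skip .skip,
    4 * Polynomial.X + 1, fun a => by
      rw [st_mk, st_mk]; simpa using clear0_exec (K := Unit) (I a) [] [] []⟩

theorem const (I : α → List Bool) (c : List Bool) : Comp I (fun _ => c) := by
  induction c with
  | nil => exact nil I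
  | cons b c ih => exact ih.cons b

theorem pair {I O₁ O₂ : α → List Bool} (h₁ : Comp I O₁) (h₂ : Comp I O₂) :
    Comp I (fun a => delimit (O₁ a) ++ O₂ a) := by
  obtain ⟨r, hr⟩ := h₁.length_le
  obtain ⟨K₁, _, _, io₁, p₁, q₁, hp₁⟩ := h₁
  obtain ⟨K₂, _, _, io₂, p₂, q₂, hp₂⟩ := h₂
  refine ⟨Fin 4 ⊕ (K₁ ⊕ K₂), inferInstance, inferInstance, .inl 0,
    .seq copy01 (.seq (call io₁ p₁ Sum.inl 1) (.seq (call io₂ p₂ Sum.inr 0) join01)),
    9 * Polynomial.X + 2 + (q₁ + (q₂ + (9 * r + 3))), fun a => ?_⟩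
  rw [st_mk, st_mk]
  have e₁ := call_exec (K := K₁ ⊕ K₂) Sum.inl_injective 1 (hp₁ a) (I a) (I a) [] [] rfl
  have e₂ := call_exec (K := K₁ ⊕ K₂) Sum.inr_injective 0 (hp₂ a) (I a) (O₁ a) [] [] rfl
  simp only [up_0, up_1] at e₁ e₂
  refine (Exec.seq (copy01_exec _) (Exec.seq e₁ (Exec.seq e₂ (join01_exec _ _)))).mono ?_
  have := hr a
  simp; omega

theorem ssnd' {I O : α → List Bool} (h : Comp I O) : Comp I (fun a => ssnd (O a)) := by
  refine h.trans ⟨Fin 4 ⊕ Unit, inferInstance, inferInstance, .inl 0,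
    .seq (.push (.inl 3) true) (.seq splitLoop (each (.inl 1) .skip .skip)),
    10 * Polynomial.X + 6, fun a => ?_⟩
  rw [st_mk, st_mk]
  have e₁ := Exec.push (K := Fin 4 ⊕ Unit) (.inl 3) true (mk (O a) [] [] [])
  simp only [mk_3, up_3] at e₁
  refine (Exec.seq e₁ (Exec.seq (splitLoop_exec _ _) (clear1_exec _ _ _ _))).mono ?_
  have := length_sfst_le (O a)
  simp; omega

theorem sfst' {I O : α → List Bool} (h : Comp I O) : Comp I (fun a => sfst (O a)) := by
  refine h.trans ⟨Fin 4 ⊕ Unit, inferInstance, inferInstance, .inl 0,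
    .seq (.push (.inl 3) true) (.seq splitLoop (.seq (each (.inl 0) .skip .skip)
      (each (.inl 1) (.push (.inl 0) false) (.push (.inl 0) true)))),
    14 * Polynomial.X + 7, fun a => ?_⟩
  rw [st_mk, st_mk]
  have e₁ := Exec.push (K := Fin 4 ⊕ Unit) (.inl 3) true (mk (O a) [] [] [])
  simp only [mk_3, up_3] at e₁
  have h1 := each_exec (K := Fin 4 ⊕ Unit) (.inl 1) (.push (.inl 0) false) (.push (.inl 0) true)
    (fun r d => mk d r [] []) 1 (sfst (O a)).length (by simp)
    (fun r d _ => by simpa using Exec.push (K := Fin 4 ⊕ Unit) (.inl 0) false (mk d r [] []))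
    (fun r d _ => by simpa using Exec.push (K := Fin 4 ⊕ Unit) (.inl 0) true (mk d r [] []))
    (sfst (O a)).reverse [] (by simp)
  have h2 := splitLoop_exec (K := Unit) (O a) []
  simp only [List.append_nil, List.reverse_reverse, List.length_reverse] at h1 h2
  refine (Exec.seq e₁ (Exec.seq h2 (Exec.seq (clear0_exec _ _ _ _) h1))).mono ?_
  have := length_sfst_le (O a)
  have := length_ssnd_le (O a)
  simp; omega

theorem case {I C O : α → List Bool} (hC : Comp I C)
    (hN : Comp (fun a : {a // (C a).head? = none} => I a.1) (fun a => O a.1))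
    (hF : Comp (fun a : {a // (C a).head? = some false} => I a.1) (fun a => O a.1))
    (hT : Comp (fun a : {a // (C a).head? = some true} => I a.1) (fun a => O a.1)) :
    Comp I O := by
  obtain ⟨r, hr⟩ := hC.length_le
  obtain ⟨K₀, _, _, io₀, p₀, q₀, hp₀⟩ := hC
  obtain ⟨K₁, _, _, io₁, p₁, q₁, hp₁⟩ := hN
  obtain ⟨K₂, _, _, io₂, p₂, q₂, hp₂⟩ := hF
  obtain ⟨K₃, _, _, io₃, p₃, q₃, hp₃⟩ := hT
  refine ⟨Fin 4 ⊕ ((K₀ ⊕ K₁) ⊕ (K₂ ⊕ K₃)), inferInstance, inferInstance, .inl 0,
    .seq copy01 (.seq (call io₀ p₀ (Sum.inl ∘ Sum.inl) 1) (.case (.inl 1)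
      (.seq (each (.inl 1) .skip .skip) (call io₁ p₁ (Sum.inl ∘ Sum.inr) 0))
      (.seq (each (.inl 1) .skip .skip) (call io₂ p₂ (Sum.inr ∘ Sum.inl) 0))
      (.seq (each (.inl 1) .skip .skip) (call io₃ p₃ (Sum.inr ∘ Sum.inr) 0)))),
    9 * Polynomial.X + 2 + (q₀ + (4 * r + 1 + (q₁ + q₂ + q₃) + 1)), fun a => ?_⟩
  rw [st_mk, st_mk]
  have e₀ := call_exec (K := (K₀ ⊕ K₁) ⊕ (K₂ ⊕ K₃))
    (Sum.inl_injective.comp Sum.inl_injective) 1 (hp₀ a) (I a) (I a) [] [] rfl
  simp only [up_1] at e₀
  have := hr a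
  rcases hc : (C a).head? with _ | _ | _
  · have e₁ := call_exec (K := (K₀ ⊕ K₁) ⊕ (K₂ ⊕ K₃))
      (Sum.inl_injective.comp Sum.inr_injective) 0 (hp₁ ⟨a, hc⟩) (I a) [] [] [] rfl
    simp only [up_0] at e₁
    refine (Exec.seq (copy01_exec _) (Exec.seq e₀ (Exec.caseN (k := Sum.inl 1) (by simpa using hc)
      (Exec.seq (clear1_exec _ _ _ _) e₁)))).mono ?_
    simp; omega
  · have e₁ := call_exec (K := (K₀ ⊕ K₁) ⊕ (K₂ ⊕ K₃))
      (Sum.inr_injective.comp Sum.inl_injective) 0 (hp₂ ⟨a, hc⟩) (I a) [] [] [] rfl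
    simp only [up_0] at e₁
    refine (Exec.seq (copy01_exec _) (Exec.seq e₀ (Exec.caseF (k := Sum.inl 1) (by simpa using hc)
      (Exec.seq (clear1_exec _ _ _ _) e₁)))).mono ?_
    simp; omega
  · have e₁ := call_exec (K := (K₀ ⊕ K₁) ⊕ (K₂ ⊕ K₃))
      (Sum.inr_injective.comp Sum.inr_injective) 0 (hp₃ ⟨a, hc⟩) (I a) [] [] [] rfl
    simp only [up_0] at e₁
    refine (Exec.seq (copy01_exec _) (Exec.seq e₀ (Exec.caseT (k := Sum.inl 1) (by simpa using hc)
      (Exec.seq (clear1_exec _ _ _ _) e₁)))).mono ?_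
    simp; omega

theorem iter {σ : Type} {I C : α → List Bool} {e : σ → List Bool} {g : σ → σ} {h : α → σ}
    (hg : Comp e (fun s => e (g s))) (hh : Comp I (fun a => e (h a))) (hC : Comp I C)
    (B : Polynomial ℕ)
    (hB : ∀ a i, i ≤ (C a).length → (e (g^[i] (h a))).length ≤ B.eval (I a).length) :
    Comp I (fun a => e (g^[(C a).length] (h a))) := by
  obtain ⟨r, hr⟩ := hC.length_le
  obtain ⟨K₀, _, _, io₀, p₀, q₀, hp₀⟩ := hC
  obtain ⟨K₁, _, _, io₁, p₁, q₁, hp₁⟩ := hh
  obtain ⟨K₂, _, _, io₂, p₂, q₂, hp₂⟩ := hg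
  refine ⟨Fin 4 ⊕ (K₀ ⊕ K₁ ⊕ K₂), inferInstance, inferInstance, .inl 0,
    .seq copy01 (.seq (call io₀ p₀ Sum.inl 1) (.seq (call io₁ p₁ (Sum.inr ∘ Sum.inl) 0)
      (each (.inl 1) (call io₂ p₂ (Sum.inr ∘ Sum.inr) 0) (call io₂ p₂ (Sum.inr ∘ Sum.inr) 0)))),
    9 * Polynomial.X + 2 + (q₀ + (q₁ + ((q₂.comp B + 3) * r + 1))), fun a => ?_⟩
  rw [st_mk, st_mk]
  have e₀ := call_exec (K := K₀ ⊕ K₁ ⊕ K₂) Sum.inl_injective 1 (hp₀ a) (I a) (I a) [] [] rfl
  have e₁ := call_exec (K := K₀ ⊕ K₁ ⊕ K₂) (Sum.inr_injective.comp Sum.inl_injective) 0 (hp₁ a)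
    (I a) (C a) [] [] rfl
  simp only [up_0, up_1] at e₀ e₁
  have hs : ∀ (b : Bool) (r d : List Bool), r.length + d.length + 1 = (C a).length →
      Exec (call io₂ p₂ (Sum.inr ∘ Sum.inr) 0 : Prog (Fin 4 ⊕ (K₀ ⊕ K₁ ⊕ K₂)))
        (mk (e (g^[d.length] (h a))) r [] []) (mk (e (g^[(b :: d).length] (h a))) r [] [])
        (q₂.eval (B.eval (I a).length)) := by
    intro b r d hN
    have e₂ := call_exec (K := K₀ ⊕ K₁ ⊕ K₂) (Sum.inr_injective.comp Sum.inr_injective) 0
      (hp₂ (g^[d.length] (h a))) (e (g^[d.length] (h a))) r [] [] rfl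
    simp only [up_0] at e₂
    rw [List.length_cons, Function.iterate_succ_apply']
    exact e₂.mono (eval_mono _ (hB a _ (by omega)))
  have h1 := each_exec (K := Fin 4 ⊕ (K₀ ⊕ K₁ ⊕ K₂)) (.inl 1) _ _
    (fun r d => mk (e (g^[d.length] (h a))) r [] []) (q₂.eval (B.eval (I a).length)) (C a).length
    (by simp) (fun r d hN => by simpa using hs false r d hN)
    (fun r d hN => by simpa using hs true r d hN) (C a) [] (by simp)
  simp only [List.append_nil, List.length_reverse, List.length_nil, Function.iterate_zero,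
    id_eq] at h1
  refine (Exec.seq (copy01_exec _) (Exec.seq e₀ (Exec.seq e₁ h1))).mono ?_
  have := Nat.mul_le_mul_left (q₂.eval (B.eval (I a).length) + 3) (hr a)
  simp only [Polynomial.eval_add, Polynomial.eval_mul, Polynomial.eval_ofNat, Polynomial.eval_X,
    Polynomial.eval_comp, Polynomial.eval_one]
  omega

end Comp

end Pool.Agent.Lib.MP_acf5a6_lc
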