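import Mathlib
import Pool.Prelude.Def_F_458e953d

/-!
A small structured language of stack programs over the alphabet `Bool`, its cost semantics, and
its compilation to Mathlib's multi-stack Turing machines `Turing.FinTM2`.
-/

set_option autoImplicit false

namespace Pool.Agent.Lib.MP_acf5a6_lc

open Turing Function

/-- Structured stack programs with registers in `K`. -/
inductive Prog (K : Type) : Type
  | skip : Prog K
  | push : K → Bool → Prog K
  | pop : K → Prog K
  | seq : Prog K → Prog K → Prog K
  | case : K → Prog K → Prog K → Prog K → Prog K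
  | loop : K → Prog K → Prog K

/-- Big-step semantics with an upper bound on the number of machine steps. -/
inductive Exec {K : Type} [DecidableEq K] :
    Prog K → (K → List Bool) → (K → List Bool) → ℕ → Prop
  | skip (s : K → List Bool) : Exec .skip s s 1
  | push (k : K) (b : Bool) (s : K → List Bool) : Exec (.push k b) s (update s k (b :: s k)) 1
  | pop (k : K) (s : K → List Bool) : Exec (.pop k) s (update s k (s k).tail) 1
  | seq {p q : Prog K} {s s₁ s₂ : K → List Bool} {t₁ t₂ : ℕ} :
      Exec p s s₁ t₁ → Exec q s₁ s₂ t₂ → Exec (.seq p q) s s₂ (t₁ + t₂)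
  | caseN {k : K} {pn pf pt : Prog K} {s s' : K → List Bool} {t : ℕ} :
      (s k).head? = none → Exec pn s s' t → Exec (.case k pn pf pt) s s' (t + 1)
  | caseF {k : K} {pn pf pt : Prog K} {s s' : K → List Bool} {t : ℕ} :
      (s k).head? = some false → Exec pf s s' t → Exec (.case k pn pf pt) s s' (t + 1)
  | caseT {k : K} {pn pf pt : Prog K} {s s' : K → List Bool} {t : ℕ} :
      (s k).head? = some true → Exec pt s s' t → Exec (.case k pn pf pt) s s' (t + 1)
  | loopN {k : K} {p : Prog K} {s : K → List Bool} : s k = [] → Exec (.loop k p) s s 1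
  | loopC {k : K} {p : Prog K} {s s₁ s₂ : K → List Bool} {t₁ t₂ : ℕ} :
      s k ≠ [] → Exec p s s₁ t₁ → Exec (.loop k p) s₁ s₂ t₂ → Exec (.loop k p) s s₂ (t₁ + t₂ + 1)
  | mono {p : Prog K} {s s' : K → List Bool} {t t' : ℕ} :
      Exec p s s' t → t ≤ t' → Exec p s s' t'

namespace Prog

variable {K : Type}

/-- The labels of the compiled machine. -/
def Lab : Prog K → Type
  | skip => Unit
  | push _ _ => Unit
  | pop _ => Unit
  | seq p q => p.Lab ⊕ q.Lab
  | case _ pn pf pt => Option (pn.Lab ⊕ pf.Lab ⊕ pt.Lab)
  | loop _ p => Option p.Lab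

/-- There are finitely many labels. -/
@[reducible] def labFin : (p : Prog K) → Fintype p.Lab
  | skip => inferInstanceAs (Fintype Unit)
  | push _ _ => inferInstanceAs (Fintype Unit)
  | pop _ => inferInstanceAs (Fintype Unit)
  | seq p q =>
      letI := p.labFin
      letI := q.labFin
      inferInstanceAs (Fintype (p.Lab ⊕ q.Lab))
  | case _ pn pf pt =>
      letI := pn.labFin
      letI := pf.labFin
      letI := pt.labFin
      inferInstanceAs (Fintype (Option (pn.Lab ⊕ pf.Lab ⊕ pt.Lab)))
  | loop _ p =>
      letI := p.labFin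
      inferInstanceAs (Fintype (Option p.Lab))

/-- The entry label. -/
def entry : (p : Prog K) → p.Lab
  | skip => ()
  | push _ _ => ()
  | pop _ => ()
  | seq p _ => Sum.inl p.entry
  | case _ _ _ _ => none
  | loop _ _ => none

/-- Jump to a label or halt. -/
def jump {L : Type} : Option L → TM2.Stmt (fun _ : K => Bool) L (Option Bool)
  | some l => .goto (fun _ => l)
  | none => .halt

/-- The compiled code. -/
def code {L : Type} : (p : Prog K) → (p.Lab → L) → Option L → p.Lab →
    TM2.Stmt (fun _ : K => Bool) L (Option Bool)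
  | skip, _, x, _ => jump x
  | push k b, _, x, _ => .push k (fun _ => b) (jump x)
  | pop k, _, x, _ => .pop k (fun _ _ => none) (jump x)
  | seq p q, e, _, Sum.inl l => p.code (fun l => e (Sum.inl l)) (some (e (Sum.inr q.entry))) l
  | seq _ q, e, x, Sum.inr l => q.code (fun l => e (Sum.inr l)) x l
  | case k pn pf pt, e, _, none =>
      .peek k (fun _ o => o)
        (.branch (fun v => v.isNone) (.goto fun _ => e (some (Sum.inl pn.entry)))
          (.branch (fun v => v.getD false)
            (.load (fun _ => none) (.goto fun _ => e (some (Sum.inr (Sum.inr pt.entry)))))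
            (.load (fun _ => none) (.goto fun _ => e (some (Sum.inr (Sum.inl pf.entry)))))))
  | case _ pn _ _, e, x, some (Sum.inl l) => pn.code (fun l => e (some (Sum.inl l))) x l
  | case _ _ pf _, e, x, some (Sum.inr (Sum.inl l)) =>
      pf.code (fun l => e (some (Sum.inr (Sum.inl l)))) x l
  | case _ _ _ pt, e, x, some (Sum.inr (Sum.inr l)) =>
      pt.code (fun l => e (some (Sum.inr (Sum.inr l)))) x l
  | loop k p, e, x, none =>
      .peek k (fun _ o => o)
        (.branch (fun v => v.isNone) (jump x)
          (.load (fun _ => none) (.goto fun _ => e (some p.entry))))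
  | loop _ p, e, _, some l => p.code (fun l => e (some l)) (some (e none)) l

theorem stepAux_jump [DecidableEq K] {L : Type} (x : Option L) (v : Option Bool)
    (S : K → List Bool) :
    TM2.stepAux (jump (K := K) x) v S = ⟨x, v, S⟩ := by
  cases x <;> rfl

/-- Renaming of registers. -/
def map {J : Type} (ρ : K → J) : Prog K → Prog J
  | skip => skip
  | push k b => push (ρ k) b
  | pop k => pop (ρ k)
  | seq p q => seq (p.map ρ) (q.map ρ)
  | case k pn pf pt => case (ρ k) (pn.map ρ) (pf.map ρ) (pt.map ρ)
  | loop k p => loop (ρ k) (p.map ρ)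

end Prog

section sim

variable {K L : Type} [DecidableEq K]

/-- Reaching a configuration in at most `t` steps. -/
def Reach (M : L → TM2.Stmt (fun _ : K => Bool) L (Option Bool))
    (c d : TM2.Cfg (fun _ : K => Bool) L (Option Bool)) (t : ℕ) : Prop :=
  ∃ n ≤ t, (flip bind (TM2.step M))^[n] (some c) = some d

theorem Reach.trans {M : L → TM2.Stmt (fun _ : K => Bool) L (Option Bool)}
    {c d e : TM2.Cfg (fun _ : K => Bool) L (Option Bool)} {t₁ t₂ : ℕ}
    (h₁ : Reach M c d t₁) (h₂ : Reach M d e t₂) : Reach M c e (t₁ + t₂) := by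
  obtain ⟨n₁, hn₁, e₁⟩ := h₁
  obtain ⟨n₂, hn₂, e₂⟩ := h₂
  exact ⟨n₂ + n₁, by omega, by rw [Function.iterate_add_apply, e₁, e₂]⟩

theorem Reach.one {M : L → TM2.Stmt (fun _ : K => Bool) L (Option Bool)}
    {l : L} {v : Option Bool} {S : K → List Bool} {d : TM2.Cfg (fun _ : K => Bool) L (Option Bool)}
    (h : TM2.stepAux (M l) v S = d) : Reach M ⟨some l, v, S⟩ d 1 :=
  ⟨1, le_rfl, by rw [← h]; rfl⟩

theorem Reach.mono {M : L → TM2.Stmt (fun _ : K => Bool) L (Option Bool)}
    {c d : TM2.Cfg (fun _ : K => Bool) L (Option Bool)} {t t' : ℕ}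
    (h : Reach M c d t) (ht : t ≤ t') : Reach M c d t' := by
  obtain ⟨n, hn, e⟩ := h
  exact ⟨n, hn.trans ht, e⟩

theorem Exec.sim (M : L → TM2.Stmt (fun _ : K => Bool) L (Option Bool))
    {p : Prog K} {s s' : K → List Bool} {t : ℕ} (h : Exec p s s' t) :
    ∀ (e : p.Lab → L) (x : Option L), (∀ l, M (e l) = p.code e x l) →
      Reach M ⟨some (e p.entry), none, s⟩ ⟨x, none, s'⟩ t := by
  induction h with
  | skip s =>
    intro e x hM
    refine Reach.one ?_
    rw [hM]; exact Prog.stepAux_jump _ _ _
  | push k b s =>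
    intro e x hM
    refine Reach.one ?_
    rw [hM]; exact Prog.stepAux_jump _ _ _
  | pop k s =>
    intro e x hM
    refine Reach.one ?_
    rw [hM]; exact Prog.stepAux_jump _ _ _
  | seq _ _ ih₁ ih₂ =>
    intro e x hM
    exact (ih₁ _ _ (fun l => hM (Sum.inl l))).trans (ih₂ _ _ (fun l => hM (Sum.inr l)))
  | caseN hk _ ih =>
    intro e x hM
    rw [add_comm]
    refine Reach.trans (Reach.one ?_) (ih _ _ (fun l => hM (some (Sum.inl l))))
    rw [hM]; simp [Prog.code, Prog.entry, hk]
  | caseF hk _ ih =>
    intro e x hM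
    rw [add_comm]
    refine Reach.trans (Reach.one ?_) (ih _ _ (fun l => hM (some (Sum.inr (Sum.inl l)))))
    rw [hM]; simp [Prog.code, Prog.entry, hk]
  | caseT hk _ ih =>
    intro e x hM
    rw [add_comm]
    refine Reach.trans (Reach.one ?_) (ih _ _ (fun l => hM (some (Sum.inr (Sum.inr l)))))
    rw [hM]; simp [Prog.code, Prog.entry, hk]
  | loopN hk =>
    intro e x hM
    refine Reach.one ?_
    rw [hM]; simp [Prog.code, Prog.entry, hk, Prog.stepAux_jump]
  | @loopC k p s s₁ s₂ t₁ t₂ hk _ _ ih₁ ih₂ =>
    intro e x hM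
    have h1 := ih₁ (fun l => e (some l)) (some (e none)) (fun l => hM (some l))
    have h2 := ih₂ e x hM
    rw [add_comm]
    refine Reach.trans (Reach.one ?_) (h1.trans h2)
    rw [hM]
    obtain ⟨b, r, hb⟩ := List.exists_cons_of_ne_nil hk
    simp [Prog.code, Prog.entry, hb]
  | mono _ ht ih =>
    intro e x hM
    exact (ih e x hM).mono ht

end sim

/-- The state with `x` in register `k` and all other registers empty. -/
def st {K : Type} [DecidableEq K] (k : K) (x : List Bool) : K → List Bool :=
  update (fun _ => []) k x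

/-- `O a` is computable from `I a` by one program, in time polynomial in the length of `I a`. -/
def Comp {α : Type} (I O : α → List Bool) : Prop :=
  ∃ (K : Type) (_ : Fintype K) (_ : DecidableEq K) (io : K) (p : Prog K) (q : Polynomial ℕ),
    ∀ a, Exec p (st io (I a)) (st io (O a)) (q.eval (I a).length)

/-- The machine compiled from a program. -/
def toFinTM2 {K : Type} [Fintype K] [DecidableEq K] (io : K) (p : Prog K) : FinTM2 where
  K := K
  k₀ := io
  k₁ := io
  Γ _ := Bool
  Λ := p.Lab
  main := p.entry
  ΛFin := p.labFin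
  σ := Option Bool
  initialState := none
  m := p.code id none

theorem Comp.toTM2 {α β : Type} {ea : α → List Bool} {eb : β → List Bool} {f : α → β}
    (h : Comp ea (fun a => eb (f a))) : Nonempty (TM2ComputableInPolyTime ea eb f) := by
  obtain ⟨K, _, _, io, p, q, hp⟩ := h
  have hi : ∀ x, initList (toFinTM2 io p) x = ⟨some p.entry, none, st io x⟩ := by
    intro x
    simp only [initList, toFinTM2]
    congr 1
    funext k
    by_cases hk : k = io
    · subst hk; simp [st]
    · simp [st, hk]
  have hh : ∀ x, haltList (toFinTM2 io p) x = ⟨none, none, st io x⟩ := by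
    intro x
    simp only [haltList, toFinTM2]
    congr 1
    funext k
    by_cases hk : k = io
    · subst hk; simp [st]
    · simp [st, hk]
  refine ⟨{ tm := toFinTM2 io p
            inputAlphabet := Equiv.refl _
            outputAlphabet := Equiv.refl _
            time := q
            outputsFun := fun a => ?_ }⟩
  have h1 : ∃ n ≤ q.eval (ea a).length, (flip bind (TM2.step (p.code id none)))^[n]
      (some (initList (toFinTM2 io p) (List.map (Equiv.refl Bool).invFun (ea a)))) =
      some (haltList (toFinTM2 io p) (List.map (Equiv.refl Bool).invFun (eb (f a)))) := by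
    have e1 : List.map (Equiv.refl Bool).invFun (ea a) = ea a := by simp
    have e2 : List.map (Equiv.refl Bool).invFun (eb (f a)) = eb (f a) := by simp
    have e3 := (congrArg (initList (toFinTM2 io p)) e1).trans (hi (ea a))
    have e4 := (congrArg (haltList (toFinTM2 io p)) e2).trans (hh (eb (f a)))
    obtain ⟨n, hn, h⟩ := (hp a).sim (p.code id none) id none (fun _ => rfl)
    refine ⟨n, hn, ?_⟩
    exact (congrArg (fun c => (flip bind (TM2.step (p.code id none)))^[n] (some c)) e3).trans
      (h.trans (congrArg some e4.symm))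
  exact ⟨⟨h1.choose, h1.choose_spec.2⟩, h1.choose_spec.1⟩

end Pool.Agent.Lib.MP_acf5a6_lc
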