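import Pool.Agent.Lib.MP_acf5a6_lc.Comp

/-!
Polynomial-time computable functions between encoded types, with closure lemmas for `fun_prop`.
-/

set_option autoImplicit false
set_option linter.unusedSectionVars false

namespace Pool.Agent.Lib.MP_acf5a6_lc

open Function N487b59b3

/-- Polynomial-time computability for the bit encodings of the prelude. -/
@[fun_prop]
def PT {α β : Type} [N487b59b3 α] [N487b59b3 β] (f : α → β) : Prop :=
  Comp (fun a : α => bitEncode a) (fun a => bitEncode (f a))

theorem PT.isPolyTime {α β : Type} [N487b59b3 α] [N487b59b3 β] {f : α → β} (h : PT f) :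
    N68a2faeb.IsPolyTime f :=
  Comp.toTM2 (ea := fun a : α => bitEncode a) (eb := fun b : β => bitEncode b) h

/-- Length of the encoding. -/
def sz {α : Type} [N487b59b3 α] (a : α) : ℕ := (bitEncode a).length

/-- Raw bit strings, encoded by themselves. -/
structure Raw where
  s : List Bool

instance : N487b59b3 Raw where
  encode r := r.s
  decode l := some ⟨l⟩
  decode_encode _ := rfl

/-- Unary numbers. -/
structure Un where
  n : ℕ

instance : N487b59b3 Un where
  encode r := List.replicate r.n true
  decode l := some ⟨l.length⟩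
  decode_encode _ := by simp

section enc

variable {α β : Type} [N487b59b3 α] [N487b59b3 β]

theorem enc_pair (a : α) (b : β) : bitEncode (a, b) = delimit (bitEncode a) ++ bitEncode b := rfl
theorem enc_nil : bitEncode ([] : List α) = [] := rfl
theorem enc_cons (a : α) (l : List α) :
    bitEncode (a :: l) = delimit (bitEncode a) ++ bitEncode l := rfl
theorem enc_bool (b : Bool) : bitEncode b = [b] := rfl
theorem enc_raw (r : Raw) : bitEncode r = r.s := rfl
theorem enc_un (r : Un) : bitEncode r = List.replicate r.n true := rfl

@[simp] theorem sz_pair (a : α) (b : β) : sz (a, b) = 2 * sz a + 1 + sz b := by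
  simp [sz, enc_pair]
@[simp] theorem sz_nil : sz ([] : List α) = 0 := rfl
@[simp] theorem sz_cons (a : α) (l : List α) : sz (a :: l) = 2 * sz a + 1 + sz l := by
  simp [sz, enc_cons]
@[simp] theorem sz_bool (b : Bool) : sz b = 1 := rfl
@[simp] theorem sz_raw (r : Raw) : sz r = r.s.length := rfl
@[simp] theorem sz_un (r : Un) : sz r = r.n := by simp [sz, enc_un]

theorem length_le_sz (l : List α) : l.length ≤ sz l := by
  induction l with
  | nil => simp
  | cons a l ih => simp; omega

theorem sz_le_of_mem {l : List α} {a : α} (h : a ∈ l) : sz a ≤ sz l := by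
  induction l with
  | nil => simp at h
  | cons b l ih =>
    rcases List.mem_cons.1 h with rfl | h
    · simp; omega
    · have := ih h; simp; omega

@[simp] theorem sz_append (l l' : List α) : sz (l ++ l') = sz l + sz l' := by
  induction l with
  | nil => simp
  | cons a l ih => simp [ih]; omega

theorem sz_drop_le (l : List α) (i : ℕ) : sz (l.drop i) ≤ sz l := by
  have := sz_append (l.take i) (l.drop i)
  rw [List.take_append_drop] at this
  omega

theorem sz_tail_le (l : List α) : sz l.tail ≤ sz l := by
  rw [← List.drop_one]; exact sz_drop_le l 1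

end enc

/-- A size function bounded by a polynomial in the size of the input. -/
def PB {α : Type} [N487b59b3 α] (f : α → ℕ) : Prop :=
  ∃ q : Polynomial ℕ, ∀ a, f a ≤ q.eval (sz a)

namespace PB

variable {α β : Type} [N487b59b3 α] [N487b59b3 β]

theorem const (c : ℕ) : PB (fun _ : α => c) := ⟨Polynomial.C c, fun _ => by simp⟩

theorem self : PB (fun a : α => sz a) := ⟨Polynomial.X, fun _ => by simp⟩

theorem add {f g : α → ℕ} (hf : PB f) (hg : PB g) : PB (fun a => f a + g a) := by
  obtain ⟨p, hp⟩ := hf
  obtain ⟨q, hq⟩ := hg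
  exact ⟨p + q, fun a => by simpa using Nat.add_le_add (hp a) (hq a)⟩

theorem mul {f g : α → ℕ} (hf : PB f) (hg : PB g) : PB (fun a => f a * g a) := by
  obtain ⟨p, hp⟩ := hf
  obtain ⟨q, hq⟩ := hg
  exact ⟨p * q, fun a => by simpa using Nat.mul_le_mul (hp a) (hq a)⟩

theorem mono {f g : α → ℕ} (hg : PB g) (h : ∀ a, f a ≤ g a) : PB f := by
  obtain ⟨q, hq⟩ := hg
  exact ⟨q, fun a => (h a).trans (hq a)⟩

theorem poly {f : α → ℕ} (hf : PB f) (q : Polynomial ℕ) : PB (fun a => q.eval (f a)) := by
  obtain ⟨p, hp⟩ := hf
  exact ⟨q.comp p, fun a => by rw [Polynomial.eval_comp]; exact eval_mono _ (hp a)⟩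

theorem of_PT {f : α → β} (hf : PT f) : PB (fun a => sz (f a)) := hf.length_le

end PB

namespace PT

variable {α β γ δ : Type} [N487b59b3 α] [N487b59b3 β] [N487b59b3 γ] [N487b59b3 δ]

theorem of_eq {f g : α → β} (hf : PT f) (h : ∀ a, f a = g a) : PT g := by
  have : f = g := funext h
  rwa [← this]

theorem of_enc {f : α → β} {g : α → γ} (hf : PT f) (h : ∀ a, bitEncode (f a) = bitEncode (g a)) :
    PT g := Comp.of_eq hf h

@[fun_prop] theorem id' : PT (fun a : α => a) := Comp.refl _

@[fun_prop] theorem const (b : β) : PT (fun _ : α => b) := Comp.const _ _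

@[fun_prop] theorem comp {f : β → γ} {g : α → β} (hf : PT f) (hg : PT g) :
    PT (fun a => f (g a)) :=
  Comp.trans hg (Comp.pull hf g (fun _ => rfl) (fun _ => rfl))

@[fun_prop] theorem prodMk {f : α → β} {g : α → γ} (hf : PT f) (hg : PT g) :
    PT (fun a => (f a, g a)) := Comp.pair hf hg

@[fun_prop] theorem fst {f : α → β × γ} (hf : PT f) : PT (fun a => (f a).1) :=
  (Comp.sfst' hf).of_eq (fun _ => sfst_delimit _ _)

@[fun_prop] theorem snd {f : α → β × γ} (hf : PT f) : PT (fun a => (f a).2) :=
  (Comp.ssnd' hf).of_eq (fun _ => ssnd_delimit _ _)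

@[fun_prop] theorem cond' {c : α → Bool} {f g : α → β} (hc : PT c) (hf : PT f) (hg : PT g) :
    PT (fun a => cond (c a) (f a) (g a)) := by
  refine Comp.case hc ?_ ?_ ?_
  · exact Comp.pull hf Subtype.val (fun _ => rfl) (fun a => by have := a.2; simp [enc_bool] at this)
  · refine Comp.pull hg Subtype.val (fun _ => rfl) (fun a => ?_)
    have := a.2
    simp only [enc_bool, List.head?_cons, Option.some.injEq] at this
    simp [this]
  · refine Comp.pull hf Subtype.val (fun _ => rfl) (fun a => ?_)
    have := a.2
    simp only [enc_bool, List.head?_cons, Option.some.injEq] at this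
    simp [this]

@[fun_prop] theorem ite' {p : α → Prop} [DecidablePred p] {f g : α → β}
    (hp : PT (fun a => decide (p a))) (hf : PT f) (hg : PT g) :
    PT (fun a => if p a then f a else g a) :=
  (cond' hp hf hg).of_eq (fun a => by by_cases h : p a <;> simp [h])

@[fun_prop] theorem decide_eq_true' {c : α → Bool} (hc : PT c) :
    PT (fun a => decide (c a = true)) := hc.of_eq (by simp)

@[fun_prop] theorem not' {c : α → Bool} (hc : PT c) : PT (fun a => !(c a)) :=
  (cond' hc (const false) (const true)).of_eq (fun a => by cases c a <;> rfl)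

@[fun_prop] theorem and' {c d : α → Bool} (hc : PT c) (hd : PT d) : PT (fun a => c a && d a) :=
  (cond' hc hd (const false)).of_eq (fun a => by cases c a <;> rfl)

@[fun_prop] theorem or' {c d : α → Bool} (hc : PT c) (hd : PT d) : PT (fun a => c a || d a) :=
  (cond' hc (const true) hd).of_eq (fun a => by cases c a <;> rfl)

@[fun_prop] theorem xor' {c d : α → Bool} (hc : PT c) (hd : PT d) :
    PT (fun a => xor (c a) (d a)) :=
  (cond' hc (not' hd) hd).of_eq (fun a => by cases c a <;> simp)

@[fun_prop] theorem cons {f : α → β} {g : α → List β} (hf : PT f) (hg : PT g) :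
    PT (fun a => f a :: g a) := Comp.pair hf hg

@[fun_prop] theorem tail {g : α → List β} (hg : PT g) : PT (fun a => (g a).tail) :=
  (Comp.ssnd' hg).of_eq (fun a => by
    beta_reduce
    cases g a with
    | nil => rfl
    | cons b l => exact ssnd_delimit _ _)

theorem isEmpty_enc {f : α → β} (hf : PT f) : PT (fun a => (bitEncode (f a)).isEmpty) := by
  refine Comp.case hf ?_ ?_ ?_
  · refine (Comp.const _ [true]).of_eq (fun a => ?_)
    have := a.2
    simp only [List.head?_eq_none_iff] at this
    simp [this, enc_bool]
  · refine (Comp.const _ [false]).of_eq (fun a => ?_)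
    have := a.2
    cases h : bitEncode (f a.1) with
    | nil => simp [h] at this
    | cons _ _ => simp [enc_bool, h]
  · refine (Comp.const _ [false]).of_eq (fun a => ?_)
    have := a.2
    cases h : bitEncode (f a.1) with
    | nil => simp [h] at this
    | cons _ _ => simp [enc_bool, h]

@[fun_prop] theorem isEmpty {g : α → List β} (hg : PT g) : PT (fun a => (g a).isEmpty) :=
  (isEmpty_enc hg).of_eq (fun a => by
    cases g a with
    | nil => rfl
    | cons b l => cases h : bitEncode b <;> simp [enc_cons, delimit, h])

@[fun_prop] theorem headD {g : α → List β} {d : α → β} (hg : PT g) (hd : PT d) :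
    PT (fun a => (g a).headD (d a)) := by
  refine Comp.case hg ?_ ?_ ?_
  · refine Comp.pull hd Subtype.val (fun _ => rfl) (fun a => ?_)
    have := a.2
    cases h : g a.1 with
    | nil => simp [h]
    | cons b l => cases h' : bitEncode b <;> simp [h, enc_cons, delimit, h'] at this
  · refine Comp.pull (Comp.sfst' hg) Subtype.val (fun _ => rfl) (fun a => ?_)
    have := a.2
    cases h : g a.1 with
    | nil => simp [h, enc_nil] at this
    | cons b l => simp [enc_cons, h]
  · refine Comp.pull (Comp.sfst' hg) Subtype.val (fun _ => rfl) (fun a => ?_)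
    have := a.2
    cases h : g a.1 with
    | nil => simp [h, enc_nil] at this
    | cons b l => simp [enc_cons, h]

/-- Iteration as many times as the size of `c a`. -/
theorem iter {g : β → β} {h : α → β} {c : α → γ} (hg : PT g) (hh : PT h) (hc : PT c)
    {B : α → ℕ} (hB : PB B) (H : ∀ a i, i ≤ sz (c a) → sz (g^[i] (h a)) ≤ B a) :
    PT (fun a => g^[sz (c a)] (h a)) := by
  obtain ⟨q, hq⟩ := hB
  exact Comp.iter (e := fun b : β => bitEncode b) hg hh hc q
    (fun a i hi => (H a i hi).trans (hq a))

/-- Iteration with a parameter. -/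
theorem iterP {g : α → β → β} {h : α → β} {c : α → γ} (hg : PT (fun x : α × β => g x.1 x.2))
    (hh : PT h) (hc : PT c) {B : α → ℕ} (hB : PB B)
    (H : ∀ a i, i ≤ sz (c a) → sz ((g a)^[i] (h a)) ≤ B a) :
    PT (fun a => (g a)^[sz (c a)] (h a)) := by
  have key : ∀ (a : α) (i : ℕ) (b : β),
      (fun x : α × β => (x.1, g x.1 x.2))^[i] (a, b) = (a, (g a)^[i] b) := by
    intro a i
    induction i with
    | zero => intro b; rfl
    | succ i ih => intro b; simp [Function.iterate_succ_apply, ih]
  have h1 := iter (g := fun x : α × β => (x.1, g x.1 x.2)) (h := fun a => (a, h a)) (c := c)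
    (by fun_prop) (by fun_prop) hc
    ((((PB.const 2).mul PB.self).add (PB.const 1)).add hB) (fun a i hi => by
      rw [key, sz_pair]; have := H a i hi; omega)
  exact (snd h1).of_eq (fun a => by rw [key])

/-- Iteration of a step whose output grows additively. -/
theorem iterA {g : α → β → β} {h : α → β} {c : α → γ} (hg : PT (fun x : α × β => g x.1 x.2))
    (hh : PT h) (hc : PT c) {B : α → ℕ} (hB : PB B) (H : ∀ a b, sz (g a b) ≤ sz b + B a) :
    PT (fun a => (g a)^[sz (c a)] (h a)) := by
  refine iterP hg hh hc ((PB.of_PT hh).add ((PB.of_PT hc).mul hB)) (fun a i hi => ?_)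
  have : ∀ i, sz ((g a)^[i] (h a)) ≤ sz (h a) + i * B a := by
    intro i
    induction i with
    | zero => simp
    | succ i ih =>
      rw [Function.iterate_succ_apply']
      have := H a ((g a)^[i] (h a))
      rw [add_mul]; omega
  exact (this i).trans (Nat.add_le_add_left (Nat.mul_le_mul_right _ hi) _)

/-- Left fold with a bound on the sizes of the intermediate values. -/
theorem foldl {g : α → γ → β → γ} {h : α → γ} {l : α → List β}
    (hg : PT (fun x : α × γ × β => g x.1 x.2.1 x.2.2)) (hh : PT h) (hl : PT l)
    {B : α → ℕ} (hB : PB B) (H : ∀ a i, sz (((l a).take i).foldl (g a) (h a)) ≤ B a) :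
    PT (fun a => (l a).foldl (g a) (h a)) := by
  by_cases hβ : Nonempty β
  swap
  · refine hh.of_eq (fun a => ?_)
    cases l a with
    | nil => rfl
    | cons b _ => exact absurd ⟨b⟩ hβ
  obtain ⟨b₀⟩ := hβ
  let G : α → List β × γ → List β × γ := fun a x =>
    cond x.1.isEmpty x (x.1.tail, g a x.2 (x.1.headD b₀))
  have key : ∀ (a : α) (i : ℕ) (l : List β) (c : γ),
      (G a)^[i] (l, c) = (l.drop i, (l.take i).foldl (g a) c) := by
    intro a i
    induction i with
    | zero => intro l c; rfl
    | succ i ih =>
      intro l c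
      rw [Function.iterate_succ_apply]
      cases l with
      | nil => simpa [G] using ih [] c
      | cons b l => simpa [G] using ih l (g a c b)
  have hG : PT (fun x : α × List β × γ => G x.1 x.2) := by
    have := comp hg (g := fun x : α × List β × γ => (x.1, x.2.2, x.2.1.headD b₀)) (by fun_prop)
    simp only [G]
    fun_prop
  have h1 := iterP (g := G) (h := fun a => (l a, h a)) (c := l) hG (by fun_prop) hl
    ((((PB.const 2).mul (PB.of_PT hl)).add (PB.const 1)).add hB) (fun a i _ => by
      rw [key, sz_pair]; have := H a i; have := sz_drop_le (l a) i; omega)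
  exact (snd h1).of_eq (fun a => by rw [key, List.take_of_length_le (length_le_sz _)])

/-- Left fold of a step whose output grows additively. -/
theorem foldlA {g : α → γ → β → γ} {h : α → γ} {l : α → List β}
    (hg : PT (fun x : α × γ × β => g x.1 x.2.1 x.2.2)) (hh : PT h) (hl : PT l)
    {B : α × β → ℕ} (hB : PB B) (H : ∀ a c b, sz (g a c b) ≤ sz c + B (a, b)) :
    PT (fun a => (l a).foldl (g a) (h a)) := by
  obtain ⟨q, hq⟩ := hB
  refine foldl hg hh hl ((PB.of_PT hh).add ((PB.of_PT hl).mul
    ((((((PB.const 2).mul PB.self).add (PB.const 1)).add (PB.of_PT hl))).poly q)))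
    (fun a i => ?_)
  have : ∀ (m : List β) (c : γ), (∀ b ∈ m, b ∈ l a) →
      sz (m.foldl (g a) c) ≤ sz c + m.length * q.eval (2 * sz a + 1 + sz (l a)) := by
    intro m
    induction m with
    | nil => simp
    | cons b m ih =>
      intro c hm
      have h1 := ih (g a c b) (fun b hb => hm b (List.mem_cons_of_mem _ hb))
      have h2 := H a c b
      have h3 := hq (a, b)
      have h4 : q.eval (sz (a, b)) ≤ q.eval (2 * sz a + 1 + sz (l a)) := eval_mono _ (by
        rw [sz_pair]; have := sz_le_of_mem (hm b List.mem_cons_self); omega)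
      simp only [List.foldl_cons, List.length_cons, add_mul]
      omega
  refine (this _ _ (fun b hb => List.mem_of_mem_take hb)).trans ?_
  refine Nat.add_le_add_left (Nat.mul_le_mul_right _ ?_) _
  exact (List.length_take_le' _ _).trans (length_le_sz _)

@[fun_prop] theorem reverseAux' {l m : α → List β} (hl : PT l) (hm : PT m) :
    PT (fun a => (l a).reverseAux (m a)) := by
  have := foldlA (g := fun _ (c : List β) (b : β) => b :: c) (h := m) (l := l) (by fun_prop) hm hl
    (B := fun x => 2 * sz x.2 + 1)
    (((PB.const 2).mul (PB.of_PT (by fun_prop))).add (PB.const 1))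
    (fun a c b => by simp; omega)
  refine this.of_eq (fun a => ?_)
  generalize m a = c
  induction l a generalizing c with
  | nil => rfl
  | cons b l ih => simp only [List.foldl_cons, List.reverseAux]; exact ih _

@[fun_prop] theorem reverse {l : α → List β} (hl : PT l) : PT (fun a => (l a).reverse) :=
  reverseAux' hl (const [])

@[fun_prop] theorem append {l m : α → List β} (hl : PT l) (hm : PT m) :
    PT (fun a => l a ++ m a) :=
  (reverseAux' (reverse hl) hm).of_eq (fun a => by simp [List.reverseAux_eq])

@[fun_prop] theorem flatMap {f : α → β → List γ} {l : α → List β}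
    (hf : PT (fun x : α × β => f x.1 x.2)) (hl : PT l) : PT (fun a => (l a).flatMap (f a)) := by
  have := foldlA (g := fun a (c : List γ) (b : β) => c ++ f a b) (h := fun _ => []) (l := l)
    (by
      have := comp hf (g := fun x : α × List γ × β => (x.1, x.2.2)) (by fun_prop)
      fun_prop) (const _) hl (B := fun x => sz (f x.1 x.2)) (PB.of_PT hf)
    (fun a c b => by simp)
  refine this.of_eq (fun a => ?_)
  have : ∀ c : List γ, (l a).foldl (fun c b => c ++ f a b) c = c ++ (l a).flatMap (f a) := by
    induction l a with
    | nil => simp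
    | cons b l ih => intro c; simp [ih]
  simpa using this []

@[fun_prop] theorem map {f : α → β → γ} {l : α → List β}
    (hf : PT (fun x : α × β => f x.1 x.2)) (hl : PT l) : PT (fun a => (l a).map (f a)) :=
  (flatMap (f := fun a b => [f a b]) (by fun_prop) hl).of_eq (fun a => by
    induction l a with
    | nil => rfl
    | cons b l ih => simp [ih])

@[fun_prop] theorem filter {f : α → β → Bool} {l : α → List β}
    (hf : PT (fun x : α × β => f x.1 x.2)) (hl : PT l) : PT (fun a => (l a).filter (f a)) :=
  (flatMap (f := fun a b => cond (f a b) [b] []) (by fun_prop) hl).of_eq (fun a => by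
    induction l a with
    | nil => rfl
    | cons b l ih => cases h : f a b <;> simp [ih, h])

@[fun_prop] theorem all {f : α → β → Bool} {l : α → List β}
    (hf : PT (fun x : α × β => f x.1 x.2)) (hl : PT l) : PT (fun a => (l a).all (f a)) :=
  (isEmpty (filter (f := fun a b => !(f a b)) (by fun_prop) hl)).of_eq (fun a => by
    induction l a with
    | nil => rfl
    | cons b l ih => cases h : f a b <;> simp [h, ← ih])

end PT

end Pool.Agent.Lib.MP_acf5a6_lc
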