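import Pool.Agent.Lib.MP_acf5a6_lc.Defs

/-!
Recognising and evaluating formulas in reverse Polish form with a stack.
-/

set_option autoImplicit false

namespace Pool.Agent.Lib.MP_acf5a6_lc

/-- Remove the arguments of a symbol of kind `k` from a stack. -/
def popAr {α : Type} (k : ℕ) (l : List α) : List α :=
  if k ≤ 1 then l else if k = 7 then l.tail else l.tail.tail

/-- The sorts of the arguments of a symbol of kind `k`. -/
def need (k : ℕ) : List Bool :=
  if k ≤ 1 then [] else if k ≤ 6 then [false, false] else if k = 7 then [true] else [true, true]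

/-- The symbol is one of those that occur in codes. -/
def valid (t : ℕ × ℤ) : Bool :=
  if t.1 = 0 then decide ((-t.2).toNat = 0) else if t.1 = 1 then true
  else decide (t.2 = 0) && decide (t.1 ≤ 9)

/-- One step of the sort checker. -/
def wfStep (s : Bool × List Bool) (t : ℕ × ℤ) : Bool × List Bool :=
  (s.1 && valid t && decide (need t.1 ++ popAr t.1 s.2 = s.2), decide (4 ≤ t.1) :: popAr t.1 s.2)

/-- The sort checker. -/
def wf (ts : List (ℕ × ℤ)) : Bool :=
  (ts.foldl wfStep (true, [])).1 && decide ((ts.foldl wfStep (true, [])).2 = [true])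

theorem wf_term (t : Term) : ∀ (ok : Bool) (stk : List Bool),
    (termCode t).foldl wfStep (ok, stk) = (ok, false :: stk) := by
  induction t with
  | var k => intro ok stk; simp [termCode, wfStep, valid, need, popAr]
  | const c => intro ok stk; simp [termCode, wfStep, valid, need, popAr]
  | add s t hs ht => intro ok stk; simp [termCode, hs, ht, wfStep, valid, need, popAr]
  | mul s t hs ht => intro ok stk; simp [termCode, hs, ht, wfStep, valid, need, popAr]

theorem wf_formula (φ : Formula) : ∀ (ok : Bool) (stk : List Bool),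
    (formulaCode φ).foldl wfStep (ok, stk) = (ok, true :: stk) := by
  induction φ with
  | eq s t => intro ok stk; simp [formulaCode, wf_term, wfStep, valid, need, popAr]
  | lt s t => intro ok stk; simp [formulaCode, wf_term, wfStep, valid, need, popAr]
  | le s t => intro ok stk; simp [formulaCode, wf_term, wfStep, valid, need, popAr]
  | not φ h => intro ok stk; simp [formulaCode, h, wfStep, valid, need, popAr]
  | and φ ψ h h' => intro ok stk; simp [formulaCode, h, h', wfStep, valid, need, popAr]
  | or φ ψ h h' => intro ok stk; simp [formulaCode, h, h', wfStep, valid, need, popAr]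

/-- The list is a concatenation of codes of the sorts on the stack. -/
inductive Parsed : List (ℕ × ℤ) → List Bool → Prop
  | nil : Parsed [] []
  | term {ts : List (ℕ × ℤ)} {stk : List Bool} (t : Term) :
      Parsed ts stk → Parsed (ts ++ termCode t) (false :: stk)
  | form {ts : List (ℕ × ℤ)} {stk : List Bool} (φ : Formula) :
      Parsed ts stk → Parsed (ts ++ formulaCode φ) (true :: stk)

theorem Parsed.inv_nil {ts : List (ℕ × ℤ)} (h : Parsed ts []) : ts = [] := by
  cases h; rfl

theorem Parsed.inv_term {ts : List (ℕ × ℤ)} {stk : List Bool} (h : Parsed ts (false :: stk)) :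
    ∃ ts' t, Parsed ts' stk ∧ ts = ts' ++ termCode t := by
  cases h with
  | term t h => exact ⟨_, t, h, rfl⟩

theorem Parsed.inv_form {ts : List (ℕ × ℤ)} {stk : List Bool} (h : Parsed ts (true :: stk)) :
    ∃ ts' φ, Parsed ts' stk ∧ ts = ts' ++ formulaCode φ := by
  cases h with
  | form t h => exact ⟨_, t, h, rfl⟩

theorem parsed_step {ts : List (ℕ × ℤ)} {stk : List Bool} (h : Parsed ts stk) (t : ℕ × ℤ)
    (hv : valid t = true) (hn : need t.1 ++ popAr t.1 stk = stk) :
    Parsed (ts ++ [t]) (decide (4 ≤ t.1) :: popAr t.1 stk) := by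
  obtain ⟨k, c⟩ := t
  generalize hr : popAr k stk = rest at hn
  subst hn
  by_cases h0 : k = 0
  · subst h0
    have hc : 0 ≤ c := by simpa [valid] using hv
    obtain ⟨m, rfl⟩ := Int.eq_ofNat_of_zero_le hc
    exact Parsed.term (.var m) h
  by_cases h1 : k = 1
  · subst h1
    exact Parsed.term (.const c) h
  obtain ⟨rfl, h9⟩ : c = 0 ∧ k ≤ 9 := by simpa [valid, h0, h1] using hv
  have hk : k = 2 ∨ k = 3 ∨ k = 4 ∨ k = 5 ∨ k = 6 ∨ k = 7 ∨ k = 8 ∨ k = 9 := by omega
  rcases hk with rfl | rfl | rfl | rfl | rfl | rfl | rfl | rfl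
  · obtain ⟨_, t, ha, rfl⟩ := Parsed.inv_term h
    obtain ⟨_, s, hb, rfl⟩ := Parsed.inv_term ha
    simpa [termCode] using Parsed.term (.add s t) hb
  · obtain ⟨_, t, ha, rfl⟩ := Parsed.inv_term h
    obtain ⟨_, s, hb, rfl⟩ := Parsed.inv_term ha
    simpa [termCode] using Parsed.term (.mul s t) hb
  · obtain ⟨_, t, ha, rfl⟩ := Parsed.inv_term h
    obtain ⟨_, s, hb, rfl⟩ := Parsed.inv_term ha
    simpa [formulaCode] using Parsed.form (.eq s t) hb
  · obtain ⟨_, t, ha, rfl⟩ := Parsed.inv_term h
    obtain ⟨_, s, hb, rfl⟩ := Parsed.inv_term ha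
    simpa [formulaCode] using Parsed.form (.lt s t) hb
  · obtain ⟨_, t, ha, rfl⟩ := Parsed.inv_term h
    obtain ⟨_, s, hb, rfl⟩ := Parsed.inv_term ha
    simpa [formulaCode] using Parsed.form (.le s t) hb
  · obtain ⟨_, t, ha, rfl⟩ := Parsed.inv_form h
    simpa [formulaCode] using Parsed.form (.not t) ha
  · obtain ⟨_, t, ha, rfl⟩ := Parsed.inv_form h
    obtain ⟨_, s, hb, rfl⟩ := Parsed.inv_form ha
    simpa [formulaCode] using Parsed.form (.and s t) hb
  · obtain ⟨_, t, ha, rfl⟩ := Parsed.inv_form h
    obtain ⟨_, s, hb, rfl⟩ := Parsed.inv_form ha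
    simpa [formulaCode] using Parsed.form (.or s t) hb

theorem parsed_of_ok (ts : List (ℕ × ℤ)) (h : (ts.foldl wfStep (true, [])).1 = true) :
    Parsed ts (ts.foldl wfStep (true, [])).2 := by
  induction ts using List.reverseRecOn with
  | nil => exact Parsed.nil
  | append_singleton ts t ih =>
    rw [List.foldl_append, List.foldl_cons, List.foldl_nil] at h ⊢
    simp only [wfStep, Bool.and_eq_true, decide_eq_true_eq] at h
    exact parsed_step (ih h.1.1) t h.1.2 h.2

theorem wf_iff (ts : List (ℕ × ℤ)) : wf ts = true ↔ ∃ φ, ts = formulaCode φ := by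
  constructor
  · intro h
    simp only [wf, Bool.and_eq_true, decide_eq_true_eq] at h
    have := parsed_of_ok ts h.1
    rw [h.2] at this
    obtain ⟨_, φ, ha, e⟩ := this.inv_form
    exact ⟨φ, by rw [e, ha.inv_nil, List.nil_append]⟩
  · rintro ⟨φ, rfl⟩
    simp [wf, wf_formula]

open Classical in
/-- The value computed by a symbol from the value of its variable and its two arguments. -/
noncomputable def sem (t : ℕ × ℤ) (x l r : ℝ) : ℝ :=
  if t.1 = 0 then x else if t.1 = 1 then (t.2 : ℝ) else if t.1 = 2 then l + r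
  else if t.1 = 3 then l * r else if t.1 = 4 then (if l = r then 1 else 0)
  else if t.1 = 5 then (if l < r then 1 else 0) else if t.1 = 6 then (if l ≤ r then 1 else 0)
  else if t.1 = 7 then 1 - r else if t.1 = 8 then l * r else l + r - l * r

/-- One step of the evaluating stack machine. -/
noncomputable def vStep (ρ : ℕ × ℤ → ℝ) (stk : List ℝ) (t : ℕ × ℤ) : List ℝ :=
  sem t (ρ t) (stk.tail.headD 1) (stk.headD 1) :: popAr t.1 stk

theorem v_term (ρ : ℕ × ℤ → ℝ) (x : ℕ → ℝ) (t : Term) :
    (∀ k : ℕ, (0, (k : ℤ)) ∈ termCode t → ρ (0, k) = x k) → ∀ stk : List ℝ,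
    (termCode t).foldl (vStep ρ) stk = termVal x t :: stk := by
  induction t with
  | var k => intro h stk; simp [termCode, vStep, sem, popAr, termVal, h k (by simp [termCode])]
  | const c => intro _ stk; simp [termCode, vStep, sem, popAr, termVal]
  | add s t hs ht =>
    intro h stk
    simp [termCode, hs (fun k hk => h k (by simp [termCode, hk])),
      ht (fun k hk => h k (by simp [termCode, hk])), vStep, sem, popAr, termVal]
  | mul s t hs ht =>
    intro h stk
    simp [termCode, hs (fun k hk => h k (by simp [termCode, hk])),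
      ht (fun k hk => h k (by simp [termCode, hk])), vStep, sem, popAr, termVal]

open Classical in
theorem v_formula (ρ : ℕ × ℤ → ℝ) (x : ℕ → ℝ) (φ : Formula) :
    (∀ k : ℕ, (0, (k : ℤ)) ∈ formulaCode φ → ρ (0, k) = x k) → ∀ stk : List ℝ,
    (formulaCode φ).foldl (vStep ρ) stk = (if Holds x φ then 1 else 0) :: stk := by
  induction φ with
  | eq s t =>
    intro h stk
    simp [formulaCode, v_term ρ x s (fun k hk => h k (by simp [formulaCode, hk])),
      v_term ρ x t (fun k hk => h k (by simp [formulaCode, hk])), vStep, sem, popAr, Holds]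
  | lt s t =>
    intro h stk
    simp [formulaCode, v_term ρ x s (fun k hk => h k (by simp [formulaCode, hk])),
      v_term ρ x t (fun k hk => h k (by simp [formulaCode, hk])), vStep, sem, popAr, Holds]
  | le s t =>
    intro h stk
    simp [formulaCode, v_term ρ x s (fun k hk => h k (by simp [formulaCode, hk])),
      v_term ρ x t (fun k hk => h k (by simp [formulaCode, hk])), vStep, sem, popAr, Holds]
  | not φ hφ =>
    intro h stk
    by_cases h1 : Holds x φ <;>
    simp [formulaCode, hφ (fun k hk => h k (by simp [formulaCode, hk])), vStep, sem, popAr, Holds,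
      h1]
  | and φ ψ hφ hψ =>
    intro h stk
    by_cases h1 : Holds x φ <;> by_cases h2 : Holds x ψ <;>
    simp [formulaCode, hφ (fun k hk => h k (by simp [formulaCode, hk])),
      hψ (fun k hk => h k (by simp [formulaCode, hk])), vStep, sem, popAr, Holds, h1, h2]
  | or φ ψ hφ hψ =>
    intro h stk
    by_cases h1 : Holds x φ <;> by_cases h2 : Holds x ψ <;>
    simp [formulaCode, hφ (fun k hk => h k (by simp [formulaCode, hk])),
      hψ (fun k hk => h k (by simp [formulaCode, hk])), vStep, sem, popAr, Holds, h1, h2]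

end Pool.Agent.Lib.MP_acf5a6_lc
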