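import Mathlib

/-!
Limits of eigenvalues of an integer matrix pencil `A + s B` as `s → ∞` are bounded explicitly.
-/

set_option autoImplicit false

namespace Pool.Agent.Lib.MP_acf5a6_lc

open Polynomial Filter Topology

/-- A bivariate integer polynomial whose coefficients have total absolute value at most `b`. -/
inductive Sm : ℤ[X][X] → ℕ → Prop
  | zero (b : ℕ) : Sm 0 b
  | add (c : ℤ) (i j : ℕ) {p : ℤ[X][X]} {b : ℕ} :
      Sm p b → Sm (monomial i (monomial j c) + p) (c.natAbs + b)

namespace Sm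

theorem mono {p : ℤ[X][X]} {b b' : ℕ} (h : Sm p b) (hb : b ≤ b') : Sm p b' := by
  induction h generalizing b' with
  | zero b => exact zero _
  | @add c i j p b _ ih =>
    have : b' = c.natAbs + (b' - c.natAbs) := by omega
    rw [this]
    exact add c i j (ih (by omega))

theorem mon (c : ℤ) (i j : ℕ) : Sm (monomial i (monomial j c)) c.natAbs := by
  simpa using add c i j (zero 0)

theorem add' {p q : ℤ[X][X]} {a b : ℕ} (hp : Sm p a) (hq : Sm q b) : Sm (p + q) (a + b) := by
  induction hp with
  | zero a => simpa using hq.mono (by omega)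
  | add c i j _ ih => rw [add_assoc, add_assoc]; exact add c i j ih

theorem mon_mul (c : ℤ) (i j : ℕ) {q : ℤ[X][X]} {b : ℕ} (hq : Sm q b) :
    Sm (monomial i (monomial j c) * q) (c.natAbs * b) := by
  induction hq with
  | zero b => simpa using zero _
  | add c' i' j' _ ih =>
    rw [mul_add, monomial_mul_monomial, monomial_mul_monomial, mul_add, ← Int.natAbs_mul]
    exact add _ _ _ ih

theorem mul {p q : ℤ[X][X]} {a b : ℕ} (hp : Sm p a) (hq : Sm q b) : Sm (p * q) (a * b) := by
  induction hp with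
  | zero a => simpa using zero _
  | add c i j _ ih => rw [add_mul, add_mul]; exact (mon_mul c i j hq).add' ih

theorem one : Sm 1 1 := by simpa using mon 1 0 0

theorem neg {p : ℤ[X][X]} {a : ℕ} (hp : Sm p a) : Sm (-p) a := by
  have := mon_mul (-1) 0 0 hp
  have e : (monomial 0 (monomial 0 (-1 : ℤ)) : ℤ[X][X]) * p = -p := by
    rw [monomial_zero_left, monomial_zero_left, C_neg, C_neg, C_1, C_1]; ring
  rw [e] at this
  simpa using this

theorem sum {ι : Type} (s : Finset ι) {f : ι → ℤ[X][X]} {b : ℕ} (h : ∀ i ∈ s, Sm (f i) b) :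
    Sm (∑ i ∈ s, f i) (s.card * b) := by
  classical
  induction s using Finset.induction_on with
  | empty => simpa using zero 0
  | insert a s ha ih =>
    rw [Finset.sum_insert ha, Finset.card_insert_of_notMem ha, add_mul, one_mul, add_comm _ b]
    exact (h a (Finset.mem_insert_self _ _)).add'
      (ih (fun i hi => h i (Finset.mem_insert_of_mem hi)))

theorem prod {ι : Type} (s : Finset ι) {f : ι → ℤ[X][X]} {b : ℕ} (h : ∀ i ∈ s, Sm (f i) b) :
    Sm (∏ i ∈ s, f i) (b ^ s.card) := by
  classical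
  induction s using Finset.induction_on with
  | empty => simpa using one
  | insert a s ha ih =>
    rw [Finset.prod_insert ha, Finset.card_insert_of_notMem ha, pow_succ']
    exact (h a (Finset.mem_insert_self _ _)).mul
      (ih (fun i hi => h i (Finset.mem_insert_of_mem hi)))

theorem coeff_le {p : ℤ[X][X]} {b : ℕ} (h : Sm p b) (k l : ℕ) :
    ((p.coeff k).coeff l).natAbs ≤ b := by
  induction h with
  | zero b => simp
  | add c i j _ ih =>
    rw [coeff_add, coeff_add]
    refine (Int.natAbs_add_le _ _).trans (Nat.add_le_add ?_ ih)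
    rw [coeff_monomial]
    split_ifs
    · rw [coeff_monomial]; split_ifs <;> simp
    · simp

theorem det {I : Type} [Fintype I] [DecidableEq I] {M : Matrix I I ℤ[X][X]} {b : ℕ}
    (h : ∀ i j, Sm (M i j) b) :
    Sm M.det ((Fintype.card I).factorial * b ^ Fintype.card I) := by
  rw [Matrix.det_apply, ← Fintype.card_perm]
  refine sum _ (fun σ _ => ?_)
  have := prod Finset.univ (f := fun i => M (σ i) i) (b := b) (fun i _ => h _ _)
  rcases Int.units_eq_one_or (Equiv.Perm.sign σ) with e | e <;> rw [e]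
  · simpa using this
  · simpa using this.neg

end Sm

theorem root_le {c : ℤ[X]} (hc : c ≠ 0) {b : ℕ} (hb : ∀ l, (c.coeff l).natAbs ≤ b) {x : ℝ}
    (hx : c.eval₂ (Int.castRingHom ℝ) x = 0) : |x| ≤ b + 1 := by
  have hinj : Function.Injective (Int.castRingHom ℝ) := Int.cast_injective
  have h0 : c.map (Int.castRingHom ℝ) ≠ 0 := (Polynomial.map_ne_zero_iff hinj).2 hc
  have h1 : (c.map (Int.castRingHom ℝ)).IsRoot x := by rw [IsRoot, eval_map]; exact hx
  have h2 := h1.norm_lt_cauchyBound h0
  have h3 : (c.map (Int.castRingHom ℝ)).cauchyBound ≤ b + 1 := by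
    unfold cauchyBound
    gcongr
    have h4 : (1 : NNReal) ≤ ‖(c.map (Int.castRingHom ℝ)).leadingCoeff‖₊ := by
      rw [leadingCoeff_map_of_injective hinj]
      have : (1 : ℤ) ≤ |c.leadingCoeff| := Int.one_le_abs (leadingCoeff_ne_zero.2 hc)
      rw [← NNReal.coe_le_coe]
      simp only [NNReal.coe_one, eq_intCast, coe_nnnorm, Real.norm_eq_abs]
      exact_mod_cast this
    refine (div_le_self (by positivity) h4).trans (Finset.sup_le (fun l _ => ?_))
    rw [← NNReal.coe_le_coe]
    simp only [coeff_map, eq_intCast, coe_nnnorm, Real.norm_eq_abs, NNReal.coe_natCast]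
    have := hb l
    rw [← Int.cast_abs, ← Int.natCast_natAbs]
    exact_mod_cast this
  have h5 : ((‖x‖₊ : NNReal) : ℝ) ≤ ((b + 1 : NNReal) : ℝ) := NNReal.coe_le_coe.2 (h2.le.trans h3)
  simpa using h5

theorem continuous_eval₂₂ (q : ℤ[X][X]) :
    Continuous (fun z : ℝ × ℝ => q.eval₂ (eval₂RingHom (Int.castRingHom ℝ) z.1) z.2) := by
  induction q using Polynomial.induction_on' with
  | add p q hp hq => simp only [eval₂_add]; exact hp.add hq
  | monomial n c =>
    simp only [eval₂_monomial, coe_eval₂RingHom]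
    exact ((c.continuous_eval₂ _).comp continuous_fst).mul (continuous_snd.pow n)

theorem pencil {I : Type} [Fintype I] [DecidableEq I] (A B : Matrix I I ℤ) {h : ℕ}
    (hA : ∀ a b, (A a b).natAbs ≤ 1) (hB : ∀ a b, (B a b).natAbs ≤ h)
    {lam s : ℕ → ℝ} {x : ℝ} (hl : Tendsto lam atTop (𝓝 x)) (hs : Tendsto s atTop atTop)
    (hs0 : ∀ m, s m ≠ 0)
    (hv : ∀ m, ∃ v : I → ℝ, v ≠ 0 ∧
      ∀ a, lam m * v a = ∑ b, (A a b : ℝ) * v b + s m * ∑ b, (B a b : ℝ) * v b) :
    |x| ≤ ((Fintype.card I).factorial * (h + 2) ^ Fintype.card I : ℕ) + 1 := by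
  let M : Matrix I I ℤ[X][X] := fun a b =>
    C (Matrix.charmatrix A a b) - X * C (C (B a b))
  have hM : ∀ a b, Sm (M a b) (h + 2) := by
    intro a b
    have e1 : Sm (X * C (C (B a b))) h := by
      have := (Sm.mon (B a b) 1 0).mono (hB a b)
      rwa [monomial_zero_left, ← C_mul_X_eq_monomial, mul_comm] at this
    have e2 : Sm (C (C (A a b))) 1 := by simpa using (Sm.mon (A a b) 0 0).mono (hA a b)
    have e3 : Sm (C X) 1 := by simpa [monomial_one_one_eq_X] using Sm.mon 1 0 1
    by_cases hab : a = b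
    · subst hab
      have := (e3.add' e2.neg).add' e1.neg
      simp only [M, Matrix.charmatrix_apply_eq, sub_eq_add_neg, map_add, map_neg]
      exact this.mono (by omega)
    · have := e2.neg.add' e1.neg
      simp only [M, Matrix.charmatrix_apply_ne _ _ _ hab, sub_eq_add_neg, map_neg]
      exact this.mono (by omega)
  have hdet := Sm.det hM
  have h0 : M.det ≠ 0 := by
    intro h0
    have e : (evalRingHom (0 : ℤ[X])) M.det = A.charpoly := by
      rw [RingHom.map_det, Matrix.charpoly]
      congr 1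
      ext a b : 2
      simp [M]
    rw [h0, map_zero] at e
    exact A.charpoly_monic.ne_zero e.symm
  have hz : ∀ m, M.det.reverse.eval₂ (eval₂RingHom (Int.castRingHom ℝ) (lam m)) (s m)⁻¹ = 0 := by
    intro m
    let _ := invertibleOfNonzero (hs0 m)
    rw [← invOf_eq_inv, eval₂_reverse_eq_zero_iff]
    obtain ⟨v, hv0, hv⟩ := hv m
    have e := RingHom.map_det
      (eval₂RingHom (eval₂RingHom (Int.castRingHom ℝ) (lam m)) (s m)) M
    rw [coe_eval₂RingHom] at e
    rw [e, ← Matrix.exists_mulVec_eq_zero_iff]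
    refine ⟨v, hv0, ?_⟩
    funext a
    have e2 : ∀ b, (eval₂RingHom (eval₂RingHom (Int.castRingHom ℝ) (lam m)) (s m)).mapMatrix M a b
        = (if a = b then lam m else 0) - (A a b : ℝ) - s m * (B a b : ℝ) := by
      intro b
      have e3 : ∀ z : ℤ, eval₂ (eval₂RingHom (Int.castRingHom ℝ) (lam m)) (s m) (z : ℤ[X][X]) = z :=
        fun z => map_intCast
          (eval₂RingHom (eval₂RingHom (Int.castRingHom ℝ) (lam m)) (s m)) z
      by_cases hab : a = b
      · subst hab; simp [M, e3]
      · simp [M, hab, e3]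
    simp only [Matrix.mulVec, dotProduct, e2, sub_mul, Finset.sum_sub_distrib, ite_mul, zero_mul,
      Finset.sum_ite_eq, Finset.mem_univ, if_true, Pi.zero_apply, mul_assoc, ← Finset.mul_sum]
    rw [hv a]; ring
  have hlim : Tendsto (fun m => (lam m, (s m)⁻¹)) atTop (𝓝 (x, 0)) :=
    hl.prodMk_nhds hs.inv_tendsto_atTop
  have h1 := ((continuous_eval₂₂ M.det.reverse).tendsto (x, 0)).comp hlim
  have h2 : M.det.reverse.eval₂ (eval₂RingHom (Int.castRingHom ℝ) x) 0 = 0 := by
    refine tendsto_nhds_unique h1 ?_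
    exact tendsto_const_nhds.congr (fun m => (hz m).symm)
  rw [eval₂_at_zero, coeff_zero_reverse] at h2
  exact root_le (leadingCoeff_ne_zero.2 h0) (fun l => hdet.coeff_le _ l) h2

end Pool.Agent.Lib.MP_acf5a6_lc
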